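import Mathlib
import Pool.Agent.Lib.MP_f3b2fd_co.Cap

set_option autoImplicit false

open Real

namespace Pool.Agent.Lib.MP_f3b2fd_co.KEP

/-- The determinant of three vectors. -/
def dt3 (a b c : E3) : ℝ :=
  a 0 * (b 1 * c 2 - b 2 * c 1) - a 1 * (b 0 * c 2 - b 2 * c 0) + a 2 * (b 0 * c 1 - b 1 * c 0)

/-- Gram determinant of three unit vectors with inner products `p`, `q`, `r`. -/
def gram (p q r : ℝ) : ℝ := 1 - p ^ 2 - q ^ 2 - r ^ 2 + 2 * p * q * r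

/-- Angle of a spherical triangle at a vertex: `p`, `q` are the cosines of the two sides at the
vertex, `r` is the cosine of the opposite side. -/
noncomputable def ang (p q r : ℝ) : ℝ := π / 2 - arctan ((r - p * q) / √(gram p q r))

/-- Signed angle between the side with cosine `p` and the arc from either of its ends to the
circumcentre; `q`, `r` are the cosines of the other two sides. -/
noncomputable def phi (p q r : ℝ) : ℝ := arctan ((1 + p - q - r) / √(gram p q r))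

/-- `gram p q r / cof p q r` is the squared cosine of the circumradius. -/
def cof (p q r : ℝ) : ℝ :=
  2 * ((1 - p) * (1 - q) + (1 - q) * (1 - r) + (1 - r) * (1 - p)) -
    (1 - p) ^ 2 - (1 - q) ^ 2 - (1 - r) ^ 2

/-- Statement B: thirteen or more points of a packing in the annulus have score at most
`12 - δ`. -/
def StB (f : ℝ → ℝ) (hs δ : ℝ) : Prop :=
  ∀ S : Finset E3, (∀ v ∈ S, 2 ≤ ‖v‖ ∧ ‖v‖ ≤ 2 * hs) →
    (∀ v ∈ S, ∀ w ∈ S, v ≠ w → 2 ≤ ‖v - w‖) → 13 ≤ S.card → ∑ v ∈ S, f (‖v‖ / 2) ≤ 12 - δ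

/-- A Delaunay triangulation of the directions of a saturated packing in the annulus
`2 ≤ ‖v‖ ≤ 2 * hs`. `T` is the set of darts: a triangle with counterclockwise vertices
`a, b, c` gives the three darts `(a, b, c)`, `(b, c, a)`, `(c, a, b)`. -/
structure Tri (hs : ℝ) (V : Type) [Fintype V] [DecidableEq V] where
  /-- half the distance to the centre -/
  h : V → ℝ
  /-- unit direction -/
  u : V → E3
  /-- cosine of the arc between two directions -/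
  x : V → V → ℝ
  /-- the darts -/
  T : Finset (V × V × V)
  h_lo : ∀ v, 1 ≤ h v
  h_hi : ∀ v, h v ≤ hs
  unit : ∀ v, ‖u v‖ = 1
  x_eq : ∀ a b, x a b = inner ℝ (u a) (u b)
  x_symm : ∀ a b, x a b = x b a
  sep : ∀ a b, a ≠ b → 2 * h a * h b * x a b ≤ h a ^ 2 + h b ^ 2 - 1
  sat : ∀ p : E3, ‖p‖ = 1 → ∀ k : ℝ, 1 ≤ k → k ≤ hs →
    ∃ v, h v ^ 2 + k ^ 2 - 1 < 2 * h v * k * inner ℝ p (u v)
  det_pos : ∀ a b c, (a, b, c) ∈ T → 0 < dt3 (u a) (u b) (u c)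
  det_eq : ∀ a b c, (a, b, c) ∈ T → dt3 (u a) (u b) (u c) = √(gram (x a b) (x b c) (x c a))
  gram_pos : ∀ a b c, (a, b, c) ∈ T → 0 < gram (x a b) (x b c) (x c a)
  ne : ∀ a b c, (a, b, c) ∈ T → a ≠ b ∧ b ≠ c ∧ c ≠ a
  empty : ∀ a b c, (a, b, c) ∈ T → ∃ y : E3, inner ℝ y (u a) = 1 ∧ inner ℝ y (u b) = 1 ∧
    inner ℝ y (u c) = 1 ∧ ∀ d, inner ℝ y (u d) ≤ 1
  rot : ∀ a b c, (a, b, c) ∈ T → (b, c, a) ∈ T
  uniq : ∀ a b c c', (a, b, c) ∈ T → (a, b, c') ∈ T → c = c'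
  nbr : ∀ a b c, (a, b, c) ∈ T → ∃ d, d ≠ c ∧ (b, a, d) ∈ T
  rad : ∀ a b c, (a, b, c) ∈ T →
    hs ^ 2 * cof (x a b) (x b c) (x c a) < 4 * gram (x a b) (x b c) (x c a)
  del : ∀ a b c d, (a, b, c) ∈ T → (b, a, d) ∈ T →
    0 ≤ phi (x a b) (x b c) (x c a) + phi (x b a) (x a d) (x d b)
  ang_sum : ∀ v, ∑ t ∈ T.filter (fun t => t.1 = v),
    ang (x v t.2.1) (x v t.2.2) (x t.2.1 t.2.2) = 2 * π
  card : T.card + 12 = 6 * Fintype.card V
  star : ∀ v, ∀ D : Set (V × V × V), D.Nonempty → (∀ t ∈ D, t ∈ T ∧ t.1 = v) →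
    (∀ b c, (v, b, c) ∈ D → ∃ d, (v, c, d) ∈ D) → ∀ b c, (v, b, c) ∈ T → (v, b, c) ∈ D
  conn : ∀ D : Set (V × V × V), D.Nonempty → (∀ t ∈ D, t ∈ T) →
    (∀ a b c, (a, b, c) ∈ D → (b, c, a) ∈ D) → (∀ a b c, (a, b, c) ∈ D → ∃ d, (b, a, d) ∈ D) →
    ∀ t ∈ T, t ∈ D
  cover : ∀ v, ∃ b c, (v, b, c) ∈ T

/-- What the computation has to prove. -/
def NumB (f : ℝ → ℝ) (hs δ : ℝ) : Prop :=
  ∀ (V : Type) [Fintype V] [DecidableEq V] (t : Tri hs V), 13 ≤ Fintype.card V →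
    ∑ v, f (t.h v) ≤ 12 - δ

end Pool.Agent.Lib.MP_f3b2fd_co.KEP
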