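import Mathlib
import Pool.Agent.Lib.MP_f3b2fd_co.KEP.B.St

set_option autoImplicit false

open Real

namespace Pool.Agent.Lib.MP_f3b2fd_co.KEP

theorem ip3 (a b : E3) : inner ℝ a b = a 0 * b 0 + a 1 * b 1 + a 2 * b 2 := by
  simp only [PiLp.inner_apply, Fin.sum_univ_three, RCLike.inner_apply, conj_trivial]
  ring

/-- The cross product. -/
noncomputable def cx (a b : E3) : E3 :=
  !₂[a 1 * b 2 - a 2 * b 1, a 2 * b 0 - a 0 * b 2, a 0 * b 1 - a 1 * b 0]

theorem cx_ip (a b c : E3) : inner ℝ (cx a b) c = dt3 a b c := by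
  rw [ip3]
  simp [cx, dt3]
  ring

theorem dt_rot (a b c : E3) : dt3 b c a = dt3 a b c := by unfold dt3; ring

theorem dt_swap (a b c : E3) : dt3 b a c = -dt3 a b c := by unfold dt3; ring

theorem dt_aab (a b : E3) : dt3 a a b = 0 := by unfold dt3; ring

theorem dt_aba (a b : E3) : dt3 a b a = 0 := by unfold dt3; ring

theorem dt_abb (a b : E3) : dt3 a b b = 0 := by unfold dt3; ring

theorem cramer (a b c x y : E3) : dt3 a b c * inner ℝ y x =
    dt3 b c x * inner ℝ y a + dt3 c a x * inner ℝ y b + dt3 a b x * inner ℝ y c := by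
  simp only [ip3, dt3]
  ring

variable {V : Type} (u : V → E3) (c : V → ℝ)

/-- A point of the dual polytope. -/
def Feas (y : E3) : Prop := ∀ d, inner ℝ y (u d) ≤ c d

/-- The three constraints are tight. -/
def Act (y : E3) (a b e : V) : Prop :=
  inner ℝ y (u a) = c a ∧ inner ℝ y (u b) = c b ∧ inner ℝ y (u e) = c e

/-- A counterclockwise facet of the weighted hull. -/
def Dart (a b e : V) : Prop := 0 < dt3 (u a) (u b) (u e) ∧ ∃ y, Feas u c y ∧ Act u c y a b e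

/-- General position. -/
structure Gen : Prop where
  bdd : ∀ x : E3, x ≠ 0 → ∃ v, 0 < inner ℝ x (u v)
  nz : ∀ v, u v ≠ 0
  vert : ∀ v, ∃ y, Feas u c y ∧ inner ℝ y (u v) = c v
  gen : ∀ a b e d y, 0 < dt3 (u a) (u b) (u e) → Act u c y a b e → inner ℝ y (u d) = c d →
    d = a ∨ d = b ∨ d = e

variable {u c}

theorem Act.rot {y : E3} {a b e : V} (h : Act u c y a b e) : Act u c y b e a :=
  ⟨h.2.1, h.2.2, h.1⟩

theorem Dart.rot {a b e : V} (h : Dart u c a b e) : Dart u c b e a := by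
  obtain ⟨h1, y, hy, ha⟩ := h
  exact ⟨by rwa [dt_rot], y, hy, ha.rot⟩

theorem Dart.ne {a b e : V} (h : Dart u c a b e) : a ≠ b ∧ b ≠ e ∧ e ≠ a := by
  have h1 := h.1
  refine ⟨?_, ?_, ?_⟩ <;> rintro rfl
  · rw [dt_aab] at h1; exact lt_irrefl _ h1
  · rw [dt_abb] at h1; exact lt_irrefl _ h1
  · rw [dt_aba] at h1; exact lt_irrefl _ h1

theorem Gen.ray [Fintype V] (hG : Gen u c) {y e : E3} (hy : Feas u c y) (he : e ≠ 0) :
    ∃ (t : ℝ) (d : V), 0 < inner ℝ e (u d) ∧ Feas u c (y + t • e) ∧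
      inner ℝ (y + t • e) (u d) = c d := by
  classical
  obtain ⟨v, hv⟩ := hG.bdd e he
  obtain ⟨d, hd, hmin⟩ := Finset.exists_min_image
    (Finset.univ.filter fun d => 0 < inner ℝ e (u d))
    (fun d => (c d - inner ℝ y (u d)) / inner ℝ e (u d)) ⟨v, by simpa using hv⟩
  have hd' : 0 < inner ℝ e (u d) := by simpa using hd
  have ht : 0 ≤ (c d - inner ℝ y (u d)) / inner ℝ e (u d) :=
    div_nonneg (sub_nonneg.2 (hy d)) hd'.le
  refine ⟨(c d - inner ℝ y (u d)) / inner ℝ e (u d), d, hd', fun w => ?_, ?_⟩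
  · rw [inner_add_left, real_inner_smul_left]
    rcases lt_or_ge 0 (inner ℝ e (u w)) with hw | hw
    · have := hmin w (by simpa using hw)
      rw [le_div_iff₀ hw] at this
      linarith
    · have := mul_nonpos_of_nonneg_of_nonpos ht hw
      linarith [hy w]
  · rw [inner_add_left, real_inner_smul_left, div_mul_cancel₀ _ hd'.ne']
    ring

theorem Gen.edge [Fintype V] (hG : Gen u c) {y : E3} {a b : V} (hy : Feas u c y)
    (ha : inner ℝ y (u a) = c a) (hb : inner ℝ y (u b) = c b) (hn : cx (u a) (u b) ≠ 0) :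
    ∃ d, Dart u c a b d := by
  obtain ⟨t, d, h1, h2, h3⟩ := hG.ray hy hn
  rw [cx_ip] at h1
  refine ⟨d, h1, _, h2, ?_, ?_, h3⟩
  · rw [inner_add_left, real_inner_smul_left, cx_ip, dt_aba, ha]; ring
  · rw [inner_add_left, real_inner_smul_left, cx_ip, dt_abb, hb]; ring

theorem Gen.nbr [Fintype V] (hG : Gen u c) {a b e : V} (h : Dart u c a b e) :
    ∃ d, d ≠ e ∧ Dart u c b a d := by
  obtain ⟨h1, y, hy, ha⟩ := h
  have hn : cx (u b) (u a) ≠ 0 := by
    intro h0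
    have := cx_ip (u b) (u a) (u e)
    rw [h0, inner_zero_left, dt_swap] at this
    linarith
  obtain ⟨d, hd⟩ := hG.edge hy ha.2.1 ha.1 hn
  refine ⟨d, ?_, hd⟩
  rintro rfl
  have := hd.1
  rw [dt_swap] at this
  linarith

theorem Gen.cover [Fintype V] (hG : Gen u c) (v : V) : ∃ b e, Dart u c v b e := by
  obtain ⟨y, hy, hv⟩ := hG.vert v
  obtain ⟨e, he, hev⟩ : ∃ e : E3, e ≠ 0 ∧ inner ℝ e (u v) = 0 := by
    by_cases h : u v 0 = 0
    · refine ⟨!₂[1, 0, 0], fun h0 => ?_, ?_⟩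
      · have := congrArg (fun z : E3 => z 0) h0
        simp at this
      · rw [ip3]; simp [h]
    · refine ⟨!₂[-u v 1, u v 0, 0], fun h0 => ?_, ?_⟩
      · have := congrArg (fun z : E3 => z 1) h0
        simp at this
        exact h this
      · rw [ip3]; simp; ring
  obtain ⟨t, b, h1, h2, h3⟩ := hG.ray hy he
  have hn : cx (u v) (u b) ≠ 0 := by
    intro h0
    have k1 := cx_ip (u v) (u b) (cx (u v) e)
    rw [h0, inner_zero_left] at k1
    have k2 : dt3 (u v) (u b) (cx (u v) e) = inner ℝ (u v) (u v) * inner ℝ e (u b) -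
        inner ℝ e (u v) * inner ℝ (u v) (u b) := by
      simp only [ip3, dt3, cx]
      simp
      ring
    have k3 : 0 < inner ℝ (u v) (u v) := real_inner_self_pos.2 (hG.nz v)
    rw [hev] at k2
    nlinarith [mul_pos k3 h1]
  obtain ⟨d, hd⟩ := hG.edge h2 (by rw [inner_add_left, real_inner_smul_left, hev, hv]; ring) h3 hn
  exact ⟨b, d, hd⟩

/-- Two darts that share a dual point are rotations of each other. -/
theorem Gen.same (hG : Gen u c) {a b e p q r : V} {y : E3} (h : 0 < dt3 (u a) (u b) (u e))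
    (h' : 0 < dt3 (u p) (u q) (u r)) (hy : Act u c y a b e) (hy' : Act u c y p q r) :
    (a, b, e) = (p, q, r) ∨ (a, b, e) = (q, r, p) ∨ (a, b, e) = (r, p, q) := by
  rcases hG.gen p q r a y h' hy' hy.1 with rfl | rfl | rfl <;>
    rcases hG.gen _ _ _ b y h' hy' hy.2.1 with rfl | rfl | rfl <;>
    rcases hG.gen _ _ _ e y h' hy' hy.2.2 with rfl | rfl | rfl <;>
    first
      | exact Or.inl rfl
      | exact Or.inr (Or.inl rfl)
      | exact Or.inr (Or.inr rfl)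
      | (exfalso; unfold dt3 at h h'; linarith)

theorem diff_eq {a b e : V} {y : E3} (hy : Act u c y a b e) (y' x : E3) :
    dt3 (u a) (u b) (u e) * (inner ℝ y x - inner ℝ y' x) =
      dt3 (u b) (u e) x * (c a - inner ℝ y' (u a)) + dt3 (u e) (u a) x * (c b - inner ℝ y' (u b)) +
      dt3 (u a) (u b) x * (c e - inner ℝ y' (u e)) := by
  rw [mul_sub, cramer _ _ _ x y, cramer _ _ _ x y', hy.1, hy.2.1, hy.2.2]
  ring

theorem Gen.uniq (hG : Gen u c) {a b e e' : V} (h : Dart u c a b e) (h' : Dart u c a b e') :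
    e = e' := by
  obtain ⟨h1, y, hy, ha⟩ := h
  obtain ⟨h1', y', hy', ha'⟩ := h'
  have k := diff_eq ha y' (u e')
  rw [ha'.1, ha'.2.1, ha'.2.2, sub_self, sub_self, mul_zero, mul_zero] at k
  have k1 := mul_nonneg h1'.le (sub_nonneg.2 (hy' e))
  have k2 := mul_nonpos_of_nonneg_of_nonpos h1.le (sub_nonpos.2 (hy e'))
  have k3 : dt3 (u a) (u b) (u e) * (inner ℝ y (u e') - c e') = 0 := by linarith
  have k4 : inner ℝ y (u e') = c e' := by
    rcases mul_eq_zero.1 k3 with k | k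
    · exact absurd k h1.ne'
    · linarith
  rcases hG.gen a b e e' y h1 ha k4 with rfl | rfl | rfl
  · rw [dt_aba] at h1'; exact absurd h1' (lt_irrefl _)
  · rw [dt_abb] at h1'; exact absurd h1' (lt_irrefl _)
  · rfl

/-- Crossing an edge towards `x` increases the functional. -/
theorem Gen.step (hG : Gen u c) {a b e d : V} {y y' x : E3} (h : 0 < dt3 (u a) (u b) (u e))
    (hy : Act u c y a b e) (h' : 0 < dt3 (u b) (u a) (u d)) (hf : Feas u c y')
    (hy' : Act u c y' b a d) (hx : dt3 (u a) (u b) x < 0) : inner ℝ y x < inner ℝ y' x := by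
  have k := diff_eq hy y' x
  rw [hy'.1, hy'.2.1, sub_self, sub_self, mul_zero, mul_zero] at k
  have k1 : inner ℝ y' (u e) < c e := by
    refine lt_of_le_of_ne (hf e) fun k2 => ?_
    rcases hG.gen b a d e y' h' hy' k2 with rfl | rfl | rfl
    · rw [dt_abb] at h; exact lt_irrefl _ h
    · rw [dt_aba] at h; exact lt_irrefl _ h
    · rw [dt_swap] at h'; linarith
  have k3 := mul_neg_of_neg_of_pos hx (sub_pos.2 k1)
  have k4 : dt3 (u a) (u b) (u e) * (inner ℝ y x - inner ℝ y' x) < 0 := by linarith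
  by_contra hc
  exact absurd (mul_nonneg h.le (sub_nonneg.2 (not_lt.1 hc))) (not_le.2 k4)

theorem exists_max [Finite V] (D : Set (V × V × V)) (hne : D.Nonempty)
    (hD : ∀ t ∈ D, Dart u c t.1 t.2.1 t.2.2) (x : E3) :
    ∃ t ∈ D, ∃ y, Feas u c y ∧ Act u c y t.1 t.2.1 t.2.2 ∧
      ∀ s ∈ D, ∃ y', Feas u c y' ∧ Act u c y' s.1 s.2.1 s.2.2 ∧ inner ℝ y' x ≤ inner ℝ y x := by
  choose! Y hY using fun t ht => (hD t ht).2
  obtain ⟨t, ht, hm⟩ := Set.exists_max_image D (fun t => inner ℝ (Y t) x) (Set.toFinite D) hne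
  exact ⟨t, ht, Y t, (hY t ht).1, (hY t ht).2, fun s hs =>
    ⟨Y s, (hY s hs).1, (hY s hs).2, hm s hs⟩⟩

/-- A closed set of darts has a cone that contains `x`. -/
theorem Gen.ex_cone [Finite V] (hG : Gen u c) (D : Set (V × V × V)) (hne : D.Nonempty)
    (hD : ∀ t ∈ D, Dart u c t.1 t.2.1 t.2.2) (hr : ∀ a b e, (a, b, e) ∈ D → (b, e, a) ∈ D)
    (hn : ∀ a b e, (a, b, e) ∈ D → ∃ d, (b, a, d) ∈ D) (x : E3) :
    ∃ a b e, (a, b, e) ∈ D ∧ 0 ≤ dt3 (u b) (u e) x ∧ 0 ≤ dt3 (u e) (u a) x ∧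
      0 ≤ dt3 (u a) (u b) x := by
  obtain ⟨⟨a, b, e⟩, ht, y, -, hy, hm⟩ := exists_max D hne hD x
  have key : ∀ p q r, (p, q, r) ∈ D → Act u c y p q r → 0 ≤ dt3 (u p) (u q) x := by
    intro p q r h1 h2
    by_contra hc
    obtain ⟨d, hd⟩ := hn p q r h1
    obtain ⟨y', f1, f2, f3⟩ := hm _ hd
    exact absurd (hG.step (hD _ h1).1 h2 (hD _ hd).1 f1 f2 (not_le.1 hc)) (not_lt.2 f3)
  exact ⟨a, b, e, ht, key _ _ _ (hr _ _ _ ht) hy.rot,
    key _ _ _ (hr _ _ _ (hr _ _ _ ht)) hy.rot.rot, key _ _ _ ht hy⟩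

theorem zero_of_sum {α β γ p q r : ℝ} (hα : 0 < α) (hβ : 0 < β) (hγ : 0 < γ) (hp : 0 ≤ p)
    (hq : 0 ≤ q) (hr : 0 ≤ r) (h : α * p + β * q + γ * r ≤ 0) : p = 0 ∧ q = 0 ∧ r = 0 := by
  have k1 := mul_nonneg hα.le hp
  have k2 := mul_nonneg hβ.le hq
  have k3 := mul_nonneg hγ.le hr
  refine ⟨?_, ?_, ?_⟩
  · exact (mul_eq_zero.1 (show α * p = 0 by linarith)).resolve_left hα.ne'
  · exact (mul_eq_zero.1 (show β * q = 0 by linarith)).resolve_left hβ.ne'
  · exact (mul_eq_zero.1 (show γ * r = 0 by linarith)).resolve_left hγ.ne'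

theorem Gen.uniq_cone (hG : Gen u c) {a b e p q r : V} {x : E3} (h : Dart u c a b e)
    (h' : Dart u c p q r) (a1 : 0 < dt3 (u b) (u e) x) (a2 : 0 < dt3 (u e) (u a) x)
    (a3 : 0 < dt3 (u a) (u b) x) (b1 : 0 ≤ dt3 (u q) (u r) x) (b2 : 0 ≤ dt3 (u r) (u p) x)
    (b3 : 0 ≤ dt3 (u p) (u q) x) :
    (a, b, e) = (p, q, r) ∨ (a, b, e) = (q, r, p) ∨ (a, b, e) = (r, p, q) := by
  obtain ⟨h1, y, hy, ha⟩ := h
  obtain ⟨h1', y', hy', ha'⟩ := h'
  have k := diff_eq ha y' x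
  have k' := diff_eq ha' y x
  have m1 := mul_nonneg b1 (sub_nonneg.2 (hy p))
  have m2 := mul_nonneg b2 (sub_nonneg.2 (hy q))
  have m3 := mul_nonneg b3 (sub_nonneg.2 (hy r))
  have m4 : 0 ≤ inner ℝ y' x - inner ℝ y x := by
    by_contra hc
    have := mul_neg_of_pos_of_neg h1' (not_le.1 hc)
    linarith
  have m5 := mul_nonneg h1.le m4
  obtain ⟨z1, z2, z3⟩ := zero_of_sum a1 a2 a3 (sub_nonneg.2 (hy' a)) (sub_nonneg.2 (hy' b))
    (sub_nonneg.2 (hy' e)) (by linarith)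
  exact hG.same h1 h1' ⟨by linarith, by linarith, by linarith⟩ ha'

theorem Gen.uniq_star (hG : Gen u c) {v b e q r : V} {x : E3} (h : Dart u c v b e)
    (h' : Dart u c v q r) (a2 : 0 < dt3 (u e) (u v) x) (a3 : 0 < dt3 (u v) (u b) x)
    (b2 : 0 ≤ dt3 (u r) (u v) x) (b3 : 0 ≤ dt3 (u v) (u q) x) : b = q ∧ e = r := by
  have n := h.ne
  have n' := h'.ne
  obtain ⟨h1, y, hy, ha⟩ := h
  obtain ⟨h1', y', hy', ha'⟩ := h'
  have k := diff_eq ha y' x
  have k' := diff_eq ha' y x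
  rw [ha'.1, sub_self, mul_zero] at k
  rw [ha.1, sub_self, mul_zero] at k'
  have m2 := mul_nonneg b2 (sub_nonneg.2 (hy q))
  have m3 := mul_nonneg b3 (sub_nonneg.2 (hy r))
  have m4 : 0 ≤ inner ℝ y' x - inner ℝ y x := by
    by_contra hc
    have := mul_neg_of_pos_of_neg h1' (not_le.1 hc)
    linarith
  have m5 := mul_nonneg h1.le m4
  obtain ⟨-, z2, z3⟩ := zero_of_sum one_pos a2 a3 le_rfl (sub_nonneg.2 (hy' b))
    (sub_nonneg.2 (hy' e)) (by linarith)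
  rcases hG.same h1 h1' ⟨ha'.1, by linarith, by linarith⟩ ha' with k | k | k <;>
    simp only [Prod.mk.injEq] at k
  · exact k.2
  · exact absurd k.1 n'.1
  · exact absurd k.1.symm n'.2.2

/-- A set of darts at `v` closed under the next dart has a sector that contains `x`. -/
theorem Gen.ex_star [Finite V] (hG : Gen u c) (v : V) (D : Set (V × V × V)) (hne : D.Nonempty)
    (hD : ∀ t ∈ D, Dart u c t.1 t.2.1 t.2.2 ∧ t.1 = v)
    (hn : ∀ b e, (v, b, e) ∈ D → ∃ d, (v, e, d) ∈ D) (x : E3) :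
    ∃ b e, (v, b, e) ∈ D ∧ 0 ≤ dt3 (u e) (u v) x ∧ 0 ≤ dt3 (u v) (u b) x := by
  have hp : ∀ b e, (v, b, e) ∈ D → ∃ d, (v, d, b) ∈ D := by
    have h1 : ∀ t : D, ∃ s : D, s.1.2.1 = t.1.2.2 := by
      rintro ⟨⟨a, b, e⟩, ht⟩
      obtain rfl : a = v := (hD _ ht).2
      obtain ⟨d, hd⟩ := hn b e ht
      exact ⟨⟨_, hd⟩, rfl⟩
    choose N hN using h1
    have hinj : Function.Injective N := by
      rintro ⟨⟨a, b, e⟩, ht⟩ ⟨⟨a', b', e'⟩, ht'⟩ hst
      have e1 : e = e' := by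
        have k1 := hN ⟨_, ht⟩
        have k2 := hN ⟨_, ht'⟩
        rw [hst] at k1
        exact k1.symm.trans k2
      obtain rfl : a = v := (hD _ ht).2
      obtain rfl : a' = a := (hD _ ht').2
      subst e1
      obtain rfl : b = b' := hG.uniq (hD _ ht).1.rot.rot (hD _ ht').1.rot.rot
      rfl
    intro b e ht
    obtain ⟨⟨⟨a, d, b'⟩, hs⟩, hs'⟩ := Finite.surjective_of_injective hinj ⟨_, ht⟩
    have k1 := hN ⟨_, hs⟩
    rw [hs'] at k1
    obtain rfl : b = b' := k1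
    obtain rfl : a = v := (hD _ hs).2
    exact ⟨d, hs⟩
  obtain ⟨⟨a, b, e⟩, ht, y, -, hy, hm⟩ := exists_max D hne (fun t ht => (hD t ht).1) x
  obtain rfl : a = v := (hD _ ht).2
  refine ⟨b, e, ht, ?_, ?_⟩
  · by_contra hc
    obtain ⟨d, hd⟩ := hn b e ht
    obtain ⟨y', f1, f2, f3⟩ := hm _ hd
    exact absurd (hG.step (hD _ ht).1.rot.rot.1 hy.rot.rot (hD _ hd).1.1 f1 f2 (not_le.1 hc))
      (not_lt.2 f3)
  · by_contra hc
    obtain ⟨d, hd⟩ := hp b e ht
    obtain ⟨y', f1, f2, f3⟩ := hm _ hd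
    exact absurd (hG.step (hD _ ht).1.1 hy (hD _ hd).1.rot.rot.1 f1 f2.rot.rot (not_le.1 hc))
      (not_lt.2 f3)

theorem dt_add (a b x y : E3) : dt3 a b (x + y) = dt3 a b x + dt3 a b y := by
  simp only [dt3, PiLp.add_apply]
  ring

theorem dt_neg (a b x : E3) : dt3 a b (-x) = -dt3 a b x := by
  simp only [dt3, PiLp.neg_apply]
  ring

theorem Gen.star [Finite V] (hG : Gen u c) (v : V) (D : Set (V × V × V)) (hne : D.Nonempty)
    (hD : ∀ t ∈ D, Dart u c t.1 t.2.1 t.2.2 ∧ t.1 = v)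
    (hn : ∀ b e, (v, b, e) ∈ D → ∃ d, (v, e, d) ∈ D) {b e : V} (h : Dart u c v b e) :
    (v, b, e) ∈ D := by
  obtain ⟨q, r, ht, k1, k2⟩ := hG.ex_star v D hne hD hn (u b + u e)
  obtain ⟨rfl, rfl⟩ := hG.uniq_star h (hD _ ht).1
    (by rw [dt_add, dt_aba, add_zero]; exact h.rot.rot.1)
    (by rw [dt_add, dt_abb, zero_add]; exact h.1) k1 k2
  exact ht

theorem Gen.conn [Finite V] (hG : Gen u c) (D : Set (V × V × V)) (hne : D.Nonempty)
    (hD : ∀ t ∈ D, Dart u c t.1 t.2.1 t.2.2) (hr : ∀ a b e, (a, b, e) ∈ D → (b, e, a) ∈ D)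
    (hn : ∀ a b e, (a, b, e) ∈ D → ∃ d, (b, a, d) ∈ D) {a b e : V} (h : Dart u c a b e) :
    (a, b, e) ∈ D := by
  obtain ⟨p, q, r, ht, k1, k2, k3⟩ := hG.ex_cone D hne hD hr hn (u a + u b + u e)
  rcases hG.uniq_cone h (hD _ ht)
    (by rw [dt_add, dt_add, dt_aba, dt_abb, add_zero, add_zero]; exact h.rot.1)
    (by rw [dt_add, dt_add, dt_aba, dt_abb, add_zero, zero_add]; exact h.rot.rot.1)
    (by rw [dt_add, dt_add, dt_aba, dt_abb, add_zero, zero_add]; exact h.1) k1 k2 k3 with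
    k | k | k <;> rw [k]
  · exact ht
  · exact hr _ _ _ ht
  · exact hr _ _ _ (hr _ _ _ ht)

end Pool.Agent.Lib.MP_f3b2fd_co.KEP
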