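import Mathlib
import Pool.Agent.Lib.MP_f3b2fd_co.KEP.B.Hull

set_option autoImplicit false

open Real

namespace Pool.Agent.Lib.MP_f3b2fd_co.KEP

variable {V : Type} {u : V → E3} {c : V → ℝ}

theorem exists_generic [Finite V] (u : V → E3) :
    ∃ x : E3, ∀ a b e : V, 0 < dt3 (u a) (u b) (u e) → dt3 (u a) (u b) x ≠ 0 := by
  obtain ⟨x, hx⟩ := Module.Dual.exists_forall_ne_zero_of_forall_exists (K := ℝ) (M := E3)
    (ι := {t : V × V × V // 0 < dt3 (u t.1) (u t.2.1) (u t.2.2)})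
    (fun t => (innerSL ℝ (cx (u t.1.1) (u t.1.2.1))).toLinearMap)
    (fun t => ⟨u t.1.2.2, by
      have := t.2
      simp only [ContinuousLinearMap.coe_coe, innerSL_apply_apply, cx_ip]
      exact this.ne'⟩)
  refine ⟨x, fun a b e h => ?_⟩
  have := hx ⟨(a, b, e), h⟩
  simpa only [ContinuousLinearMap.coe_coe, innerSL_apply_apply, cx_ip] using this

theorem Gen.one_star [Fintype V] (hG : Gen u c) {x : E3}
    (hx : ∀ a b e : V, 0 < dt3 (u a) (u b) (u e) → dt3 (u a) (u b) x ≠ 0) (v : V) :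
    ∃ b e, Dart u c v b e ∧ 0 < dt3 (u e) (u v) x ∧ 0 < dt3 (u v) (u b) x := by
  obtain ⟨b0, e0, h0⟩ := hG.cover v
  obtain ⟨b, e, ht, k1, k2⟩ := hG.ex_star v {t | Dart u c t.1 t.2.1 t.2.2 ∧ t.1 = v}
    ⟨(v, b0, e0), h0, rfl⟩ (fun t ht => ht) (fun b e ht => by
      obtain ⟨d, -, hd⟩ := hG.nbr ht.1.rot.rot
      exact ⟨d, hd, rfl⟩) x
  exact ⟨b, e, ht.1, lt_of_le_of_ne k1 (hx _ _ _ ht.1.rot.rot.1).symm,
    lt_of_le_of_ne k2 (hx _ _ _ ht.1.1).symm⟩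

variable [Fintype V] [DecidableEq V] {T : Finset (V × V × V)}

omit [DecidableEq V] in
theorem Gen.card_star (hG : Gen u c) (hT : ∀ t, t ∈ T ↔ Dart u c t.1 t.2.1 t.2.2) {x : E3}
    (hx : ∀ a b e : V, 0 < dt3 (u a) (u b) (u e) → dt3 (u a) (u b) x ≠ 0) :
    (T.filter fun t => 0 < dt3 (u t.2.2) (u t.1) x ∧ 0 < dt3 (u t.1) (u t.2.1) x).card =
      Fintype.card V := by
  rw [← Finset.card_univ]
  refine Finset.card_bij (fun t _ => t.1) (fun _ _ => Finset.mem_univ _) ?_ ?_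
  · rintro ⟨a, b, e⟩ h ⟨a', b', e'⟩ h' k
    obtain rfl : a = a' := k
    rw [Finset.mem_filter, hT] at h h'
    obtain ⟨rfl, rfl⟩ := hG.uniq_star h.1 h'.1 h.2.1 h.2.2 h'.2.1.le h'.2.2.le
    rfl
  · intro v _
    obtain ⟨b, e, h, k⟩ := hG.one_star hx v
    exact ⟨(v, b, e), Finset.mem_filter.2 ⟨(hT _).2 h, k⟩, rfl⟩

theorem Gen.card_cone [Nonempty V] (hG : Gen u c) (hT : ∀ t, t ∈ T ↔ Dart u c t.1 t.2.1 t.2.2)
    {x : E3} (hx : ∀ a b e : V, 0 < dt3 (u a) (u b) (u e) → dt3 (u a) (u b) x ≠ 0) :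
    (T.filter fun t => 0 < dt3 (u t.2.1) (u t.2.2) x ∧ 0 < dt3 (u t.2.2) (u t.1) x ∧
      0 < dt3 (u t.1) (u t.2.1) x).card = 3 := by
  obtain ⟨v⟩ := ‹Nonempty V›
  obtain ⟨b0, e0, h0⟩ := hG.cover v
  obtain ⟨a, b, e, ht, k1, k2, k3⟩ := hG.ex_cone {t | Dart u c t.1 t.2.1 t.2.2}
    ⟨(v, b0, e0), h0⟩ (fun t ht => ht) (fun a b e ht => Dart.rot ht) (fun a b e ht => by
      obtain ⟨d, -, hd⟩ := hG.nbr ht
      exact ⟨d, hd⟩) x
  have hd : Dart u c a b e := ht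
  have l1 := lt_of_le_of_ne k1 (hx _ _ _ hd.rot.1).symm
  have l2 := lt_of_le_of_ne k2 (hx _ _ _ hd.rot.rot.1).symm
  have l3 := lt_of_le_of_ne k3 (hx _ _ _ hd.1).symm
  have n := hd.ne
  rw [Finset.card_eq_three]
  refine ⟨(a, b, e), (b, e, a), (e, a, b), by simp [n.1], by simp [n.2.2.symm],
    by simp [n.2.1], ?_⟩
  ext ⟨p, q, r⟩
  simp only [Finset.mem_filter, hT, Finset.mem_insert, Finset.mem_singleton]
  constructor
  · rintro ⟨h, m1, m2, m3⟩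
    exact hG.uniq_cone h hd m1 m2 m3 k1 k2 k3
  · rintro (h | h | h) <;> simp only [Prod.mk.injEq] at h <;> obtain ⟨rfl, rfl, rfl⟩ := h
    · exact ⟨hd, l1, l2, l3⟩
    · exact ⟨hd.rot, l2, l3, l1⟩
    · exact ⟨hd.rot.rot, l3, l1, l2⟩

omit [Fintype V] [DecidableEq V] in
theorem sum_rot (hT : ∀ t, t ∈ T ↔ Dart u c t.1 t.2.1 t.2.2) (g : V × V × V → ℕ) :
    ∑ t ∈ T, g (t.2.1, t.2.2, t.1) = ∑ t ∈ T, g t :=
  Finset.sum_nbij' (fun t => (t.2.1, t.2.2, t.1)) (fun t => (t.2.2, t.1, t.2.1))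
    (fun _ ht => (hT _).2 ((hT _).1 ht).rot) (fun _ ht => (hT _).2 ((hT _).1 ht).rot.rot)
    (fun _ _ => rfl) (fun _ _ => rfl) (fun _ _ => rfl)

theorem sign_count {p q r : ℝ} (hp : p ≠ 0) (hq : q ≠ 0) (hr : r ≠ 0) :
    ((if 0 < q ∧ 0 < r then 1 else 0) + (if 0 < -q ∧ 0 < -r then 1 else 0)) +
      ((if 0 < r ∧ 0 < p then 1 else 0) + (if 0 < -r ∧ 0 < -p then 1 else 0)) +
      ((if 0 < p ∧ 0 < q then 1 else 0) + (if 0 < -p ∧ 0 < -q then 1 else 0)) =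
    1 + 2 * (if 0 < p ∧ 0 < q ∧ 0 < r then 1 else 0) +
      2 * (if 0 < -p ∧ 0 < -q ∧ 0 < -r then 1 else 0 : ℕ) := by
  rcases lt_or_gt_of_ne hp with h1 | h1 <;> rcases lt_or_gt_of_ne hq with h2 | h2 <;>
    rcases lt_or_gt_of_ne hr with h3 | h3 <;> simp [h1, h2, h3, h1.not_gt, h2.not_gt, h3.not_gt]

/-- Euler's relation. -/
theorem Gen.card [Nonempty V] (hG : Gen u c) (hT : ∀ t, t ∈ T ↔ Dart u c t.1 t.2.1 t.2.2) :
    T.card + 12 = 6 * Fintype.card V := by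
  obtain ⟨x, hx⟩ := exists_generic u
  have hx' : ∀ a b e : V, 0 < dt3 (u a) (u b) (u e) → dt3 (u a) (u b) (-x) ≠ 0 :=
    fun a b e h => by rw [dt_neg]; exact neg_ne_zero.2 (hx a b e h)
  have s1 := hG.card_star hT hx
  have s2 := hG.card_star hT hx'
  have c1 := hG.card_cone hT hx
  have c2 := hG.card_cone hT hx'
  rw [Finset.card_filter] at s1 s2 c1 c2
  simp only [dt_neg] at s2 c2
  set g : V × V × V → ℕ := fun t =>
    (if 0 < dt3 (u t.2.2) (u t.1) x ∧ 0 < dt3 (u t.1) (u t.2.1) x then 1 else 0) +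
      (if 0 < -dt3 (u t.2.2) (u t.1) x ∧ 0 < -dt3 (u t.1) (u t.2.1) x then 1 else 0) with hg
  have g0 : ∑ t ∈ T, g t = 2 * Fintype.card V := by
    rw [hg, Finset.sum_add_distrib, s1, s2]; ring
  have g1 := sum_rot hT g
  have g2 := sum_rot hT fun t => g (t.2.1, t.2.2, t.1)
  have g3 : ∑ t ∈ T, (g t + g (t.2.1, t.2.2, t.1) + g (t.2.2, t.1, t.2.1)) =
      T.card + 2 * 3 + 2 * 3 := by
    rw [Finset.sum_congr rfl fun t ht => sign_count (hx _ _ _ ((hT t).1 ht).rot.1)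
      (hx _ _ _ ((hT t).1 ht).rot.rot.1) (hx _ _ _ ((hT t).1 ht).1), Finset.sum_add_distrib,
      Finset.sum_add_distrib, ← Finset.mul_sum, ← Finset.mul_sum, c1, c2,
      ← Finset.card_eq_sum_ones]
  rw [Finset.sum_add_distrib, Finset.sum_add_distrib] at g3
  simp only at g2
  omega

theorem arg_eq {w : ℂ} (hw : 0 < w.im) : Complex.arg w = π / 2 - arctan (w.re / w.im) := by
  rw [Complex.arg_of_im_pos hw, arccos_eq_pi_div_two_sub_arcsin, arctan_eq_arcsin]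
  congr 2
  have h : √(1 + (w.re / w.im) ^ 2) = ‖w‖ / w.im := by
    rw [Real.sqrt_eq_iff_mul_self_eq (by positivity) (by positivity), div_mul_div_comm,
      ← sq, ← sq, Complex.sq_norm, Complex.normSq_apply]
    field_simp
    ring
  have hn : ‖w‖ ≠ 0 := norm_ne_zero_iff.2 fun h0 => by simp [h0] at hw
  rw [h]
  field_simp

theorem arg_int {z1 z2 w : ℂ} {k : ℝ} (hk : 0 < k) (h : z2 * k = z1 * w) (hw : w ≠ 0)
    (h1 : z1 ≠ 0) : ∃ n : ℤ, Complex.arg z2 - (Complex.arg z1 + Complex.arg w) = 2 * π * n := by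
  have e := Complex.arg_mul_coe_angle h1 hw
  rw [← h, Complex.arg_mul_real hk, ← Real.Angle.coe_add] at e
  exact Real.Angle.angle_eq_iff_two_pi_dvd_sub.1 e

theorem int_of {n m : ℤ} (h1 : 2 * π * (m - 1 : ℝ) < 2 * π * n) (h2 : 2 * π * (n : ℝ) < 2 * π * (m + 1)) :
    n = m := by
  have k1 : (m - 1 : ℝ) < n := lt_of_mul_lt_mul_left h1 (by positivity)
  have k2 : (n : ℝ) < m + 1 := lt_of_mul_lt_mul_left h2 (by positivity)
  have k3 : m - 1 < n := by exact_mod_cast k1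
  have k4 : n < m + 1 := by exact_mod_cast k2
  omega

theorem arg_rng {z : ℂ} (h : z.im ≠ 0) :
    (0 < z.im ∧ 0 < Complex.arg z ∧ Complex.arg z < π) ∨
      (z.im < 0 ∧ -π < Complex.arg z ∧ Complex.arg z < 0) := by
  rcases lt_or_gt_of_ne h with h1 | h1
  · exact Or.inr ⟨h1, Complex.neg_pi_lt_arg z, Complex.arg_neg_iff.2 h1⟩
  · refine Or.inl ⟨h1, lt_of_le_of_ne (Complex.arg_nonneg_iff.2 h1.le) fun e => ?_,
      Complex.arg_lt_pi_iff.2 (Or.inr h)⟩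
    exact h (Complex.arg_eq_zero_iff.1 e.symm).2

theorem arg_step {z1 z2 w : ℂ} {k : ℝ} (hk : 0 < k) (h : z2 * k = z1 * w) (hw : 0 < w.im)
    (h1 : z1.im ≠ 0) (h2 : z2.im ≠ 0) : Complex.arg w =
      Complex.arg z2 - Complex.arg z1 + if 0 < -z2.im ∧ 0 < z1.im then 2 * π else 0 := by
  obtain ⟨n, hn⟩ := arg_int hk h (fun e => by simp [e] at hw) (fun e => by simp [e] at h1)
  have hp := pi_pos
  rcases arg_rng hw.ne' with ⟨-, w1, w2⟩ | ⟨w0, -⟩
  swap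
  · linarith
  rcases arg_rng h1 with ⟨a0, a1, a2⟩ | ⟨a0, a1, a2⟩ <;>
    rcases arg_rng h2 with ⟨b0, b1, b2⟩ | ⟨b0, b1, b2⟩
  · obtain rfl : n = 0 := int_of (by push_cast; linarith) (by push_cast; linarith)
    rw [if_neg (fun k => by linarith [k.1])]
    push_cast at hn
    linarith
  · obtain rfl : n = -1 := int_of (by push_cast; linarith) (by push_cast; linarith)
    rw [if_pos ⟨by linarith, a0⟩]
    push_cast at hn
    linarith
  · obtain rfl : n = 0 := int_of (by push_cast; linarith) (by push_cast; linarith)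
    rw [if_neg (fun k => by linarith [k.1])]
    push_cast at hn
    linarith
  · obtain rfl : n = 0 := int_of (by push_cast; linarith) (by push_cast; linarith)
    rw [if_neg (fun k => by linarith [k.2])]
    push_cast at hn
    linarith

theorem unit_ip {a : E3} (h : ‖a‖ = 1) : inner ℝ a a = 1 := by
  rw [real_inner_self_eq_norm_sq, h]; norm_num

theorem dt_sq {a b e : E3} (ha : ‖a‖ = 1) (hb : ‖b‖ = 1) (he : ‖e‖ = 1) :
    dt3 a b e ^ 2 = gram (inner ℝ a b) (inner ℝ b e) (inner ℝ e a) := by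
  have k : dt3 a b e ^ 2 = inner ℝ a a * inner ℝ b b * inner ℝ e e -
      inner ℝ e e * inner ℝ a b ^ 2 - inner ℝ a a * inner ℝ b e ^ 2 -
      inner ℝ b b * inner ℝ e a ^ 2 + 2 * inner ℝ a b * inner ℝ b e * inner ℝ e a := by
    simp only [ip3, dt3]
    ring
  rw [k, unit_ip ha, unit_ip hb, unit_ip he, gram]
  ring

theorem dt_sqrt {a b e : E3} (ha : ‖a‖ = 1) (hb : ‖b‖ = 1) (he : ‖e‖ = 1) (h : 0 < dt3 a b e) :
    dt3 a b e = √(gram (inner ℝ a b) (inner ℝ b e) (inner ℝ e a)) := by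
  rw [← dt_sq ha hb he, sqrt_sq h.le]

theorem ip_sq_lt {a b e : E3} (ha : ‖a‖ = 1) (hb : ‖b‖ = 1) (he : ‖e‖ = 1) (h : 0 < dt3 a b e) :
    0 < 1 - inner ℝ a b ^ 2 := by
  have k := dt_sq ha hb he
  have k1 : |inner ℝ e a| ≤ 1 := by simpa [ha, he] using abs_real_inner_le_norm e a
  have k2 : |inner ℝ a b| ≤ 1 := by simpa [ha, hb] using abs_real_inner_le_norm a b
  have k3 : inner ℝ a b ^ 2 ≤ 1 := by rwa [sq_le_one_iff_abs_le_one]
  have k4 : inner ℝ e a ^ 2 ≤ 1 := by rwa [sq_le_one_iff_abs_le_one]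
  by_contra hc
  have k5 : inner ℝ a b ^ 2 = 1 := by linarith
  unfold gram at k
  nlinarith [sq_nonneg (inner ℝ b e - inner ℝ a b * inner ℝ e a), pow_pos h 2]

/-- The complex coordinate of `b` in the plane orthogonal to `v`. -/
noncomputable def zc (v x b : E3) : ℂ := ⟨inner ℝ v b * inner ℝ v x - inner ℝ b x, dt3 v b x⟩

theorem zc_mul {v b e : E3} (x : E3) (hv : ‖v‖ = 1) (hb : ‖b‖ = 1) :
    zc v x e * (1 - inner ℝ v b ^ 2 : ℝ) =
      zc v x b * ⟨inner ℝ b e - inner ℝ v b * inner ℝ v e, dt3 v b e⟩ := by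
  have k1 : (inner ℝ v e * inner ℝ v x - inner ℝ v v * inner ℝ e x) *
      (inner ℝ v v * inner ℝ b b - inner ℝ v b ^ 2) =
      (inner ℝ v b * inner ℝ v x - inner ℝ v v * inner ℝ b x) *
        (inner ℝ v v * inner ℝ b e - inner ℝ v b * inner ℝ v e) -
        inner ℝ v v * (dt3 v b x * dt3 v b e) := by
    simp only [ip3, dt3]
    ring
  have k2 : dt3 v e x * (inner ℝ v v * inner ℝ b b - inner ℝ v b ^ 2) =
      (inner ℝ v b * inner ℝ v x - inner ℝ v v * inner ℝ b x) * dt3 v b e +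
        dt3 v b x * (inner ℝ v v * inner ℝ b e - inner ℝ v b * inner ℝ v e) := by
    simp only [ip3, dt3]
    ring
  rw [unit_ip hv, unit_ip hb] at k1 k2
  apply Complex.ext
  · simp only [zc, Complex.mul_re, Complex.ofReal_re, Complex.ofReal_im]
    linarith
  · simp only [zc, Complex.mul_im, Complex.ofReal_re, Complex.ofReal_im]
    linarith

theorem ang_arg {v b e : E3} (hv : ‖v‖ = 1) (hb : ‖b‖ = 1) (he : ‖e‖ = 1) (h : 0 < dt3 v b e) :
    ang (inner ℝ v b) (inner ℝ v e) (inner ℝ b e) =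
      Complex.arg ⟨inner ℝ b e - inner ℝ v b * inner ℝ v e, dt3 v b e⟩ := by
  rw [arg_eq (by exact h), ang, dt_sqrt hv hb he h, real_inner_comm v e]
  congr 4
  unfold gram
  ring

/-- The angles at a vertex add up to a full turn. -/
theorem Gen.ang_sum (hG : Gen u c) (hu : ∀ v, ‖u v‖ = 1)
    (hT : ∀ t, t ∈ T ↔ Dart u c t.1 t.2.1 t.2.2) (v : V) :
    ∑ t ∈ T.filter (fun t => t.1 = v), ang (inner ℝ (u v) (u t.2.1)) (inner ℝ (u v) (u t.2.2))
      (inner ℝ (u t.2.1) (u t.2.2)) = 2 * π := by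
  obtain ⟨x, hx⟩ := exists_generic u
  have hm : ∀ t : V × V × V, t ∈ T.filter (fun t => t.1 = v) ↔
      Dart u c v t.2.1 t.2.2 ∧ t.1 = v := by
    intro t
    rw [Finset.mem_filter, hT]
    constructor <;> rintro ⟨h, rfl⟩ <;> exact ⟨h, rfl⟩
  have h1 : ∀ t ∈ T.filter (fun t => t.1 = v),
      ang (inner ℝ (u v) (u t.2.1)) (inner ℝ (u v) (u t.2.2)) (inner ℝ (u t.2.1) (u t.2.2)) =
        Complex.arg (zc (u v) x (u t.2.2)) - Complex.arg (zc (u v) x (u t.2.1)) +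
          if 0 < dt3 (u t.2.2) (u v) x ∧ 0 < dt3 (u v) (u t.2.1) x then 2 * π else 0 := by
    intro t ht
    have hd := ((hm t).1 ht).1
    rw [ang_arg (hu _) (hu _) (hu _) hd.1, dt_swap (u v) (u t.2.2)]
    refine arg_step (ip_sq_lt (hu _) (hu _) (hu _) hd.1) (zc_mul x (hu _) (hu _)) hd.1
      (hx _ _ _ hd.1) ?_
    have := hx _ _ _ hd.rot.rot.1
    rw [dt_swap] at this
    exact neg_ne_zero.1 this
  have h2 : ∑ t ∈ T.filter (fun t => t.1 = v), Complex.arg (zc (u v) x (u t.2.2)) =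
      ∑ t ∈ T.filter (fun t => t.1 = v), Complex.arg (zc (u v) x (u t.2.1)) := by
    have hn : ∀ t ∈ T.filter (fun t => t.1 = v), ∃ d, Dart u c v t.2.2 d := fun t ht => by
      obtain ⟨d, -, hd⟩ := hG.nbr ((hm t).1 ht).1.rot.rot
      exact ⟨d, hd⟩
    have : Nonempty V := ⟨v⟩
    choose! N hN using hn
    refine Finset.sum_bij (fun t _ => (v, t.2.2, N t)) (fun t ht => (hm _).2 ⟨hN t ht, rfl⟩)
      ?_ ?_ (fun _ _ => rfl)
    · rintro ⟨a, b, e⟩ ht ⟨a', b', e'⟩ ht' k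
      obtain ⟨k1, rfl⟩ := (hm _).1 ht
      obtain ⟨k2, k3⟩ := (hm _).1 ht'
      obtain rfl : a' = a := k3
      obtain rfl : e = e' := (Prod.mk.inj (Prod.mk.inj k).2).1
      obtain rfl : b = b' := hG.uniq k1.rot.rot k2.rot.rot
      rfl
    · rintro ⟨a, b, e⟩ ht
      obtain ⟨k1, rfl⟩ := (hm _).1 ht
      obtain ⟨d, -, hd⟩ := hG.nbr k1
      have k2 := (hm (a, d, b)).2 ⟨hd.rot, rfl⟩
      refine ⟨_, k2, ?_⟩
      have k3 : N (a, d, b) = e := hG.uniq (hN _ k2) k1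
      simp only [k3]
  obtain ⟨b, e, hd, k⟩ := hG.one_star hx v
  rw [Finset.sum_congr rfl h1, Finset.sum_add_distrib, Finset.sum_sub_distrib, h2, sub_self,
    zero_add, Finset.sum_eq_single_of_mem (v, b, e) ((hm _).2 ⟨hd, rfl⟩), if_pos k]
  rintro ⟨a, q, r⟩ ht hne
  obtain ⟨k1, rfl⟩ := (hm _).1 ht
  refine if_neg fun k2 => hne ?_
  obtain ⟨rfl, rfl⟩ := hG.uniq_star hd k1 k.1 k.2 k2.1.le k2.2.le
  rfl

end Pool.Agent.Lib.MP_f3b2fd_co.KEP
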