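import Pool.Agent.Lib.MP_f3b2fd_co.KEP.B.Trig
import Pool.Agent.Lib.MP_f3b2fd_co.KEP.N.Box

/-! Derivatives of the angles of a spherical triangle in the cosines of the sides; minima of
linear combinations over a cell. -/

set_option autoImplicit false

open Real Set

namespace Pool.Agent.Lib.MP_f3b2fd_co.KEP

/-- derivative of `ang p q r` in `p`. -/
noncomputable def angP (p q r : ℝ) : ℝ := (q - p * r) / (1 - p ^ 2) / √(gram p q r)

/-- derivative of `ang p q r` in `r`. -/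
noncomputable def angR (p q r : ℝ) : ℝ := -1 / √(gram p q r)

/-- second derivative of `ang p q r` in `p`. -/
noncomputable def angPP (p q r : ℝ) : ℝ :=
  (2 * p * (q - p * r) - r * (1 - p ^ 2)) / ((1 - p ^ 2) ^ 2 * √(gram p q r)) +
    (q - p * r) * (p - q * r) / ((1 - p ^ 2) * (gram p q r * √(gram p q r)))

/-- second derivative of `ang p q r` in `r`. -/
noncomputable def angRR (p q r : ℝ) : ℝ := -(r - p * q) / (gram p q r * √(gram p q r))

namespace Curv

open KA.Der (core quad)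

variable {p q r : ℝ}

theorem gP (p q r : ℝ) : HasDerivAt (fun t => gram t q r) (-2 * (p - q * r)) p :=
  quad (-1) (2 * q * r) (1 - q ^ 2 - r ^ 2) (fun t => by unfold gram; ring) (by ring)

theorem gR (p q r : ℝ) : HasDerivAt (fun t => gram p q t) (-2 * (r - p * q)) r :=
  quad (-1) (2 * p * q) (1 - p ^ 2 - q ^ 2) (fun t => by unfold gram; ring) (by ring)

end Curv

open Curv KA.Der

section
variable {p q r : ℝ}

theorem hasDeriv_angR (h : 0 < gram p q r) : HasDerivAt (fun t => ang p q t) (angR p q r) r :=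
  core (A := fun t => t - p * q) (A' := 1) (c := -1) ((hasDerivAt_id' r).sub_const _) (gR p q r) h
    (by ring)

theorem hasDeriv_angP (h : 0 < gram p q r) (hp : 1 - p ^ 2 ≠ 0) :
    HasDerivAt (fun t => ang t q r) (angP p q r) p :=
  core (A := fun t => r - t * q) (A' := -q) (c := (q - p * r) / (1 - p ^ 2))
    (quad 0 (-q) r (fun t => by ring) (by ring)) (gP p q r) h (by
      field_simp
      unfold gram
      ring)

theorem hasDeriv_angRR (h : 0 < gram p q r) :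
    HasDerivAt (fun t => angR p q t) (angRR p q r) r := by
  have hs : 0 < √(gram p q r) := Real.sqrt_pos.2 h
  have s2 : √(gram p q r) ^ 2 = gram p q r := Real.sq_sqrt h.le
  refine ((hasDerivAt_const r (-1 : ℝ)).fun_div ((gR p q r).sqrt h.ne') hs.ne').congr_deriv ?_
  unfold angRR
  generalize √(gram p q r) = s at *
  rw [← s2]
  field_simp
  ring

theorem hasDeriv_angPP (h : 0 < gram p q r) (hp : 1 - p ^ 2 ≠ 0) :
    HasDerivAt (fun t => angP t q r) (angPP p q r) p := by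
  have hs : 0 < √(gram p q r) := Real.sqrt_pos.2 h
  have s2 : √(gram p q r) ^ 2 = gram p q r := Real.sq_sqrt h.le
  have h1 : HasDerivAt (fun t : ℝ => q - t * r) (-r) p :=
    quad 0 (-r) q (fun t => by ring) (by ring)
  have h2 : HasDerivAt (fun t : ℝ => 1 - t ^ 2) (-2 * p) p :=
    quad (-1) 0 1 (fun t => by ring) (by ring)
  refine ((h1.fun_div h2 hp).fun_div ((gP p q r).sqrt h.ne') hs.ne').congr_deriv ?_
  unfold angPP
  generalize √(gram p q r) = s at *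
  rw [← s2]
  field_simp
  ring

/-- the second derivative of the area in the cosine `p` of one side. -/
theorem area_pp (h : 0 < gram p q r) (h1 : 1 - p ≠ 0) (h2 : 1 + p ≠ 0) :
    angRR q r p + angPP p r q + angPP p q r =
      -((q + r) * gram p q r + (1 + p) * (1 + p - q - r) * (p - q * r)) /
        ((1 + p) ^ 2 * (gram p q r * √(gram p q r))) := by
  have hs : 0 < √(gram p q r) := Real.sqrt_pos.2 h
  have e : gram p r q = gram p q r := by unfold gram; ring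
  unfold angRR angPP
  rw [gram_rot, e, show 1 - p ^ 2 = (1 - p) * (1 + p) by ring]
  generalize √(gram p q r) = s at *
  generalize gram p q r = G at *
  field_simp
  ring

end

/-- a function with second derivative at most `M` stays above its smaller boundary value, up to
`M (u - l) ^ 2 / 8`. -/
theorem chord {φ g d : ℝ → ℝ} {l u x c M : ℝ} (hx : x ∈ Icc l u) (hM : 0 ≤ M)
    (h1 : ∀ t ∈ Icc l u, HasDerivAt φ (g t) t) (h2 : ∀ t ∈ Icc l u, HasDerivAt g (d t) t)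
    (hd : ∀ t ∈ Icc l u, d t ≤ M) (hl : c ≤ φ l) (hu : c ≤ φ u) :
    c - M * (u - l) ^ 2 / 8 ≤ φ x := by
  have k1 : ∀ t, HasDerivAt (fun s => M / 2 * ((s - l) * (u - s))) (M / 2 * (l + u) - M * t) t :=
    fun t => quad (-(M / 2)) (M / 2 * (l + u)) (-(M / 2 * (l * u))) (fun t => by ring) (by ring)
  have k2 : ∀ t, HasDerivAt (fun s => M / 2 * (l + u) - M * s) (-M) t :=
    fun t => quad 0 (-M) (M / 2 * (l + u)) (fun t => by ring) (by ring)
  have := KA.Box.quasi (φ := fun s => φ s + M / 2 * ((s - l) * (u - s)))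
    (g := fun t => g t + (M / 2 * (l + u) - M * t)) (m := fun _ => 1) (d := fun t => d t + -M)
    (c := c) hx (fun t ht => ((h1 t ht).fun_add (k1 t)).continuousAt.continuousWithinAt)
    (fun t ht => (h1 t (Ioo_subset_Icc_self ht)).fun_add (k1 t)) (fun _ _ => one_pos)
    (fun t ht => by
      simpa only [one_mul] using (h2 t (Ioo_subset_Icc_self ht)).fun_add (k2 t))
    (fun t ht => by linarith [hd t (Ioo_subset_Icc_self ht)]) (by simpa using hl) (by simpa using hu)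
  nlinarith [mul_nonneg hM (sq_nonneg (2 * x - l - u))]

/-- a linear combination of the angles and of the cosines of the sides; the angle with the weight
`w1` is opposite to the side with the cosine `z1`, and so on. -/
noncomputable def lin (w1 w2 w3 n1 n2 n3 z1 z2 z3 : ℝ) : ℝ :=
  w1 * ang z2 z3 z1 + w2 * ang z1 z3 z2 + w3 * ang z1 z2 z3 + n1 * z1 + n2 * z2 + n3 * z3

/-- its second derivative in `z1`. -/
noncomputable def lin2 (w1 w2 w3 z1 z2 z3 : ℝ) : ℝ :=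
  w1 * angRR z2 z3 z1 + w2 * angPP z1 z3 z2 + w3 * angPP z1 z2 z3

theorem lin_a (w1 w2 w3 n1 n2 n3 z1 z2 z3 : ℝ) :
    lin w1 w2 w3 n1 n2 n3 z1 z2 z3 = lin w2 w1 w3 n2 n1 n3 z2 z1 z3 := by
  unfold lin
  rw [ang_comm z1 z2]
  ring

theorem lin_b (w1 w2 w3 n1 n2 n3 z1 z2 z3 : ℝ) :
    lin w1 w2 w3 n1 n2 n3 z1 z2 z3 = lin w3 w1 w2 n3 n1 n2 z3 z1 z2 := by
  unfold lin
  rw [ang_comm z2 z3, ang_comm z1 z3]
  ring

/-- one coordinate. -/
theorem lin_chord {w1 w2 w3 n1 n2 n3 l u x y z c M : ℝ} (hx : x ∈ Icc l u) (hM : 0 ≤ M)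
    (hg : ∀ t ∈ Icc l u, 0 < gram t y z) (hd : ∀ t ∈ Icc l u, lin2 w1 w2 w3 t y z ≤ M)
    (hl : c ≤ lin w1 w2 w3 n1 n2 n3 l y z) (hu : c ≤ lin w1 w2 w3 n1 n2 n3 u y z) :
    c - M * (u - l) ^ 2 / 8 ≤ lin w1 w2 w3 n1 n2 n3 x y z := by
  have a : ∀ t ∈ Icc l u, 0 < gram y z t ∧ 0 < gram t z y ∧ 1 - t ^ 2 ≠ 0 := fun t ht => by
    have h := hg t ht
    refine ⟨by rwa [gram_rot], h.trans_eq (by unfold gram; ring), fun e => ?_⟩
    rw [gram_eq, e] at h
    nlinarith [sq_nonneg (z - t * y)]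
  refine chord (φ := fun t => lin w1 w2 w3 n1 n2 n3 t y z)
    (g := fun t => w1 * angR y z t + w2 * angP t z y + w3 * angP t y z + n1)
    (d := fun t => lin2 w1 w2 w3 t y z) hx hM (fun t ht => ?_) (fun t ht => ?_) hd hl hu
  · obtain ⟨a1, a2, a3⟩ := a t ht
    simpa only [lin, mul_one] using ((((((hasDeriv_angR a1).const_mul w1).fun_add
      ((hasDeriv_angP a2 a3).const_mul w2)).fun_add
      ((hasDeriv_angP (hg t ht) a3).const_mul w3)).fun_add
      ((hasDerivAt_id' t).const_mul n1)).add_const (n2 * y)).add_const (n3 * z)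
  · obtain ⟨a1, a2, a3⟩ := a t ht
    exact ((((hasDeriv_angRR a1).const_mul w1).fun_add
      ((hasDeriv_angPP a2 a3).const_mul w2)).fun_add
      ((hasDeriv_angPP (hg t ht) a3).const_mul w3)).add_const n1

/-- the minimum over a cell from the values at the eight vertices. -/
theorem lin_cell {w1 w2 w3 n1 n2 n3 l1 u1 l2 u2 l3 u3 c M1 M2 M3 : ℝ} (m1 : 0 ≤ M1) (m2 : 0 ≤ M2)
    (m3 : 0 ≤ M3)
    (H : ∀ x ∈ Icc l1 u1, ∀ y ∈ Icc l2 u2, ∀ z ∈ Icc l3 u3, 0 < gram x y z ∧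
      lin2 w1 w2 w3 x y z ≤ M1 ∧ lin2 w2 w1 w3 y x z ≤ M2 ∧ lin2 w3 w1 w2 z x y ≤ M3)
    (hv : ∀ x y z, (x = l1 ∨ x = u1) → (y = l2 ∨ y = u2) → (z = l3 ∨ z = u3) →
      c ≤ lin w1 w2 w3 n1 n2 n3 x y z) :
    ∀ x ∈ Icc l1 u1, ∀ y ∈ Icc l2 u2, ∀ z ∈ Icc l3 u3,
      c - M1 * (u1 - l1) ^ 2 / 8 - M2 * (u2 - l2) ^ 2 / 8 - M3 * (u3 - l3) ^ 2 / 8 ≤
        lin w1 w2 w3 n1 n2 n3 x y z := by
  intro x hx y hy z hz
  have m : ∀ {l u v t : ℝ}, t ∈ Icc l u → (v = l ∨ v = u) → v ∈ Icc l u := fun a h => by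
    rcases h with rfl | rfl
    exacts [⟨le_rfl, a.1.trans a.2⟩, ⟨a.1.trans a.2, le_rfl⟩]
  have t1 : ∀ v2 v3, (v2 = l2 ∨ v2 = u2) → (v3 = l3 ∨ v3 = u3) →
      c - M1 * (u1 - l1) ^ 2 / 8 ≤ lin w1 w2 w3 n1 n2 n3 x v2 v3 := fun v2 v3 k2 k3 =>
    lin_chord hx m1 (fun t ht => (H t ht _ (m hy k2) _ (m hz k3)).1)
      (fun t ht => (H t ht _ (m hy k2) _ (m hz k3)).2.1) (hv _ _ _ (.inl rfl) k2 k3)
      (hv _ _ _ (.inr rfl) k2 k3)
  have t2 : ∀ v3, (v3 = l3 ∨ v3 = u3) → c - M1 * (u1 - l1) ^ 2 / 8 - M2 * (u2 - l2) ^ 2 / 8 ≤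
      lin w1 w2 w3 n1 n2 n3 x y v3 := fun v3 k3 => by
    rw [lin_a]
    exact lin_chord hy m2 (fun t ht => by rw [gram_swap]; exact (H x hx t ht _ (m hz k3)).1)
      (fun t ht => (H x hx t ht _ (m hz k3)).2.2.1) (lin_a .. ▸ t1 _ _ (.inl rfl) k3)
      (lin_a .. ▸ t1 _ _ (.inr rfl) k3)
  rw [lin_b]
  exact lin_chord hz m3 (fun t ht => by rw [← gram_rot]; exact (H x hx y hy t ht).1)
    (fun t ht => (H x hx y hy t ht).2.2.2) (lin_b .. ▸ t2 _ (.inl rfl))
    (lin_b .. ▸ t2 _ (.inr rfl))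

variable {hs : ℝ} {V : Type} [Fintype V] [DecidableEq V] (t : Tri hs V)

/-- `lin` on a triangle of the triangulation. -/
theorem Tri.lin_eq (a b c : V) (w1 w2 w3 n1 n2 n3 : ℝ) :
    lin w1 w2 w3 n1 n2 n3 (t.x b c) (t.x c a) (t.x a b) =
      w1 * t.A a b c + w2 * t.A b c a + w3 * t.A c a b +
        n1 * t.x b c + n2 * t.x c a + n3 * t.x a b := by
  unfold lin Tri.A
  rw [t.x_symm a c, t.x_symm b a, t.x_symm c b, ang_comm (t.x c a) (t.x a b),
    ang_comm (t.x b c) (t.x c a)]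

end Pool.Agent.Lib.MP_f3b2fd_co.KEP
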