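import Mathlib
import Pool.Agent.Lib.MP_f3b2fd_co.KEP.B.St

set_option autoImplicit false
set_option linter.unusedSectionVars false
set_option linter.unusedVariables false

namespace Pool.Agent.Lib.MP_f3b2fd_co.KEP

variable {V : Type} [Fintype V] [DecidableEq V]

/-- The combinatorial part of `Tri`: the darts of a triangulation of the sphere. -/
structure IsCx (T : Finset (V × V × V)) : Prop where
  ne : ∀ a b c, (a, b, c) ∈ T → a ≠ b ∧ b ≠ c ∧ c ≠ a
  rot : ∀ a b c, (a, b, c) ∈ T → (b, c, a) ∈ T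
  uniq : ∀ a b c c', (a, b, c) ∈ T → (a, b, c') ∈ T → c = c'
  nbr : ∀ a b c, (a, b, c) ∈ T → ∃ d, d ≠ c ∧ (b, a, d) ∈ T
  card : T.card + 12 = 6 * Fintype.card V
  star : ∀ v, ∀ D : Set (V × V × V), D.Nonempty → (∀ t ∈ D, t ∈ T ∧ t.1 = v) →
    (∀ b c, (v, b, c) ∈ D → ∃ d, (v, c, d) ∈ D) → ∀ b c, (v, b, c) ∈ T → (v, b, c) ∈ D
  conn : ∀ D : Set (V × V × V), D.Nonempty → (∀ t ∈ D, t ∈ T) →
    (∀ a b c, (a, b, c) ∈ D → (b, c, a) ∈ D) → (∀ a b c, (a, b, c) ∈ D → ∃ d, (b, a, d) ∈ D) →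
    ∀ t ∈ T, t ∈ D
  cover : ∀ v, ∃ b c, (v, b, c) ∈ T

theorem Tri.isCx {hs : ℝ} (t : Tri hs V) : IsCx t.T :=
  ⟨t.ne, t.rot, t.uniq, t.nbr, t.card, t.star, t.conn, t.cover⟩

namespace Hodge

variable {T : Finset (V × V × V)}

/-- the third vertex -/
noncomputable def th (T : Finset (V × V × V)) (a b : V) : V :=
  open Classical in if h : ∃ z, (a, b, z) ∈ T then h.choose else a

theorem th_eq (h : IsCx T) {a b z : V} (hz : (a, b, z) ∈ T) : th T a b = z := by
  have e : ∃ z, (a, b, z) ∈ T := ⟨z, hz⟩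
  unfold th
  rw [dif_pos e]
  exact h.uniq _ _ _ _ e.choose_spec hz

/-- the vertex set of a dart -/
def fs (t : V × V × V) : Finset V := {t.1, t.2.1, t.2.2}

theorem fs_rot (a b c : V) : fs (b, c, a) = fs (a, b, c) := by
  ext v; simp only [fs, Finset.mem_insert, Finset.mem_singleton]; tauto

/-- directed edges -/
def de (T : Finset (V × V × V)) : Finset (V × V) := T.image fun t => (t.1, t.2.1)

theorem mem_de {a b : V} : (a, b) ∈ de T ↔ ∃ z, (a, b, z) ∈ T := by
  simp only [de, Finset.mem_image, Prod.mk.injEq]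
  constructor
  · rintro ⟨⟨x, y, z⟩, ht, rfl, rfl⟩; exact ⟨z, ht⟩
  · rintro ⟨z, hz⟩; exact ⟨_, hz, rfl, rfl⟩

theorem de_inj (h : IsCx T) : Set.InjOn (fun t : V × V × V => (t.1, t.2.1)) T := by
  rintro ⟨a, b, c⟩ h1 ⟨a', b', c'⟩ h2 e
  simp only [Prod.mk.injEq] at e
  obtain ⟨rfl, rfl⟩ := e
  rw [h.uniq _ _ _ _ h1 h2]

theorem de_symm (h : IsCx T) {a b : V} (hab : (a, b) ∈ de T) : (b, a) ∈ de T := by
  obtain ⟨z, hz⟩ := mem_de.1 hab
  obtain ⟨d, -, hd⟩ := h.nbr _ _ _ hz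
  exact mem_de.2 ⟨d, hd⟩

theorem th_mem (h : IsCx T) {a b : V} (hab : (a, b) ∈ de T) : (a, b, th T a b) ∈ T := by
  obtain ⟨z, hz⟩ := mem_de.1 hab
  rwa [th_eq h hz]

/-- a numbering of the vertices -/
noncomputable def key (v : V) : ℕ := Fintype.equivFin V v

theorem key_inj {a b : V} (e : key a = key b) : a = b :=
  (Fintype.equivFin V).injective (Fin.ext e)

/-- one direction of every edge -/
noncomputable def hf (T : Finset (V × V × V)) : Finset (V × V) :=
  (de T).filter fun p => key p.1 < key p.2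

theorem sum_de (h : IsCx T) (φ : V → V → ℚ) :
    ∑ p ∈ de T, φ p.1 p.2 = ∑ p ∈ hf T, (φ p.1 p.2 + φ p.2 p.1) := by
  rw [Finset.sum_add_distrib, ← Finset.sum_filter_add_sum_filter_not (de T)
    (fun p => key p.1 < key p.2)]
  congr 1
  refine Finset.sum_nbij' Prod.swap Prod.swap ?_ ?_ (fun _ _ => rfl) (fun _ _ => rfl)
    (fun _ _ => rfl)
  · rintro ⟨a, b⟩ hp
    simp only [Finset.mem_filter, hf, Prod.swap] at hp ⊢
    refine ⟨de_symm h hp.1, ?_⟩
    obtain ⟨z, hz⟩ := mem_de.1 hp.1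
    have : key a ≠ key b := fun e => (h.ne _ _ _ hz).1 (key_inj e)
    omega
  · rintro ⟨a, b⟩ hp
    simp only [Finset.mem_filter, hf, Prod.swap] at hp ⊢
    exact ⟨de_symm h hp.1, by omega⟩

theorem card_hf (h : IsCx T) : 2 * (hf T).card = T.card := by
  have := sum_de h fun _ _ => 1
  simp only [Finset.sum_const, nsmul_eq_mul, mul_one] at this
  rw [de, Finset.card_image_of_injOn (de_inj h)] at this
  have e : ((2 * (hf T).card : ℕ) : ℚ) = T.card := by push_cast; linarith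
  exact_mod_cast e

theorem card_fs (h : IsCx T) : T.card ≤ 3 * (T.image fs).card := by
  refine Finset.card_le_mul_card_image _ _ ?_
  intro f hf'
  obtain ⟨⟨a, b, c⟩, -, rfl⟩ := Finset.mem_image.1 hf'
  refine le_trans (Finset.card_le_card_of_injOn (fun t => t.1) (t := fs (a, b, c)) ?_ ?_)
    Finset.card_le_three
  · intro t ht
    simp only [Finset.coe_filter, Set.mem_ofPred_eq] at ht
    rw [← ht.2]
    simp [fs]
  · rintro ⟨x, y, z⟩ h1 ⟨x', y', z'⟩ h2 e
    simp only [Finset.coe_filter, Set.mem_ofPred_eq] at h1 h2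
    simp only at e
    subst e
    have e : fs (x, y, z) = fs (x, y', z') := h1.2.trans h2.2.symm
    have n1 := h.ne _ _ _ h1.1
    have n2 := h.ne _ _ _ h2.1
    have m : y' ∈ fs (x, y, z) := by rw [e]; simp [fs]
    simp only [fs, Finset.mem_insert, Finset.mem_singleton] at m
    rcases m with m | m | m
    · exact absurd m.symm n2.1
    · subst m; rw [h.uniq _ _ _ _ h1.1 h2.1]
    · subst m
      have m : y ∈ fs (x, y', z') := by rw [← e]; simp [fs]
      simp only [fs, Finset.mem_insert, Finset.mem_singleton] at m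
      rcases m with m | m | m
      · exact absurd m.symm n1.1
      · exact absurd m n1.2.1
      · subst m
        obtain ⟨d, hd, hd'⟩ := h.nbr _ _ _ h1.1
        exact absurd (h.uniq _ _ _ _ hd' (h.rot _ _ _ (h.rot _ _ _ h2.1))) hd

theorem sum_rot (h : IsCx T) (F : V × V × V → ℚ) :
    ∑ t ∈ T, F (t.2.1, t.2.2, t.1) = ∑ t ∈ T, F t :=
  Finset.sum_nbij' (fun t => (t.2.1, t.2.2, t.1)) (fun t => (t.2.2, t.1, t.2.1))
    (fun t ht => h.rot _ _ _ ht) (fun t ht => h.rot _ _ _ (h.rot _ _ _ ht))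
    (fun _ _ => rfl) (fun _ _ => rfl) (fun _ _ => rfl)

/-- a function on faces, extended by zero -/
noncomputable def ext (s : T.image fs → ℚ) (f : Finset V) : ℚ :=
  if h : f ∈ T.image fs then s ⟨f, h⟩ else 0

/-- the gradient of a vertex function -/
def grad (T : Finset (V × V × V)) : (V → ℚ) →ₗ[ℚ] (hf T → ℚ) where
  toFun g p := g p.1.2 - g p.1.1
  map_add' g g' := by ext p; simp only [Pi.add_apply]; ring
  map_smul' r g := by ext p; simp only [Pi.smul_apply, smul_eq_mul, RingHom.id_apply]; ring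

/-- the boundary of a face function -/
noncomputable def bd (T : Finset (V × V × V)) : (T.image fs → ℚ) →ₗ[ℚ] (hf T → ℚ) where
  toFun s p := ext s (fs (p.1.1, p.1.2, th T p.1.1 p.1.2)) -
    ext s (fs (p.1.2, p.1.1, th T p.1.2 p.1.1))
  map_add' s s' := by
    ext p; simp only [Pi.add_apply, ext]; split_ifs <;> ring
  map_smul' r s := by
    ext p; simp only [Pi.smul_apply, smul_eq_mul, RingHom.id_apply, ext]; split_ifs <;> ring

theorem all_of_hf (h : IsCx T) (φ : V → V → ℚ) (anti : ∀ a b, φ b a = -φ a b)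
    (z : ∀ p ∈ hf T, φ p.1 p.2 = 0) {a b : V} (hab : (a, b) ∈ de T) : φ a b = 0 := by
  obtain ⟨c, hc⟩ := mem_de.1 hab
  have : key a ≠ key b := fun e => (h.ne _ _ _ hc).1 (key_inj e)
  rcases lt_or_gt_of_ne this with l | l
  · exact z (a, b) (Finset.mem_filter.2 ⟨hab, l⟩)
  · have := z (b, a) (Finset.mem_filter.2 ⟨de_symm h hab, l⟩)
    simp only at this
    rw [anti] at this
    linarith

theorem rank_ge {ι W : Type} [Fintype ι] [AddCommGroup W] [Module ℚ W] (f : (ι → ℚ) →ₗ[ℚ] W)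
    (k : ∀ g, f g = 0 → ∀ i j, g i = g j) :
    Fintype.card ι ≤ Module.finrank ℚ (LinearMap.range f) + 1 := by
  have e := f.finrank_range_add_finrank_ker
  rw [Module.finrank_fintype_fun_eq_card] at e
  have : Module.finrank ℚ (LinearMap.ker f) ≤ 1 := by
    refine le_trans (Submodule.finrank_mono (t := ℚ ∙ fun _ => (1 : ℚ)) ?_)
      (finrank_span_le_card _ |>.trans (by simp))
    intro g hg
    rcases isEmpty_or_nonempty ι with hι | ⟨⟨i⟩⟩
    · rw [Subsingleton.elim g 0]; exact Submodule.zero_mem _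
    · exact Submodule.mem_span_singleton.2 ⟨g i, by ext j; simp [k g hg i j]⟩
  omega

theorem grad_ker (h : IsCx T) (g : V → ℚ) (hg : grad T g = 0) (i j : V) : g i = g j := by
  have e : ∀ a b, (a, b) ∈ de T → g b - g a = 0 := fun a b hab =>
    all_of_hf h (fun a b => g b - g a) (fun a b => by ring)
      (fun p hp => congrFun hg ⟨p, hp⟩) hab
  obtain ⟨b, c, hi⟩ := h.cover i
  obtain ⟨b', c', hj⟩ := h.cover j
  refine (h.conn {t | t ∈ T ∧ g i = g t.1} ⟨_, hi, rfl⟩ (fun _ ht => ht.1) ?_ ?_ _ hj).2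
  · intro a b c ⟨h1, h2⟩
    have := e a b (mem_de.2 ⟨c, h1⟩)
    exact ⟨h.rot _ _ _ h1, by simp only at h2 ⊢; linarith⟩
  · intro a b c ⟨h1, h2⟩
    have := e a b (mem_de.2 ⟨c, h1⟩)
    obtain ⟨d, -, hd⟩ := h.nbr _ _ _ h1
    exact ⟨d, hd, by simp only at h2 ⊢; linarith⟩

theorem bd_ker (h : IsCx T) (s : T.image fs → ℚ) (hs : bd T s = 0) (i j : T.image fs) :
    s i = s j := by
  have e : ∀ a b, (a, b) ∈ de T →
      ext s (fs (a, b, th T a b)) - ext s (fs (b, a, th T b a)) = 0 := fun a b hab =>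
    all_of_hf h (fun a b => ext s (fs (a, b, th T a b)) - ext s (fs (b, a, th T b a)))
      (fun a b => by ring) (fun p hp => congrFun hs ⟨p, hp⟩) hab
  obtain ⟨i, hi⟩ := i
  obtain ⟨j, hj⟩ := j
  obtain ⟨ti, hti, rfl⟩ := Finset.mem_image.1 hi
  obtain ⟨tj, htj, rfl⟩ := Finset.mem_image.1 hj
  have := (h.conn {t | t ∈ T ∧ ext s (fs ti) = ext s (fs t)} ⟨_, hti, rfl⟩ (fun _ ht => ht.1)
    ?_ ?_ _ htj).2
  · simpa only [ext, dif_pos hi, dif_pos hj] using this
  · intro a b c ⟨h1, h2⟩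
    exact ⟨h.rot _ _ _ h1, by rw [fs_rot a b c]; exact h2⟩
  · intro a b c ⟨h1, h2⟩
    have := e a b (mem_de.2 ⟨c, h1⟩)
    obtain ⟨d, -, hd⟩ := h.nbr _ _ _ h1
    rw [th_eq h h1, th_eq h hd] at this
    exact ⟨d, hd, by linarith⟩

theorem orth (h : IsCx T) (g : V → ℚ) (s : T.image fs → ℚ) : grad T g ⬝ᵥ bd T s = 0 := by
  have e1 := sum_de h fun a b => (g b - g a) * ext s (fs (a, b, th T a b))
  have e2 : grad T g ⬝ᵥ bd T s = ∑ p ∈ hf T,
      ((g p.2 - g p.1) * ext s (fs (p.1, p.2, th T p.1 p.2)) +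
        (g p.1 - g p.2) * ext s (fs (p.2, p.1, th T p.2 p.1))) := by
    rw [← Finset.sum_coe_sort (hf T), dotProduct]
    refine Finset.sum_congr rfl fun p _ => ?_
    simp only [grad, bd, LinearMap.coe_mk, AddHom.coe_mk]
    ring
  rw [e2, ← e1, de, Finset.sum_image (de_inj h)]
  have e3 : ∀ t ∈ T, (g t.2.1 - g t.1) * ext s (fs (t.1, t.2.1, th T t.1 t.2.1)) =
      g t.2.1 * ext s (fs (t.2.1, t.2.2, t.1)) - g t.1 * ext s (fs t) := by
    rintro ⟨a, b, c⟩ ht
    simp only [th_eq h ht, fs_rot a b c]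
    ring
  rw [Finset.sum_congr rfl e3, Finset.sum_sub_distrib,
    sum_rot h fun t => g t.1 * ext s (fs t), sub_self]

theorem top (h : IsCx T) : LinearMap.range (grad T) ⊔ LinearMap.range (bd T) = ⊤ := by
  have i : LinearMap.range (grad T) ⊓ LinearMap.range (bd T) = ⊥ := by
    rw [eq_bot_iff]
    rintro x ⟨⟨g, rfl⟩, ⟨s, hs⟩⟩
    have := orth h g s
    rw [hs] at this
    exact dotProduct_self_eq_zero.1 this
  have e := Submodule.finrank_sup_add_finrank_inf_eq (LinearMap.range (grad T))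
    (LinearMap.range (bd T))
  rw [i, finrank_bot] at e
  have r1 := rank_ge (grad T) (grad_ker h)
  have r2 := rank_ge (bd T) (bd_ker h)
  rw [Fintype.card_coe] at r2
  have c1 := card_hf h
  have c2 := card_fs h
  have c3 := h.card
  refine Submodule.eq_top_of_finrank_eq (le_antisymm (Submodule.finrank_le _) ?_)
  rw [Module.finrank_fintype_fun_eq_card, Fintype.card_coe]
  omega

end Hodge

open Hodge in
/-- Every cycle on the sphere is a boundary. -/
theorem IsCx.pot {T : Finset (V × V × V)} (h : IsCx T) (c : V → V → ℚ)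
    (anti : ∀ a b, c b a = -c a b) (supp : ∀ a b, c a b ≠ 0 → ∃ z, (a, b, z) ∈ T)
    (div : ∀ a, ∑ b, c a b = 0) :
    ∃ s : V → V → ℚ, (∀ a b z, (a, b, z) ∈ T → s a b = s b z) ∧
      ∀ a b z, (a, b, z) ∈ T → c a b = s a b - s b a := by
  have m : (fun p : hf T => c p.1.1 p.1.2) ∈
      LinearMap.range (grad T) ⊔ LinearMap.range (bd T) := by rw [top h]; trivial
  obtain ⟨_, ⟨g, rfl⟩, _, ⟨s, rfl⟩, e⟩ := Submodule.mem_sup.1 m
  have o : grad T g ⬝ᵥ (fun p : hf T => c p.1.1 p.1.2) = 0 := by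
    have e1 := sum_de h fun a b => g b * c a b
    have e2 : grad T g ⬝ᵥ (fun p : hf T => c p.1.1 p.1.2) =
        ∑ p ∈ hf T, (g p.2 * c p.1 p.2 + g p.1 * c p.2 p.1) := by
      rw [← Finset.sum_coe_sort (hf T), dotProduct]
      refine Finset.sum_congr rfl fun p _ => ?_
      simp only [grad, LinearMap.coe_mk, AddHom.coe_mk]
      rw [anti p.1.1 p.1.2]
      ring
    rw [e2, ← e1, Finset.sum_subset (Finset.subset_univ _), Fintype.sum_prod_type_right]
    · refine Finset.sum_eq_zero fun b _ => ?_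
      simp only [← Finset.mul_sum]
      have : ∑ a, c a b = -∑ a, c b a := by
        rw [← Finset.sum_neg_distrib]
        exact Finset.sum_congr rfl fun a _ => anti b a
      rw [this, div]
      simp
    · rintro ⟨a, b⟩ - hp
      by_contra hc
      exact hp (mem_de.2 (supp a b fun z => hc (by simp only [z, mul_zero])))
  rw [← e, dotProduct_add, orth h, add_zero] at o
  rw [dotProduct_self_eq_zero.1 o, zero_add] at e
  refine ⟨fun a b => ext s (fs (a, b, th T a b)), fun a b z hz => ?_, fun a b z hz => ?_⟩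
  · simp only [th_eq h hz, th_eq h (h.rot _ _ _ hz), fs_rot a b z]
  · have := all_of_hf h (fun a b => c a b -
      (ext s (fs (a, b, th T a b)) - ext s (fs (b, a, th T b a))))
      (fun a b => by rw [anti a b]; ring)
      (fun p hp => sub_eq_zero.2 (congrFun e ⟨p, hp⟩).symm) (mem_de.2 ⟨z, hz⟩)
    exact sub_eq_zero.1 this

end Pool.Agent.Lib.MP_f3b2fd_co.KEP
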