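import Mathlib
import Pool.Agent.Lib.MP_f3b2fd_co.KEP.B.Hodge

set_option autoImplicit false
set_option linter.unusedSectionVars false
set_option linter.unusedVariables false

namespace Pool.Agent.Lib.MP_f3b2fd_co.KEP.En

/-- a labelled triangle or dart -/
abbrev Tr := ℕ × ℕ × ℕ

/-- the three darts of every triangle of the list -/
def darts : List Tr → List Tr
  | [] => []
  | t :: L => t :: (t.2.1, t.2.2, t.1) :: (t.2.2, t.1, t.2.1) :: darts L

/-- the directed edge `a b` is known -/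
def Kn (L : List Tr) (a b : ℕ) : Prop := ∃ c, (a, b, c) ∈ darts L

theorem darts_rot {L : List Tr} {a b c : ℕ} (h : (a, b, c) ∈ darts L) : (b, c, a) ∈ darts L := by
  induction L with
  | nil => simp [darts] at h
  | cons t L ih =>
    obtain ⟨x, y, z⟩ := t
    simp only [darts, List.mem_cons, Prod.mk.injEq] at h ⊢
    rcases h with h | h | h | h
    · tauto
    · tauto
    · tauto
    · exact Or.inr (Or.inr (Or.inr (ih h)))

theorem mem_darts {L : List Tr} {t : Tr} (h : t ∈ L) : t ∈ darts L := by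
  induction L with
  | nil => simp at h
  | cons s L ih =>
    simp only [darts, List.mem_cons] at h ⊢
    rcases h with h | h
    · exact Or.inl h
    · exact Or.inr (Or.inr (Or.inr (ih h)))

theorem darts_ind {L : List Tr} (P : ℕ → ℕ → ℕ → Prop) (r : ∀ a b c, P a b c → P b c a)
    (h : ∀ t ∈ L, P t.1 t.2.1 t.2.2) {a b c : ℕ} (m : (a, b, c) ∈ darts L) : P a b c := by
  induction L with
  | nil => simp [darts] at m
  | cons t L ih =>
    obtain ⟨x, y, z⟩ := t
    have h0 : P x y z := h _ List.mem_cons_self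
    simp only [darts, List.mem_cons, Prod.mk.injEq] at m
    rcases m with ⟨rfl, rfl, rfl⟩ | ⟨rfl, rfl, rfl⟩ | ⟨rfl, rfl, rfl⟩ | m
    · exact h0
    · exact r _ _ _ h0
    · exact r _ _ _ (r _ _ _ h0)
    · exact ih (fun t ht => h t (List.mem_cons_of_mem _ ht)) m

theorem length_darts (L : List Tr) : (darts L).length = 3 * L.length := by
  induction L with
  | nil => rfl
  | cons t L ih => simp only [darts, List.length_cons, ih]; ring

theorem sum_darts (L : List Tr) (F : Tr → ℝ) : ((darts L).map F).sum =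
    (L.map fun t => F t + F (t.2.1, t.2.2, t.1) + F (t.2.2, t.1, t.2.1)).sum := by
  induction L with
  | nil => rfl
  | cons t L ih => simp only [darts, List.map_cons, List.sum_cons, ih]; ring

theorem kn_cons {L : List Tr} {p q r a b : ℕ} : Kn ((p, q, r) :: L) a b ↔
    (a = p ∧ b = q) ∨ (a = q ∧ b = r) ∨ (a = r ∧ b = p) ∨ Kn L a b := by
  simp only [Kn, darts, List.mem_cons, Prod.mk.injEq, exists_or, exists_and_left, exists_eq,
    and_true]

/-- A well formed partial complex on the labels below `n`. -/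
structure Ok (n : ℕ) (L : List Tr) : Prop where
  lt : ∀ a b c, (a, b, c) ∈ darts L → a < n
  occ : ∀ i < n, ∃ b c, (i, b, c) ∈ darts L
  nodup : (darts L).Nodup
  con : ∀ s : ℕ → ℕ → ℚ, (∀ a b c, (a, b, c) ∈ darts L → s a b = s b c) →
    (∀ a b, Kn L a b → Kn L b a → s a b = s b a) →
    ∀ a b a' b', Kn L a b → Kn L a' b' → s a b = s a' b'

theorem Ok.lt1 {n : ℕ} {L : List Tr} (o : Ok n L) {a b : ℕ} (h : Kn L a b) : a < n :=
  o.lt _ _ _ h.choose_spec

theorem Ok.lt2 {n : ℕ} {L : List Tr} (o : Ok n L) {a b : ℕ} (h : Kn L a b) : b < n :=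
  o.lt _ _ _ (darts_rot h.choose_spec)

theorem ok_one : Ok 3 [(0, 1, 2)] where
  lt a b c h := by simp only [darts, List.mem_cons, Prod.mk.injEq] at h; simp at h; omega
  occ i hi := by
    interval_cases i
    · exact ⟨1, 2, by simp [darts]⟩
    · exact ⟨2, 0, by simp [darts]⟩
    · exact ⟨0, 1, by simp [darts]⟩
  nodup := by decide
  con s r _ a b a' b' h h' := by
    have e1 := r 0 1 2 (by simp [darts])
    have e2 := r 1 2 0 (by simp [darts])
    have k : ∀ a b, Kn [(0, 1, 2)] a b → s a b = s 0 1 := by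
      intro a b h
      rcases kn_cons.1 h with ⟨rfl, rfl⟩ | ⟨rfl, rfl⟩ | ⟨rfl, rfl⟩ | ⟨c, h⟩
      · rfl
      · exact e1.symm
      · exact (e1.trans e2).symm
      · simp [darts] at h
    rw [k _ _ h, k _ _ h']

theorem Ok.step {n n' : ℕ} {L : List Tr} (o : Ok n L) {a b d : ℕ} (h1 : Kn L a b)
    (h2 : ¬Kn L b a) (h3 : ¬Kn L a d) (h4 : ¬Kn L d b) (hn : n ≤ n') (hd : d < n')
    (hi : ∀ i < n', i < n ∨ i = d) : Ok n' ((b, a, d) :: L) where
  lt x y z h := by
    have := o.lt1 h1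
    have := o.lt2 h1
    simp only [darts, List.mem_cons, Prod.mk.injEq] at h
    rcases h with h | h | h | h
    · omega
    · omega
    · omega
    · exact (o.lt _ _ _ h).trans_le hn
  occ i h := by
    rcases hi i h with h | rfl
    · obtain ⟨y, z, m⟩ := o.occ i h
      exact ⟨y, z, by simp [darts, m]⟩
    · exact ⟨b, a, by simp [darts]⟩
  nodup := by
    have ab : a ≠ b := by rintro rfl; exact h2 h1
    have m2 : (b, a, d) ∉ darts L := fun m => h2 ⟨_, m⟩
    have m3 : (a, d, b) ∉ darts L := fun m => h3 ⟨_, m⟩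
    have m4 : (d, b, a) ∉ darts L := fun m => h4 ⟨_, m⟩
    simp only [darts, List.nodup_cons, List.mem_cons, Prod.mk.injEq, m2, m3, m4, o.nodup,
      or_false, not_false_eq_true, and_true]
    omega
  con s r e x y x' y' h h' := by
    have e1 := r b a d (by simp [darts])
    have e2 := r a d b (by simp [darts])
    have up : ∀ {u v}, Kn L u v → Kn ((b, a, d) :: L) u v := fun h =>
      kn_cons.2 (Or.inr (Or.inr (Or.inr h)))
    have e3 := e a b (up h1) (kn_cons.2 (Or.inl ⟨rfl, rfl⟩))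
    have k : ∀ u v, Kn ((b, a, d) :: L) u v → s u v = s a b := by
      intro u v h
      rcases kn_cons.1 h with ⟨rfl, rfl⟩ | ⟨rfl, rfl⟩ | ⟨rfl, rfl⟩ | h
      · exact e3.symm
      · exact (e3.trans e1).symm
      · exact ((e3.trans e1).trans e2).symm
      · exact o.con s (fun _ _ _ m => r _ _ _ (by simp [darts, m]))
          (fun _ _ m m' => e _ _ (up m) (up m')) _ _ _ _ h h1
    rw [k _ _ h, k _ _ h']

variable {V : Type} [Fintype V] [DecidableEq V] {T : Finset (V × V × V)} {n : ℕ} {L : List Tr}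
  {ι : ℕ → V}

/-- The labelled complex sits inside `T`. -/
structure Emb (T : Finset (V × V × V)) (n : ℕ) (L : List Tr) (ι : ℕ → V) : Prop where
  inj : ∀ i < n, ∀ j < n, ι i = ι j → i = j
  mem : ∀ a b c, (a, b, c) ∈ darts L → (ι a, ι b, ι c) ∈ T

/-- the image of a labelled dart -/
def m3 (ι : ℕ → V) (t : Tr) : V × V × V := (ι t.1, ι t.2.1, ι t.2.2)

/-- the known darts -/
def img (ι : ℕ → V) (L : List Tr) : Finset (V × V × V) := ((darts L).map (m3 ι)).toFinset

/-- the number of darts at a vertex -/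
def deg (T : Finset (V × V × V)) (v : V) : ℕ := (T.filter fun t => t.1 = v).card

theorem mem_img {t : V × V × V} :
    t ∈ img ι L ↔ ∃ a b c, (a, b, c) ∈ darts L ∧ (ι a, ι b, ι c) = t := by
  simp only [img, List.mem_toFinset, List.mem_map, m3, Prod.exists]

theorem Emb.sub (e : Emb T n L ι) : img ι L ⊆ T := fun t ht => by
  obtain ⟨a, b, c, m, rfl⟩ := mem_img.1 ht
  exact e.mem _ _ _ m

theorem Emb.le_card (e : Emb T n L ι) : n ≤ Fintype.card V := by
  simpa using Fintype.card_le_of_injective (fun i : Fin n => ι i)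
    fun i j h => Fin.ext (e.inj _ i.2 _ j.2 h)

theorem Emb.nodup (e : Emb T n L ι) (o : Ok n L) : ((darts L).map (m3 ι)).Nodup := by
  refine o.nodup.map_on ?_
  rintro ⟨a, b, c⟩ m ⟨a', b', c'⟩ m' h
  simp only [m3, Prod.mk.injEq] at h ⊢
  exact ⟨e.inj _ (o.lt _ _ _ m) _ (o.lt _ _ _ m') h.1,
    e.inj _ (o.lt _ _ _ (darts_rot m)) _ (o.lt _ _ _ (darts_rot m')) h.2.1,
    e.inj _ (o.lt _ _ _ (darts_rot (darts_rot m))) _ (o.lt _ _ _ (darts_rot (darts_rot m'))) h.2.2⟩

theorem Emb.card_img (e : Emb T n L ι) (o : Ok n L) : (img ι L).card = 3 * L.length := by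
  rw [img, List.toFinset_card_of_nodup (e.nodup o), List.length_map, length_darts]

theorem Emb.sum_img (e : Emb T n L ι) (o : Ok n L) (φ : V × V × V → ℝ) :
    ∑ t ∈ img ι L, φ t = ((darts L).map fun t => φ (m3 ι t)).sum := by
  rw [img, List.sum_toFinset _ (e.nodup o), List.map_map]
  rfl

/-- the number of unknown darts -/
theorem Emb.card_rest (e : Emb T n L ι) (h : IsCx T) (o : Ok n L) :
    (T \ img ι L).card + 3 * L.length + 12 = 6 * Fintype.card V := by
  rw [← e.card_img o, Finset.card_sdiff_add_card_eq_card e.sub, h.card]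

/-- a sum over all darts splits into the known and the unknown part -/
theorem Emb.sum_all (e : Emb T n L ι) (o : Ok n L) (φ : V × V × V → ℝ) :
    ∑ t ∈ T, φ t = ((darts L).map fun t => φ (m3 ι t)).sum + ∑ t ∈ T \ img ι L, φ t := by
  rw [← e.sum_img o, add_comm, Finset.sum_sdiff e.sub]

theorem Emb.sum_le (e : Emb T n L ι) (o : Ok n L) (φ : V × V × V → ℝ) (p : ∀ t ∈ T, 0 ≤ φ t) :
    ((darts L).map fun t => φ (m3 ι t)).sum ≤ ∑ t ∈ T, φ t := by
  rw [e.sum_all o]
  exact le_add_of_nonneg_right (Finset.sum_nonneg fun t ht => p t (Finset.mem_sdiff.1 ht).1)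

/-- a sum over the star of a labelled vertex splits into the known and the unknown part -/
theorem Emb.sum_star (e : Emb T n L ι) (o : Ok n L) {v : ℕ} (hv : v < n) (φ : V × V × V → ℝ) :
    ∑ t ∈ T.filter fun t => t.1 = ι v, φ t =
      ((darts L).map fun t => if t.1 = v then φ (m3 ι t) else 0).sum +
        ∑ t ∈ (T \ img ι L).filter fun t => t.1 = ι v, φ t := by
  rw [Finset.sum_filter, Finset.sum_filter, e.sum_all o]
  congr 2
  refine List.map_congr_left ?_
  rintro ⟨a, b, c⟩ m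
  have : (m3 ι (a, b, c)).1 = ι v ↔ a = v :=
    ⟨fun h => e.inj _ (o.lt _ _ _ m) _ hv h, fun h => by rw [← h]; rfl⟩
  simp only [this]

/-- A closed star is the whole star. -/
theorem Emb.closed (e : Emb T n L ι) (h : IsCx T) (o : Ok n L) {v : ℕ} (hv : v < n)
    (cl : ∀ c, Kn L c v → Kn L v c) :
    ((T \ img ι L).filter fun t => t.1 = ι v) = ∅ := by
  rw [Finset.filter_eq_empty_iff]
  rintro ⟨x, y, z⟩ ht hx
  simp only at hx
  subst hx
  obtain ⟨ht, hn⟩ := Finset.mem_sdiff.1 ht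
  obtain ⟨b, c, m⟩ := o.occ v hv
  have := h.star (ι v) {t | ∃ b c, (v, b, c) ∈ darts L ∧ (ι v, ι b, ι c) = t} ⟨_, b, c, m, rfl⟩
    ?_ ?_ _ _ ht
  · obtain ⟨b, c, m, q⟩ := this
    exact hn (mem_img.2 ⟨_, _, _, m, q⟩)
  · rintro _ ⟨b, c, m, rfl⟩
    exact ⟨e.mem _ _ _ m, rfl⟩
  · rintro _ _ ⟨b, c, m, q⟩
    simp only [Prod.mk.injEq, true_and] at q
    obtain ⟨d, m'⟩ := cl c ⟨_, darts_rot (darts_rot m)⟩
    exact ⟨ι d, c, d, m', by rw [q.2]⟩

/-- If every known edge is known in both directions, everything is known. -/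
theorem Emb.complete (e : Emb T n L ι) (h : IsCx T) (o : Ok n L) (hn : 0 < n)
    (cl : ∀ a b, Kn L a b → Kn L b a) : T = img ι L ∧ n = Fintype.card V := by
  obtain ⟨b, c, m⟩ := o.occ 0 hn
  have all := h.conn (img ι L) ⟨_, mem_img.2 ⟨_, _, _, m, rfl⟩⟩ (fun t ht => e.sub ht) ?_ ?_
  · refine ⟨Finset.Subset.antisymm (fun t ht => all t ht) e.sub, le_antisymm e.le_card ?_⟩
    have : Function.Surjective fun i : Fin n => ι i := by
      intro v
      obtain ⟨y, z, hv⟩ := h.cover v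
      obtain ⟨a, b, c, m, q⟩ := mem_img.1 (all _ hv)
      exact ⟨⟨a, o.lt _ _ _ m⟩, (Prod.ext_iff.1 q).1⟩
    simpa using Fintype.card_le_of_surjective _ this
  · intro x y z ht
    obtain ⟨a, b, c, m, q⟩ := mem_img.1 ht
    simp only [Prod.mk.injEq] at q
    obtain ⟨rfl, rfl, rfl⟩ := q
    exact mem_img.2 ⟨_, _, _, darts_rot m, rfl⟩
  · intro x y z ht
    obtain ⟨a, b, c, m, q⟩ := mem_img.1 ht
    simp only [Prod.mk.injEq] at q
    obtain ⟨rfl, rfl, rfl⟩ := q
    obtain ⟨d, m'⟩ := cl a b ⟨_, m⟩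
    exact ⟨ι d, mem_img.2 ⟨_, _, _, m', rfl⟩⟩

/-- Known neighbours are at most the degree. -/
theorem Emb.nb_le (e : Emb T n L ι) (h : IsCx T) (o : Ok n L) (v : ℕ) (S : Finset ℕ)
    (hS : ∀ b ∈ S, Kn L v b ∨ Kn L b v) : S.card ≤ deg T (ι v) := by
  have k : ∀ b ∈ S, b < n ∧ ∃ z, (ι v, ι b, z) ∈ T := by
    intro b hb
    rcases hS b hb with k | k
    · exact ⟨o.lt2 k, _, e.mem _ _ _ k.choose_spec⟩
    · obtain ⟨d, -, hd⟩ := h.nbr _ _ _ (e.mem _ _ _ k.choose_spec)
      exact ⟨o.lt1 k, d, hd⟩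
  refine Finset.card_le_card_of_injOn (fun b => (ι v, ι b, Hodge.th T (ι v) (ι b))) ?_ ?_
  · intro b hb
    obtain ⟨-, z, hz⟩ := k b hb
    simp only [Finset.coe_filter, Set.mem_ofPred_eq, and_true, Hodge.th_eq h hz, hz]
  · intro b hb b' hb' q
    simp only [Prod.mk.injEq] at q
    exact e.inj _ (k b hb).1 _ (k b' hb').1 q.2.1

/-- At a closed vertex the degree is at most the number of known neighbours. -/
theorem Emb.deg_le (e : Emb T n L ι) (h : IsCx T) (o : Ok n L) {v : ℕ} (hv : v < n)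
    (cl : ∀ c, Kn L c v → Kn L v c) (S : Finset ℕ) (hS : ∀ b, Kn L v b → b ∈ S) :
    deg T (ι v) ≤ S.card := by
  have c := e.closed h o hv cl
  rw [Finset.filter_eq_empty_iff] at c
  refine le_trans (Finset.card_le_card (t := S.image fun b =>
    (ι v, ι b, Hodge.th T (ι v) (ι b))) ?_) Finset.card_image_le
  rintro ⟨x, y, z⟩ ht0
  obtain ⟨ht, hx⟩ := Finset.mem_filter.1 ht0
  have m0 : (x, y, z) ∈ img ι L := by
    by_contra hn
    exact c (Finset.mem_sdiff.2 ⟨ht, hn⟩) hx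
  obtain ⟨a, b, c', m, q⟩ := mem_img.1 m0
  simp only [Prod.mk.injEq] at q hx
  obtain ⟨rfl, rfl, rfl⟩ := q
  obtain rfl := e.inj _ (o.lt _ _ _ m) _ hv hx
  exact Finset.mem_image.2 ⟨b, hS b ⟨_, m⟩, by rw [Hodge.th_eq h ht]⟩

/-- Relabelling: a stored list that maps into the known darts. -/
theorem Emb.goto (e : Emb T n L ι) (h : IsCx T) {n' : ℕ} {L' : List Tr} (σ : ℕ → ℕ)
    (lt : ∀ i < n', σ i < n) (inj : ∀ i < n', ∀ j < n', σ i = σ j → i = j)
    (m : ∀ t ∈ L', (σ t.1, σ t.2.1, σ t.2.2) ∈ darts L) : Emb T n' L' fun i => ι (σ i) where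
  inj i hi j hj q := inj i hi j hj (e.inj _ (lt i hi) _ (lt j hj) q)
  mem a b c k := darts_ind (fun a b c => (ι (σ a), ι (σ b), ι (σ c)) ∈ T)
    (fun _ _ _ => h.rot _ _ _) (fun t ht => e.mem _ _ _ (m t ht)) k

theorem start (h : IsCx T) (v : V) : ∃ ι : ℕ → V, ι 0 = v ∧ Emb T 3 [(0, 1, 2)] ι := by
  obtain ⟨b, c, m⟩ := h.cover v
  obtain ⟨n1, n2, n3⟩ := h.ne _ _ _ m
  refine ⟨fun i => if i = 0 then v else if i = 1 then b else c, rfl, ?_, ?_⟩
  · intro i hi j hj
    interval_cases i <;> interval_cases j <;> simp [n1, n2, n3, n1.symm, n2.symm, n3.symm]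
  · intro x y z k
    refine darts_ind (fun x y z => ((if x = 0 then v else if x = 1 then b else c),
      (if y = 0 then v else if y = 1 then b else c),
      (if z = 0 then v else if z = 1 then b else c)) ∈ T) (fun _ _ _ => h.rot _ _ _) ?_ k
    simpa using m

/-- the chain of a closed walk -/
def chain (ι : ℕ → V) (P : List (ℕ × ℕ)) (u v : V) : ℚ :=
  (P.map fun p => (if ι p.1 = u ∧ ι p.2 = v then (1 : ℚ) else 0) -
    if ι p.1 = v ∧ ι p.2 = u then 1 else 0).sum

theorem chain_anti (P : List (ℕ × ℕ)) (u v : V) : chain ι P v u = -chain ι P u v := by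
  induction P with
  | nil => simp [chain]
  | cons p P ih => simp only [chain, List.map_cons, List.sum_cons] at ih ⊢; rw [ih]; ring

theorem chain_zero {P : List (ℕ × ℕ)} {u v : V}
    (h : ∀ p ∈ P, ¬(ι p.1 = u ∧ ι p.2 = v) ∧ ¬(ι p.1 = v ∧ ι p.2 = u)) : chain ι P u v = 0 := by
  refine List.sum_eq_zero fun x hx => ?_
  obtain ⟨p, hp, rfl⟩ := List.mem_map.1 hx
  rw [if_neg (h p hp).1, if_neg (h p hp).2, sub_self]

theorem chain_div (P : List (ℕ × ℕ)) (u : V) : ∑ v, chain ι P u v =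
    ((P.map Prod.fst).map fun i => if ι i = u then (1 : ℚ) else 0).sum -
      ((P.map Prod.snd).map fun i => if ι i = u then (1 : ℚ) else 0).sum := by
  induction P with
  | nil => simp [chain]
  | cons p P ih =>
    simp only [chain, List.map_cons, List.sum_cons, Finset.sum_add_distrib,
      Finset.sum_sub_distrib] at ih ⊢
    rw [ih]
    have e1 : ∑ v, (if ι p.1 = u ∧ ι p.2 = v then (1 : ℚ) else 0) = if ι p.1 = u then 1 else 0 := by
      by_cases q : ι p.1 = u <;> simp [q]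
    have e2 : ∑ v, (if ι p.1 = v ∧ ι p.2 = u then (1 : ℚ) else 0) = if ι p.2 = u then 1 else 0 := by
      by_cases q : ι p.2 = u <;> simp [q]
    rw [e1, e2]
    ring

theorem chain_pos {P : List (ℕ × ℕ)} {a b : ℕ} (m : (a, b) ∈ P)
    (h : ∀ p ∈ P, ¬(ι p.1 = ι b ∧ ι p.2 = ι a)) : 0 < chain ι P (ι a) (ι b) := by
  have nn : ∀ x ∈ (P.map fun p => (if ι p.1 = ι a ∧ ι p.2 = ι b then (1 : ℚ) else 0) -
      if ι p.1 = ι b ∧ ι p.2 = ι a then 1 else 0), 0 ≤ x := by
    intro x hx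
    obtain ⟨p, hp, rfl⟩ := List.mem_map.1 hx
    rw [if_neg (h p hp)]
    split_ifs <;> norm_num
  refine lt_of_lt_of_le ?_ (List.single_le_sum nn _ (List.mem_map.2 ⟨_, m, rfl⟩))
  rw [if_neg (h _ m), if_pos ⟨rfl, rfl⟩]
  norm_num

/-- The triangle across an open edge of a closed walk of open edges: its third vertex is new,
or it lies on the walk and is joined to the ends by no known edge off the walk. -/
theorem Emb.grow (e : Emb T n L ι) (h : IsCx T) (o : Ok n L) (P : List (ℕ × ℕ))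
    (cyc : (P.map Prod.fst).Perm (P.map Prod.snd))
    (op : ∀ p ∈ P, Kn L p.1 p.2 ∧ ¬Kn L p.2 p.1) {a b : ℕ} (m : (a, b) ∈ P) :
    (n < Fintype.card V ∧ ∃ ι' : ℕ → V, (∀ i < n, ι' i = ι i) ∧
      Emb T (n + 1) ((b, a, n) :: L) ι') ∨
    ∃ d, d ∈ P.map Prod.fst ∧ d ≠ a ∧ d ≠ b ∧ ¬Kn L a d ∧ ¬Kn L d b ∧ (Kn L d a → (d, a) ∈ P) ∧
      (Kn L b d → (b, d) ∈ P) ∧ (a, b, d) ∉ darts L ∧ Emb T n ((b, a, d) :: L) ι := by
  obtain ⟨kab, nba⟩ := op _ m
  simp only at kab nba
  have ha := o.lt1 kab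
  have hb := o.lt2 kab
  obtain ⟨c, hc⟩ := kab
  obtain ⟨z, zc, hz⟩ := h.nbr _ _ _ (e.mem _ _ _ hc)
  obtain ⟨n1, n2, n3⟩ := h.ne _ _ _ hz
  by_cases old : ∃ d < n, ι d = z
  swap
  · left
    have e' : Emb T (n + 1) ((b, a, n) :: L) (Function.update ι n z) := by
      have up : ∀ i < n, Function.update ι n z i = ι i := fun i hi =>
        Function.update_of_ne hi.ne _ _
      constructor
      · intro i hi j hj q
        rcases Nat.lt_succ_iff_lt_or_eq.1 hi with hi | rfl <;>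
          rcases Nat.lt_succ_iff_lt_or_eq.1 hj with hj | rfl
        · rw [up i hi, up j hj] at q; exact e.inj _ hi _ hj q
        · rw [up i hi, Function.update_self] at q; exact absurd ⟨i, hi, q⟩ old
        · rw [up j hj, Function.update_self] at q; exact absurd ⟨j, hj, q.symm⟩ old
        · rfl
      · intro x y w k
        simp only [darts, List.mem_cons, Prod.mk.injEq] at k
        rcases k with ⟨rfl, rfl, rfl⟩ | ⟨rfl, rfl, rfl⟩ | ⟨rfl, rfl, rfl⟩ | k
        · rwa [up _ ha, up _ hb, Function.update_self]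
        · rw [up _ ha, up _ hb, Function.update_self]; exact h.rot _ _ _ hz
        · rw [up _ ha, up _ hb, Function.update_self]; exact h.rot _ _ _ (h.rot _ _ _ hz)
        · rw [up _ (o.lt _ _ _ k), up _ (o.lt _ _ _ (darts_rot k)),
            up _ (o.lt _ _ _ (darts_rot (darts_rot k)))]
          exact e.mem _ _ _ k
    exact ⟨e'.le_card, _, fun i hi => Function.update_of_ne hi.ne _ _, e'⟩
  right
  obtain ⟨d, hd, rfl⟩ := old
  have pl : ∀ p ∈ P, p.1 < n ∧ p.2 < n := fun p hp => ⟨o.lt1 (op p hp).1, o.lt2 (op p hp).1⟩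
  have pm : ∀ p ∈ P, ∀ u < n, ∀ v < n, ι p.1 = ι u ∧ ι p.2 = ι v → p = (u, v) :=
    fun p hp u hu v hv q => Prod.ext (e.inj _ (pl p hp).1 _ hu q.1) (e.inj _ (pl p hp).2 _ hv q.2)
  obtain ⟨s, sr, sc⟩ := h.pot (chain ι P) (fun u v => chain_anti P u v) (fun u v q => by
      by_contra hn
      refine q (chain_zero fun p hp => ⟨?_, ?_⟩)
      · rintro ⟨rfl, rfl⟩
        exact hn ⟨_, e.mem _ _ _ (op p hp).1.choose_spec⟩
      · rintro ⟨rfl, rfl⟩
        obtain ⟨w, -, hw⟩ := h.nbr _ _ _ (e.mem _ _ _ (op p hp).1.choose_spec)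
        exact hn ⟨w, hw⟩)
    (fun u => by rw [chain_div, (cyc.map _).sum_eq, sub_self])
  have z0 : ∀ u v, Kn L u v → (u, v) ∉ P → (v, u) ∉ P → s (ι u) (ι v) = s (ι v) (ι u) := by
    intro u v k p1 p2
    have := sc _ _ _ (e.mem _ _ _ k.choose_spec)
    rw [chain_zero fun p hp => ⟨fun q => p1 (pm p hp _ (o.lt1 k) _ (o.lt2 k) q ▸ hp),
      fun q => p2 (pm p hp _ (o.lt2 k) _ (o.lt1 k) q ▸ hp)⟩] at this
    linarith
  have kn : ∀ u v, Kn L u v → s (ι u) (ι v) = s (ι a) (ι b) := fun u v k =>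
    o.con (fun u v => s (ι u) (ι v)) (fun _ _ _ k => sr _ _ _ (e.mem _ _ _ k))
      (fun u v k k' => z0 u v k (fun q => (op _ q).2 k') fun q => (op _ q).2 k) _ _ _ _ k ⟨_, hc⟩
  have df : s (ι b) (ι a) ≠ s (ι a) (ι b) := by
    have p := chain_pos (ι := ι) m fun p hp q => nba (by
      have := (op p hp).1
      rwa [pm p hp _ hb _ ha q] at this)
    have := sc _ _ _ (e.mem _ _ _ hc)
    intro q
    linarith
  have e1 := sr _ _ _ hz
  have e2 := sr _ _ _ (h.rot _ _ _ hz)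
  have k1 : ¬Kn L a d := fun k => df (e1.trans (kn _ _ k))
  have k2 : ¬Kn L d b := fun k => df ((e1.trans e2).trans (kn _ _ k))
  refine ⟨d, ?_, fun q => n2 (by rw [q]), fun q => n3 (by rw [q]), k1, k2, fun k => ?_,
    fun k => ?_, fun k => zc (h.uniq _ _ _ _ (e.mem _ _ _ k) (e.mem _ _ _ hc)), e.inj, ?_⟩
  · by_contra nd
    have nd2 : d ∉ P.map Prod.snd := fun q => nd (cyc.symm.subset q)
    obtain ⟨y, w, k⟩ := o.occ d hd
    refine (h.star (ι d) {t | t ∈ T ∧ t.1 = ι d ∧ s t.1 t.2.1 ≠ s (ι a) (ι b)}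
      ⟨_, h.rot _ _ _ (h.rot _ _ _ hz), rfl, fun q => df ((e1.trans e2).trans q)⟩
      (fun t ht => ⟨ht.1, ht.2.1⟩) ?_ _ _ (e.mem _ _ _ k)).2.2 (kn _ _ ⟨_, k⟩)
    rintro u v ⟨ht, -, q⟩
    have r1 := h.rot _ _ _ ht
    have r2 := h.rot _ _ _ r1
    obtain ⟨w, -, hw⟩ := h.nbr _ _ _ r2
    refine ⟨w, hw, rfl, ?_⟩
    have := sc _ _ _ hw
    rw [chain_zero fun p hp => ⟨fun q => nd (List.mem_map.2 ⟨p, hp, e.inj _ (pl p hp).1 _ hd q.1⟩),
      fun q => nd2 (List.mem_map.2 ⟨p, hp, e.inj _ (pl p hp).2 _ hd q.2⟩)⟩] at this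
    have f1 := sr _ _ _ ht
    have f2 := sr _ _ _ r1
    simp only at q ⊢
    intro q'
    exact q (by linarith)
  · by_contra np
    exact df ((e1.trans (z0 _ _ k np fun q => k1 (op _ q).1).symm).trans (kn _ _ k))
  · by_contra np
    exact df (((e1.trans e2).trans (z0 _ _ k np fun q => k2 (op _ q).1).symm).trans (kn _ _ k))
  · intro x y w k
    simp only [darts, List.mem_cons, Prod.mk.injEq] at k
    rcases k with ⟨rfl, rfl, rfl⟩ | ⟨rfl, rfl, rfl⟩ | ⟨rfl, rfl, rfl⟩ | k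
    · exact hz
    · exact h.rot _ _ _ hz
    · exact h.rot _ _ _ (h.rot _ _ _ hz)
    · exact e.mem _ _ _ k

end Pool.Agent.Lib.MP_f3b2fd_co.KEP.En
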