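import Mathlib
import Pool.Agent.Lib.MP_f3b2fd_co.KEP.B.Count

set_option autoImplicit false

open Real

namespace Pool.Agent.Lib.MP_f3b2fd_co.KEP

theorem ang_pos (p q r : ℝ) : 0 < ang p q r := by
  unfold ang
  linarith [arctan_lt_pi_div_two ((r - p * q) / √(gram p q r))]

theorem ang_lt_pi (p q r : ℝ) : ang p q r < π := by
  unfold ang
  linarith [neg_pi_div_two_lt_arctan ((r - p * q) / √(gram p q r))]

theorem ang_comm (p q r : ℝ) : ang p q r = ang q p r := by
  unfold ang gram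
  congr 3
  · ring
  · congr 1; ring

theorem phi_comm (p q r : ℝ) : phi p q r = phi p r q := by
  unfold phi gram
  congr 2
  · ring
  · congr 1; ring

theorem gram_rot (p q r : ℝ) : gram q r p = gram p q r := by unfold gram; ring

theorem gram_swap (p q r : ℝ) : gram q p r = gram p q r := by unfold gram; ring

theorem gram_eq (p q r : ℝ) : gram p q r = (1 - p ^ 2) * (1 - q ^ 2) - (r - p * q) ^ 2 := by
  unfold gram; ring

theorem ang_eq_arg {p q r : ℝ} (h : 0 < gram p q r) :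
    ang p q r = Complex.arg ⟨r - p * q, √(gram p q r)⟩ := by
  rw [arg_eq (by exact sqrt_pos.2 h), ang]

theorem ang_eq_arccos {p q r : ℝ} (h : 0 < gram p q r) :
    ang p q r = arccos ((r - p * q) / √((1 - p ^ 2) * (1 - q ^ 2))) := by
  rw [ang_eq_arg h, Complex.arg_of_im_pos (by exact sqrt_pos.2 h), Complex.norm_eq_sqrt_sq_add_sq]
  simp only
  rw [sq_sqrt h.le, gram_eq]
  congr 3
  ring

theorem cos_ang {p q r : ℝ} (h : 0 < gram p q r) :
    cos (ang p q r) * √((1 - p ^ 2) * (1 - q ^ 2)) = r - p * q ∧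
      sin (ang p q r) * √((1 - p ^ 2) * (1 - q ^ 2)) = √(gram p q r) := by
  have hn : ‖(⟨r - p * q, √(gram p q r)⟩ : ℂ)‖ = √((1 - p ^ 2) * (1 - q ^ 2)) := by
    rw [Complex.norm_eq_sqrt_sq_add_sq]
    simp only
    rw [sq_sqrt h.le, gram_eq]
    congr 1
    ring
  rw [ang_eq_arg h, ← hn, mul_comm, mul_comm (sin _)]
  exact ⟨Complex.norm_mul_cos_arg _, Complex.norm_mul_sin_arg _⟩

/-- The angle grows with the opposite side. -/
theorem ang_anti {p q r r' : ℝ} (h : 0 < gram p q r) (h' : 0 < gram p q r') (hr : r ≤ r') :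
    ang p q r' ≤ ang p q r := by
  rw [ang_eq_arccos h, ang_eq_arccos h']
  exact arccos_le_arccos (div_le_div_of_nonneg_right (by linarith) (sqrt_nonneg _))

theorem arg_re_pos {w : ℂ} (hw : 0 < w.re) : Complex.arg w = arctan (w.im / w.re) := by
  rw [← Complex.tan_arg]
  have := Complex.abs_arg_lt_pi_div_two_iff.2 (Or.inl hw)
  rw [arctan_tan (abs_lt.1 this).1 (abs_lt.1 this).2]

/-- An angle is the sum of the two signed half angles at its vertex. -/
theorem ang_eq_phi {p q r : ℝ} (h : 0 < gram p q r) (hr : r < 1) :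
    ang p q r = phi p q r + phi q p r := by
  have hD := sqrt_pos.2 h
  have hs := sq_sqrt h.le
  have e : (⟨r - p * q, √(gram p q r)⟩ : ℂ) * (2 * (1 - r) : ℝ) =
      (⟨√(gram p q r), 1 + p - q - r⟩ : ℂ) * ⟨√(gram p q r), 1 + q - p - r⟩ := by
    apply Complex.ext
    · simp only [Complex.mul_re, Complex.ofReal_re, Complex.ofReal_im]
      unfold gram at hs ⊢
      linear_combination -hs
    · simp only [Complex.mul_im, Complex.ofReal_re, Complex.ofReal_im]
      ring
  obtain ⟨n, hn⟩ := arg_int (by linarith) e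
    (fun k => hD.ne' (congrArg Complex.re k)) (fun k => hD.ne' (congrArg Complex.re k))
  rw [← ang_eq_arg h, arg_re_pos (by exact hD), arg_re_pos (by exact hD)] at hn
  simp only at hn
  rw [phi, phi, gram_swap p q r]
  have a1 := ang_pos p q r
  have a2 := ang_lt_pi p q r
  have b1 := arctan_lt_pi_div_two ((1 + p - q - r) / √(gram p q r))
  have b2 := neg_pi_div_two_lt_arctan ((1 + p - q - r) / √(gram p q r))
  have c1 := arctan_lt_pi_div_two ((1 + q - p - r) / √(gram p q r))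
  have c2 := neg_pi_div_two_lt_arctan ((1 + q - p - r) / √(gram p q r))
  obtain rfl : n = 0 := int_of (by push_cast; linarith) (by push_cast; linarith)
  push_cast at hn
  linarith

variable {hs : ℝ} {V : Type} [Fintype V] [DecidableEq V] (t : Tri hs V)

/-- The angle of the dart `(a, b, c)` at `a`. -/
noncomputable def Tri.A (a b c : V) : ℝ := ang (t.x a b) (t.x a c) (t.x b c)

theorem Tri.x_self (a : V) : t.x a a = 1 := by rw [t.x_eq, unit_ip (t.unit a)]

theorem Tri.x_sq {a b c : V} (h : (a, b, c) ∈ t.T) : 0 < 1 - t.x a b ^ 2 := by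
  rw [t.x_eq]
  exact ip_sq_lt (t.unit a) (t.unit b) (t.unit c) (t.det_pos a b c h)

theorem Tri.x_lt {a b c : V} (h : (a, b, c) ∈ t.T) : t.x a b < 1 := by
  nlinarith [t.x_sq h]

theorem Tri.gram_A {a b c : V} (h : (a, b, c) ∈ t.T) :
    0 < gram (t.x a b) (t.x a c) (t.x b c) := by
  have := t.gram_pos a b c h
  rw [t.x_symm a c]
  unfold gram at this ⊢
  linarith

/-- Twice the signed half angle on the side `a b`. -/
theorem Tri.two_phi {a b c : V} (h : (a, b, c) ∈ t.T) :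
    2 * phi (t.x a b) (t.x b c) (t.x c a) = t.A a b c + t.A b c a - t.A c a b := by
  have h1 := t.rot _ _ _ h
  have h2 := t.rot _ _ _ h1
  unfold Tri.A
  rw [ang_eq_phi (t.gram_A h) (t.x_lt h1), ang_eq_phi (t.gram_A h1) (t.x_lt h2),
    ang_eq_phi (t.gram_A h2) (t.x_lt h), t.x_symm a c, t.x_symm b a, t.x_symm c b,
    phi_comm (t.x a b) (t.x c a), phi_comm (t.x c a) (t.x b c), phi_comm (t.x b c) (t.x a b)]
  ring

/-- The local Delaunay condition, linear in the angles. -/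
theorem Tri.del_lin {a b c d : V} (h : (a, b, c) ∈ t.T) (h' : (b, a, d) ∈ t.T) :
    t.A c a b + t.A d b a ≤ t.A a b c + t.A b c a + t.A b a d + t.A a d b := by
  have := t.del a b c d h h'
  linarith [t.two_phi h, t.two_phi h']

theorem Tri.A_sum (v : V) :
    ∑ s ∈ t.T.filter (fun s => s.1 = v), t.A s.1 s.2.1 s.2.2 = 2 * π := by
  rw [← t.ang_sum v]
  refine Finset.sum_congr rfl fun s hs => ?_
  rw [(Finset.mem_filter.1 hs).2, Tri.A]

/-- The weighted sum of all angles. -/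
theorem Tri.sum_weight (g : V → ℝ) :
    ∑ s ∈ t.T, g s.1 * t.A s.1 s.2.1 s.2.2 = 2 * π * ∑ v, g v := by
  rw [← Finset.sum_fiberwise_of_maps_to (s := t.T) (t := Finset.univ) (g := fun s => s.1)
    (fun _ _ => Finset.mem_univ _), Finset.mul_sum]
  refine Finset.sum_congr rfl fun v _ => ?_
  rw [← t.A_sum v, Finset.sum_mul]
  refine Finset.sum_congr rfl fun s hs => ?_
  rw [(Finset.mem_filter.1 hs).2, mul_comm]

theorem Tri.sum_rot (F : V × V × V → ℝ) : ∑ s ∈ t.T, F (s.2.1, s.2.2, s.1) = ∑ s ∈ t.T, F s :=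
  Finset.sum_nbij' (fun s => (s.2.1, s.2.2, s.1)) (fun s => (s.2.2, s.1, s.2.1))
    (fun _ h => t.rot _ _ _ h) (fun _ h => t.rot _ _ _ (t.rot _ _ _ h))
    (fun _ _ => rfl) (fun _ _ => rfl) (fun _ _ => rfl)

/-- The penalty of a triangle. -/
noncomputable def Tri.tau (g : V → ℝ) (K : ℝ) (a b c : V) : ℝ :=
  g a * t.A a b c + g b * t.A b c a + g c * t.A c a b - K

/-- The total penalty; every triangle is counted three times. -/
theorem Tri.sum_tau (g : V → ℝ) (K : ℝ) : ∑ s ∈ t.T, t.tau g K s.1 s.2.1 s.2.2 =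
    3 * (2 * π * ∑ v, g v - (2 * Fintype.card V - 4) * K) := by
  have h0 := t.sum_weight g
  have h1 := t.sum_rot fun s => g s.1 * t.A s.1 s.2.1 s.2.2
  have h2 := t.sum_rot fun s => g s.2.1 * t.A s.2.1 s.2.2 s.1
  have h3 : (t.T.card : ℝ) + 12 = 6 * Fintype.card V := by exact_mod_cast t.card
  simp only [Tri.tau, Finset.sum_sub_distrib, Finset.sum_add_distrib, Finset.sum_const,
    nsmul_eq_mul] at h1 h2 ⊢
  rw [h2, h1, h0]
  linear_combination (-K) * h3

/-- Two consecutive angles at `v` determine the diagonal. -/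
theorem Tri.diag {v a b c : V} (h : (v, a, b) ∈ t.T) (h' : (v, b, c) ∈ t.T) :
    t.x a c = t.x v a * t.x v c +
      √((1 - t.x v a ^ 2) * (1 - t.x v c ^ 2)) * cos (t.A v a b + t.A v b c) := by
  obtain ⟨k1, k2⟩ := cos_ang (t.gram_A h)
  obtain ⟨k3, k4⟩ := cos_ang (t.gram_A h')
  have pa := t.x_sq h
  have pb := t.x_sq h'
  have pc : 0 < 1 - t.x v c ^ 2 := by
    rw [t.x_symm]; exact t.x_sq (t.rot _ _ _ (t.rot _ _ _ h'))
  have d1 : √(gram (t.x v a) (t.x v b) (t.x a b)) = dt3 (t.u v) (t.u a) (t.u b) := by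
    rw [t.det_eq _ _ _ h, t.x_symm b v]; congr 1; unfold gram; ring
  have d2 : √(gram (t.x v b) (t.x v c) (t.x b c)) = dt3 (t.u v) (t.u b) (t.u c) := by
    rw [t.det_eq _ _ _ h', t.x_symm c v]; congr 1; unfold gram; ring
  have id : (inner ℝ (t.u v) (t.u v) * inner ℝ (t.u a) (t.u c) -
      inner ℝ (t.u v) (t.u a) * inner ℝ (t.u v) (t.u c)) *
      (inner ℝ (t.u v) (t.u v) * inner ℝ (t.u b) (t.u b) - inner ℝ (t.u v) (t.u b) ^ 2) =
      (inner ℝ (t.u v) (t.u v) * inner ℝ (t.u a) (t.u b) -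
        inner ℝ (t.u v) (t.u a) * inner ℝ (t.u v) (t.u b)) *
      (inner ℝ (t.u v) (t.u v) * inner ℝ (t.u b) (t.u c) -
        inner ℝ (t.u v) (t.u b) * inner ℝ (t.u v) (t.u c)) -
      inner ℝ (t.u v) (t.u v) * (dt3 (t.u v) (t.u a) (t.u b) * dt3 (t.u v) (t.u b) (t.u c)) := by
    simp only [ip3, dt3]
    ring
  simp only [← t.x_eq, t.x_self, one_mul] at id
  rw [← d1, ← d2, ← k1, ← k2, ← k3, ← k4] at id
  rw [sqrt_mul pa.le, sqrt_mul pb.le] at id
  rw [sqrt_mul pa.le, cos_add]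
  have sb := sq_sqrt pb.le
  refine mul_right_cancel₀ pb.ne' ?_
  unfold Tri.A
  linear_combination id + (√(1 - t.x v a ^ 2) * √(1 - t.x v c ^ 2) *
    (cos (ang (t.x v a) (t.x v b) (t.x a b)) * cos (ang (t.x v b) (t.x v c) (t.x b c)) -
    sin (ang (t.x v a) (t.x v b) (t.x a b)) * sin (ang (t.x v b) (t.x v c) (t.x b c)))) * sb

end Pool.Agent.Lib.MP_f3b2fd_co.KEP
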