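import Mathlib
import Pool.Agent.Lib.MP_f3b2fd_co.KEP.B.Trig
import Pool.Agent.Lib.MP_f3b2fd_co.KEP.B.Enum

set_option autoImplicit false
set_option linter.unusedSectionVars false
set_option linter.unusedVariables false

open Real

namespace Pool.Agent.Lib.MP_f3b2fd_co.KEP

variable {V : Type} [Fintype V] [DecidableEq V] {hs : ℝ}

/-- reversal of a dart -/
def sw (t : V × V × V) : V × V × V := (t.1, t.2.2, t.2.1)

/-- the reversed darts -/
def mirT (T : Finset (V × V × V)) : Finset (V × V × V) := T.image sw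

theorem sw_inj : Function.Injective (sw (V := V)) := by
  rintro ⟨a, b, c⟩ ⟨a', b', c'⟩ h
  simp only [sw, Prod.mk.injEq] at h ⊢
  tauto

theorem mem_mirT {T : Finset (V × V × V)} {a b c : V} : (a, b, c) ∈ mirT T ↔ (a, c, b) ∈ T := by
  simp only [mirT, Finset.mem_image]
  constructor
  · rintro ⟨⟨x, y, z⟩, h, e⟩
    simp only [sw, Prod.mk.injEq] at e
    obtain ⟨rfl, rfl, rfl⟩ := e
    exact h
  · exact fun h => ⟨_, h, rfl⟩

theorem filter_mirT (T : Finset (V × V × V)) (v : V) :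
    ((mirT T).filter fun t => t.1 = v) = (T.filter fun t => t.1 = v).image sw := by
  rw [mirT, Finset.filter_image]
  rfl

theorem deg_mirT (T : Finset (V × V × V)) (v : V) : En.deg (mirT T) v = En.deg T v := by
  rw [En.deg, En.deg, filter_mirT, Finset.card_image_of_injective _ sw_inj]

theorem IsCx.mirror {T : Finset (V × V × V)} (h : IsCx T) : IsCx (mirT T) where
  ne a b c m := by
    obtain ⟨h1, h2, h3⟩ := h.ne _ _ _ (mem_mirT.1 m)
    exact ⟨h3.symm, h2.symm, h1.symm⟩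
  rot a b c m := mem_mirT.2 (h.rot _ _ _ (h.rot _ _ _ (mem_mirT.1 m)))
  uniq a b c c' m m' := by
    obtain ⟨m, m'⟩ := And.intro (mem_mirT.1 m) (mem_mirT.1 m')
    exact h.uniq _ _ _ _ (h.rot _ _ _ (h.rot _ _ _ m)) (h.rot _ _ _ (h.rot _ _ _ m'))
  nbr a b c m := by
    obtain ⟨d, hd, m'⟩ := h.nbr _ _ _ (h.rot _ _ _ (h.rot _ _ _ (mem_mirT.1 m)))
    exact ⟨d, hd, mem_mirT.2 (h.rot _ _ _ m')⟩
  card := by rw [mirT, Finset.card_image_of_injective _ sw_inj, h.card]
  star v D ne sub nx b c m := by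
    have fin : D.Finite := (mirT T).finite_toSet.subset fun t ht => (sub t ht).1
    have k : ∀ t : D, ∃ s : D, s.1.1 = v ∧ s.1.2.1 = t.1.2.2 := by
      rintro ⟨⟨x, y, z⟩, ht⟩
      obtain rfl : x = v := (sub _ ht).2
      obtain ⟨d, hd⟩ := nx _ _ ht
      exact ⟨⟨_, hd⟩, rfl, rfl⟩
    choose f hf using k
    have inj : Function.Injective f := by
      rintro ⟨⟨x, y, z⟩, ht⟩ ⟨⟨x', y', z'⟩, ht'⟩ e
      have e1 := (hf ⟨_, ht⟩).2
      have e2 := (hf ⟨_, ht'⟩).2
      rw [e, e2] at e1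
      obtain rfl : x = v := (sub _ ht).2
      obtain rfl : x' = x := (sub _ ht').2
      simp only at e1
      subst e1
      obtain rfl := h.uniq _ _ _ _ (mem_mirT.1 (sub _ ht).1) (mem_mirT.1 (sub _ ht').1)
      rfl
    have := fin.to_subtype
    have sur := Finite.injective_iff_surjective.1 inj
    refine h.star v {t | sw t ∈ D} ?_ ?_ ?_ _ _ (mem_mirT.1 m)
    · obtain ⟨t, ht⟩ := ne
      exact ⟨sw t, ht⟩
    · rintro ⟨x, y, z⟩ ht
      exact ⟨mem_mirT.1 (sub _ ht).1, (sub _ ht).2⟩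
    · intro y z ht
      obtain ⟨⟨⟨x', y', z'⟩, hs⟩, e⟩ := sur ⟨_, ht⟩
      have e1 := (hf ⟨_, hs⟩).2
      rw [e] at e1
      obtain rfl : x' = v := (sub _ hs).2
      simp only [sw] at e1
      subst e1
      exact ⟨y', hs⟩
  conn D ne sub r nb t ht := by
    obtain ⟨a, b, c⟩ := t
    refine h.conn {t | sw t ∈ D} ?_ ?_ ?_ ?_ _ (mem_mirT.1 ht)
    · obtain ⟨t, ht⟩ := ne
      exact ⟨sw t, ht⟩
    · rintro ⟨x, y, z⟩ ht
      exact mem_mirT.1 (sub _ ht)
    · exact fun x y z ht => r _ _ _ (r _ _ _ ht)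
    · intro x y z ht
      obtain ⟨d, hd⟩ := nb _ _ _ (r _ _ _ (r _ _ _ ht))
      exact ⟨d, r _ _ _ hd⟩
  cover v := by
    obtain ⟨b, c, m⟩ := h.cover v
    exact ⟨c, b, mem_mirT.2 m⟩

theorem dt3_neg (a b c : E3) : dt3 (-a) (-c) (-b) = dt3 a b c := by
  simp only [dt3, PiLp.neg_apply]
  ring

/-- The mirror image: same heights, same cosines, reversed darts. -/
noncomputable def Tri.mirror (t : Tri hs V) : Tri hs V where
  h := t.h
  u v := -t.u v
  x := t.x
  T := mirT t.T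
  h_lo := t.h_lo
  h_hi := t.h_hi
  unit v := by rw [norm_neg, t.unit]
  x_eq a b := by rw [inner_neg_neg, t.x_eq]
  x_symm := t.x_symm
  sep := t.sep
  sat p hp k h1 h2 := by
    obtain ⟨v, hv⟩ := t.sat (-p) (by rw [norm_neg, hp]) k h1 h2
    exact ⟨v, by rwa [inner_neg_right, ← inner_neg_left]⟩
  det_pos a b c m := by rw [dt3_neg]; exact t.det_pos _ _ _ (mem_mirT.1 m)
  det_eq a b c m := by
    rw [dt3_neg, t.det_eq _ _ _ (mem_mirT.1 m), t.x_symm a c, t.x_symm c b, t.x_symm b a]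
    congr 1
    unfold gram
    ring
  gram_pos a b c m := by
    have := t.gram_pos _ _ _ (mem_mirT.1 m)
    rw [t.x_symm a c, t.x_symm c b, t.x_symm b a] at this
    unfold gram at this ⊢
    linarith
  ne := t.isCx.mirror.ne
  empty a b c m := by
    obtain ⟨y, h1, h2, h3, h4⟩ := t.empty _ _ _ (mem_mirT.1 m)
    exact ⟨-y, by rwa [inner_neg_neg], by rwa [inner_neg_neg], by rwa [inner_neg_neg],
      fun d => by rw [inner_neg_neg]; exact h4 d⟩
  rot := t.isCx.mirror.rot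
  uniq := t.isCx.mirror.uniq
  nbr := t.isCx.mirror.nbr
  rad a b c m := by
    have := t.rad _ _ _ (mem_mirT.1 m)
    rw [t.x_symm a c, t.x_symm c b, t.x_symm b a] at this
    unfold gram cof at this ⊢
    linarith
  del a b c d m m' := by
    have := t.del _ _ _ _ (t.rot _ _ _ (t.rot _ _ _ (mem_mirT.1 m)))
      (t.rot _ _ _ (t.rot _ _ _ (mem_mirT.1 m')))
    rw [phi_comm (t.x a b), phi_comm (t.x b a), t.x_symm c a, t.x_symm b c, t.x_symm d b,
      t.x_symm a d]
    rw [t.x_symm b a] at this ⊢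
    exact this
  ang_sum v := by
    rw [filter_mirT, Finset.sum_image fun _ _ _ _ e => sw_inj e, ← t.ang_sum v]
    refine Finset.sum_congr rfl fun s _ => ?_
    simp only [sw]
    rw [ang_comm, t.x_symm s.2.2 s.2.1]
  card := t.isCx.mirror.card
  star := t.isCx.mirror.star
  conn := t.isCx.mirror.conn
  cover := t.isCx.mirror.cover

theorem Tri.mirror_h (t : Tri hs V) : t.mirror.h = t.h := rfl

theorem Tri.mirror_x (t : Tri hs V) : t.mirror.x = t.x := rfl

theorem Tri.mirror_T (t : Tri hs V) : t.mirror.T = mirT t.T := rfl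

/-- Relabelling with reversal of the orientation. -/
theorem En.Emb.goto_mir {T : Finset (V × V × V)} {n : ℕ} {L : List En.Tr} {ι : ℕ → V}
    (e : En.Emb T n L ι) (h : IsCx T) {n' : ℕ} {L' : List En.Tr} (σ : ℕ → ℕ)
    (lt : ∀ i < n', σ i < n) (inj : ∀ i < n', ∀ j < n', σ i = σ j → i = j)
    (m : ∀ t ∈ L', (σ t.1, σ t.2.2, σ t.2.1) ∈ En.darts L) :
    En.Emb (mirT T) n' L' fun i => ι (σ i) where
  inj i hi j hj q := inj i hi j hj (e.inj _ (lt i hi) _ (lt j hj) q)
  mem a b c k := En.darts_ind (fun a b c => (ι (σ a), ι (σ b), ι (σ c)) ∈ mirT T)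
    (fun _ _ _ => h.mirror.rot _ _ _) (fun t ht => mem_mirT.2 (e.mem _ _ _ (m t ht))) k

end Pool.Agent.Lib.MP_f3b2fd_co.KEP
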