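import Mathlib
import Pool.Agent.Lib.MP_f3b2fd_co.KEP.B.Mirror

set_option autoImplicit false
set_option linter.unusedSectionVars false
set_option linter.unusedVariables false

namespace Pool.Agent.Lib.MP_f3b2fd_co.KEP.En

/-- position of a directed edge -/
def ix (a b : ℕ) : ℕ := Nat.add (Nat.shiftLeft a 4) b
/-- position of a dart -/
def ix3 (a b c : ℕ) : ℕ := Nat.add (Nat.shiftLeft (Nat.add (Nat.shiftLeft a 4) b) 4) c
/-- a single bit -/
def bt (k : ℕ) : ℕ := Nat.shiftLeft 1 k
/-- bit test -/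
def tb (x k : ℕ) : Bool := Nat.beq (Nat.land (Nat.shiftRight x k) 1) 1
/-- four bit field -/
def fld (x i : ℕ) : ℕ := Nat.land (Nat.shiftRight x (Nat.shiftLeft i 2)) 15
/-- add the three directed edges of a triangle -/
def addE (E p q r : ℕ) : ℕ := Nat.lor (Nat.lor (Nat.lor E (bt (ix p q))) (bt (ix q r))) (bt (ix r p))
/-- add the three darts of a triangle -/
def addD (D p q r : ℕ) : ℕ :=
  Nat.lor (Nat.lor (Nat.lor D (bt (ix3 p q r))) (bt (ix3 q r p))) (bt (ix3 r p q))
/-- number of ones in a byte -/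
def pc8 (x : ℕ) : ℕ := fld 0x8776766576656554766565546554544376656554655454436554544354434332766565546554544365545443544343326554544354434332544343324332322176656554655454436554544354434332655454435443433254434332433232216554544354434332544343324332322154434332433232214332322132212110 x
/-- number of ones among the lowest sixteen bits -/
def pc (r : ℕ) : ℕ := Nat.add (pc8 (Nat.land r 255)) (pc8 (Nat.land (Nat.shiftRight r 8) 255))
/-- number of known neighbours, `S` being the union of the two edge masks -/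
def nbB (S v : ℕ) : ℕ := pc (Nat.shiftRight S (Nat.shiftLeft v 4))
/-- closed star, `X` being the symmetric difference of the two edge masks -/
def closedB (X v : ℕ) : Bool := Nat.beq (Nat.land (Nat.shiftRight X (Nat.shiftLeft v 4)) 65535) 0
/-- evaluate a number before continuing -/
noncomputable def frc {α : Type} (z : α) (v : ℕ) (k : ℕ → α) : α :=
  Nat.rec (motive := fun _ => α) z (fun m _ => k m) (Nat.add v 1)

theorem frc_eq {α : Type} (z : α) (v : ℕ) (k : ℕ → α) : frc z v k = k v := rfl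

theorem ix_eq (a b : ℕ) : ix a b = 16 * a + b := by
  show a <<< 4 + b = _
  rw [Nat.shiftLeft_eq]; ring

theorem ix3_eq (a b c : ℕ) : ix3 a b c = 256 * a + 16 * b + c := by
  show (a <<< 4 + b) <<< 4 + c = _
  rw [Nat.shiftLeft_eq, Nat.shiftLeft_eq]; ring

theorem sl4 (a : ℕ) : Nat.shiftLeft a 4 = 16 * a := by
  show a <<< 4 = _
  rw [Nat.shiftLeft_eq]; ring

theorem test_bt (k j : ℕ) : (bt k).testBit j = decide (k = j) := by
  show (1 <<< k).testBit j = _
  rw [Nat.one_shiftLeft, Nat.testBit_two_pow]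

theorem test_lor (x y j : ℕ) : (Nat.lor x y).testBit j = (x.testBit j || y.testBit j) :=
  Nat.testBit_or x y j

theorem test_land (x y j : ℕ) : (Nat.land x y).testBit j = (x.testBit j && y.testBit j) :=
  Nat.testBit_and x y j

theorem test_xor (x y j : ℕ) : (Nat.xor x y).testBit j = (x.testBit j ^^ y.testBit j) :=
  Nat.testBit_xor x y j

theorem test_sr (x k j : ℕ) : (Nat.shiftRight x k).testBit j = x.testBit (k + j) :=
  Nat.testBit_shiftRight x

theorem tb_eq (x k : ℕ) : tb x k = x.testBit k := by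
  show Nat.beq ((x >>> k) &&& 1) 1 = (1 &&& (x >>> k) != 0)
  rw [Nat.and_comm 1, Nat.and_one_is_mod]
  rcases Nat.mod_two_eq_zero_or_one (x >>> k) with h | h <;> rw [h] <;> rfl

theorem fld_lt (x i : ℕ) : fld x i < 16 :=
  Nat.and_lt_two_pow (n := 4) _ (by norm_num)

theorem pc8_eq : ∀ x < 256, pc8 x = ∑ i ∈ Finset.range 8, if x.testBit i then 1 else 0 := by
  decide +kernel

theorem pc_eq (r : ℕ) : pc r = ((Finset.range 16).filter fun i => r.testBit i).card := by
  have m : ∀ x i, i < 8 → (Nat.land x 255).testBit i = x.testBit i := by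
    intro x i hi
    rw [test_land, show (255 : ℕ) = 2 ^ 8 - 1 from rfl, Nat.testBit_two_pow_sub_one]
    simp [hi]
  have l : ∀ x, Nat.land x 255 < 256 := fun x => Nat.and_lt_two_pow (n := 8) _ (by norm_num)
  rw [Finset.card_filter, show 16 = 8 + 8 from rfl, Finset.sum_range_add]
  show pc8 _ + pc8 _ = _
  rw [pc8_eq _ (l _), pc8_eq _ (l _)]
  congr 1 <;> refine Finset.sum_congr rfl fun i hi => ?_
  · rw [m _ _ (Finset.mem_range.1 hi)]
  · rw [m _ _ (Finset.mem_range.1 hi), test_sr]

/-- A state of the enumeration; the holes `H` are only hints. -/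
structure St where
  /-- number of labels -/
  n : ℕ
  /-- known directed edges -/
  E : ℕ
  /-- the transpose -/
  ET : ℕ
  /-- known darts -/
  D : ℕ
  /-- known triangles -/
  L : List Tr
  /-- boundary cycles -/
  H : List (List ℕ)

/-- The masks describe the list. -/
structure Rep (n E ET D : ℕ) (L : List Tr) : Prop where
  ok : Ok n L
  pos : 0 < n
  le : n ≤ 16
  hE : ∀ a b, b < 16 → (E.testBit (16 * a + b) = true ↔ Kn L a b)
  hT : ∀ a b, b < 16 → (ET.testBit (16 * a + b) = true ↔ Kn L b a)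
  hD : ∀ a b c, b < 16 → c < 16 → D.testBit (256 * a + 16 * b + c) = true → (a, b, c) ∈ darts L

theorem Rep.add0 {n n' E ET D : ℕ} {L : List Tr} {p q r : ℕ} (o : Ok n' ((p, q, r) :: L))
    (pos : 0 < n') (le : n' ≤ 16)
    (hE : ∀ a b, b < 16 → (E.testBit (16 * a + b) = true ↔ Kn L a b))
    (hT : ∀ a b, b < 16 → (ET.testBit (16 * a + b) = true ↔ Kn L b a))
    (hD : ∀ a b c, b < 16 → c < 16 → D.testBit (256 * a + 16 * b + c) = true →
      (a, b, c) ∈ darts L) :
    Rep n' (addE E p q r) (addE ET p r q) (addD D p q r) ((p, q, r) :: L) := by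
  have hp := o.lt p q r (by simp [darts])
  have hq := o.lt q r p (by simp [darts])
  have hr := o.lt r p q (by simp [darts])
  refine ⟨o, pos, le, fun a b hb => ?_, fun a b hb => ?_, fun a b c hb hc => ?_⟩
  · simp only [addE, test_lor, test_bt, ix_eq, Bool.or_eq_true, decide_eq_true_eq, hE a b hb,
      kn_cons]
    by_cases k : Kn L a b <;> simp only [k, or_true, true_or, false_or, or_false]
    omega
  · simp only [addE, test_lor, test_bt, ix_eq, Bool.or_eq_true, decide_eq_true_eq, hT a b hb,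
      kn_cons]
    by_cases k : Kn L b a <;> simp only [k, or_true, true_or, false_or, or_false]
    omega
  · simp only [addD, test_lor, test_bt, ix3_eq, Bool.or_eq_true, decide_eq_true_eq, darts,
      List.mem_cons, Prod.mk.injEq]
    rintro (((h | h) | h) | h)
    · exact Or.inr (Or.inr (Or.inr (hD a b c hb hc h)))
    · omega
    · omega
    · omega

theorem rep_one : Rep 3 (addE 0 0 1 2) (addE 0 0 2 1) (addD 0 0 1 2) [(0, 1, 2)] :=
  Rep.add0 (n := 0) ok_one (by norm_num) (by norm_num) (by simp [Kn, darts]) (by simp [Kn, darts])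
    (by simp)

theorem Rep.add {n n' E ET D : ℕ} {L : List Tr} (R : Rep n E ET D L) {a b d : ℕ} (h1 : Kn L a b)
    (h2 : ¬Kn L b a) (h3 : ¬Kn L a d) (h4 : ¬Kn L d b) (hn : n ≤ n') (hd : d < n')
    (hi : ∀ i < n', i < n ∨ i = d) (le : n' ≤ 16) :
    Rep n' (addE E b a d) (addE ET b d a) (addD D b a d) ((b, a, d) :: L) :=
  Rep.add0 (n := n) (R.ok.step h1 h2 h3 h4 hn hd hi) (by omega) le R.hE R.hT R.hD

variable {V : Type} [Fintype V] [DecidableEq V] {T : Finset (V × V × V)} {n E ET D : ℕ}
  {L : List Tr} {ι : ℕ → V}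

theorem Rep.nb_le (R : Rep n E ET D L) (h : IsCx T) (e : Emb T n L ι) (v : ℕ) :
    nbB (Nat.lor E ET) v ≤ deg T (ι v) := by
  rw [nbB, pc_eq]
  refine e.nb_le h R.ok v _ fun b hb => ?_
  rw [Finset.mem_filter, Finset.mem_range, test_sr, sl4, test_lor, Bool.or_eq_true] at hb
  exact hb.2.imp (R.hE _ _ hb.1).1 (R.hT _ _ hb.1).1

theorem Rep.closed (R : Rep n E ET D L) {v : ℕ} (c : closedB (Nat.xor E ET) v = true) :
    ∀ c, Kn L c v → Kn L v c := by
  intro b k
  have hb : b < 16 := (R.ok.lt1 k).trans_le R.le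
  have z := congrArg (fun x => Nat.testBit x b) (Nat.eq_of_beq_eq_true c)
  simp only [test_land, test_sr, test_xor, sl4, Nat.zero_testBit] at z
  rw [show (65535 : ℕ) = 2 ^ 16 - 1 from rfl, Nat.testBit_two_pow_sub_one, (R.hT _ _ hb).2 k] at z
  refine (R.hE _ _ hb).1 ?_
  simpa [hb] using z

theorem Rep.deg_le (R : Rep n E ET D L) (h : IsCx T) (e : Emb T n L ι) {v : ℕ} (hv : v < n)
    (c : closedB (Nat.xor E ET) v = true) : deg T (ι v) ≤ nbB (Nat.lor E ET) v := by
  rw [nbB, pc_eq]
  refine e.deg_le h R.ok hv (R.closed c) _ fun b k => ?_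
  have hb : b < 16 := (R.ok.lt2 k).trans_le R.le
  rw [Finset.mem_filter, Finset.mem_range, test_sr, sl4, test_lor, (R.hE _ _ hb).2 k]
  exact ⟨hb, rfl⟩

theorem Rep.complete (R : Rep n E ET D L) (c : Nat.beq E ET = true) :
    ∀ a b, Kn L a b → Kn L b a := by
  intro a b k
  have hb : b < 16 := (R.ok.lt2 k).trans_le R.le
  rw [← R.hT _ _ hb, ← Nat.eq_of_beq_eq_true c, R.hE _ _ hb]
  exact k

theorem Rep.card (R : Rep n E ET D L) (h : IsCx T) (e : Emb T n L ι) (c : Nat.beq E ET = true) :
    T = img ι L ∧ n = Fintype.card V :=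
  e.complete h R.ok R.pos (R.complete c)

/-- marks the images of the labels below `k`; zero on a collision -/
noncomputable def injM (σ n k : ℕ) : ℕ :=
  Nat.rec (Nat.sub 131072 (bt n))
    (fun i m => frc 0 m fun m => frc 0 (fld σ i) fun j =>
      cond (Nat.beq m 0) 0 (cond (tb m j) 0 (Nat.lor m (bt j)))) k

theorem injM_spec {σ n : ℕ} (hn : n ≤ 16) (k : ℕ) (h : injM σ n k ≠ 0) :
    (∀ j, n ≤ j → j < 16 → (injM σ n k).testBit j = true) ∧
    (∀ i < k, (injM σ n k).testBit (fld σ i) = true ∧ fld σ i < n) ∧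
    ∀ i < k, ∀ j < k, fld σ i = fld σ j → i = j := by
  induction k with
  | zero =>
    refine ⟨?_, by simp, by simp⟩
    have : ∀ n ≤ 16, ∀ j < 16, n ≤ j → (Nat.sub 131072 (bt n)).testBit j = true := by
      decide +kernel
    exact fun j h1 h2 => this n hn j h2 h1
  | succ k ih =>
    have e : injM σ n (k + 1) = cond (Nat.beq (injM σ n k) 0) 0
      (cond (tb (injM σ n k) (fld σ k)) 0 (Nat.lor (injM σ n k) (bt (fld σ k)))) := rfl
    rw [e] at h ⊢
    cases z : Nat.beq (injM σ n k) 0
    swap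
    · simp [z] at h
    obtain ⟨i1, i2, i3⟩ := ih (Nat.ne_of_beq_eq_false z)
    cases t : tb (injM σ n k) (fld σ k)
    swap
    · simp [z, t] at h
    rw [tb_eq] at t
    simp only [cond_false, test_lor, test_bt, Bool.or_eq_true, decide_eq_true_eq]
    have nw : ∀ i < k, fld σ i ≠ fld σ k := fun i hi q => by
      rw [← q, (i2 i hi).1] at t
      exact Bool.noConfusion t
    refine ⟨fun j h1 h2 => Or.inl (i1 j h1 h2), fun i hi => ?_, fun i hi j hj q => ?_⟩
    · rcases Nat.lt_succ_iff_lt_or_eq.1 hi with hi | rfl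
      · exact ⟨Or.inl (i2 i hi).1, (i2 i hi).2⟩
      · refine ⟨Or.inr rfl, ?_⟩
        by_contra hc
        rw [i1 _ (not_lt.1 hc) (fld_lt _ _)] at t
        exact Bool.noConfusion t
    · rcases Nat.lt_succ_iff_lt_or_eq.1 hi with hi | rfl <;>
        rcases Nat.lt_succ_iff_lt_or_eq.1 hj with hj | rfl
      · exact i3 i hi j hj q
      · exact absurd q (nw i hi)
      · exact absurd q.symm (nw j hj)
      · rfl

/-- all triangles of a list are mapped to known darts -/
noncomputable def allD (D σ : ℕ) (mir : Bool) (L' : List Tr) : Bool :=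
  List.rec true (fun t _ ih => Prod.rec (fun a s => Prod.rec (fun b c =>
    cond (tb D (cond mir (ix3 (fld σ a) (fld σ c) (fld σ b)) (ix3 (fld σ a) (fld σ b) (fld σ c))))
      ih false) s) t) L'

/-- the stored list `L'` on `n'` labels maps into the known darts -/
noncomputable def gotoB (n D n' : ℕ) (L' : List Tr) (σ : ℕ) (mir : Bool) : Bool :=
  cond (Nat.beq (injM σ n n') 0) false (allD D σ mir L')

theorem Rep.allD (R : Rep n E ET D L) {σ : ℕ} {mir : Bool} {L' : List Tr}
    (c : allD D σ mir L' = true) : ∀ t ∈ L', (fld σ t.1, cond mir (fld σ t.2.2) (fld σ t.2.1),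
      cond mir (fld σ t.2.1) (fld σ t.2.2)) ∈ darts L := by
  induction L' with
  | nil => simp
  | cons t L' ih =>
    obtain ⟨a, b, c'⟩ := t
    have c : cond (tb D (cond mir (ix3 (fld σ a) (fld σ c') (fld σ b))
      (ix3 (fld σ a) (fld σ b) (fld σ c')))) (En.allD D σ mir L') false = true := c
    rw [Bool.cond_false_right, Bool.and_eq_true, tb_eq] at c
    intro t ht
    rcases List.mem_cons.1 ht with rfl | ht
    · cases mir
      · exact R.hD _ _ _ (fld_lt _ _) (fld_lt _ _) (by simpa [ix3_eq] using c.1)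
      · exact R.hD _ _ _ (fld_lt _ _) (fld_lt _ _) (by simpa [ix3_eq] using c.1)
    · exact ih c.2 t ht

theorem Rep.goto (R : Rep n E ET D L) (h : IsCx T) (e : Emb T n L ι) {n' σ : ℕ} {mir : Bool}
    {L' : List Tr} (c : gotoB n D n' L' σ mir = true) :
    Emb (cond mir (mirT T) T) n' L' (fun i => ι (fld σ i)) ∧ ∀ i < n', fld σ i < n := by
  unfold gotoB at c
  cases z : Nat.beq (injM σ n n') 0
  swap
  · simp [z] at c
  rw [z, cond_false] at c
  obtain ⟨-, i2, i3⟩ := injM_spec R.le n' (Nat.ne_of_beq_eq_false z)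
  refine ⟨?_, fun i hi => (i2 i hi).2⟩
  cases mir
  · exact e.goto h _ (fun i hi => (i2 i hi).2) i3 (R.allD c)
  · exact e.goto_mir h _ (fun i hi => (i2 i hi).2) i3 (R.allD c)

/-- the directed edges of the walk from `p` through the list back to `a` -/
def prs (a : ℕ) : List ℕ → ℕ → List (ℕ × ℕ)
  | [], p => [(p, a)]
  | x :: l, p => (p, x) :: prs a l x

/-- their mask -/
noncomputable def wm (a : ℕ) (l : List ℕ) : ℕ → ℕ :=
  List.rec (fun p => bt (ix p a)) (fun x _ ih p => Nat.lor (bt (ix p x)) (ih x)) l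

/-- bitwise union of a list -/
noncomputable def ol (a : ℕ) (l : List ℕ) : ℕ := List.rec a (fun x _ ih => Nat.lor x ih) l

theorem prs_fst (a : ℕ) (l : List ℕ) (p : ℕ) : (prs a l p).map Prod.fst = p :: l := by
  induction l generalizing p with
  | nil => rfl
  | cons x l ih => simp only [prs, List.map_cons, ih]

theorem prs_snd (a : ℕ) (l : List ℕ) (p : ℕ) : (prs a l p).map Prod.snd = l ++ [a] := by
  induction l generalizing p with
  | nil => rfl
  | cons x l ih => simp only [prs, List.map_cons, ih, List.cons_append]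

theorem wm_test (a : ℕ) (l : List ℕ) (p : ℕ) :
    ∀ q ∈ prs a l p, (wm a l p).testBit (16 * q.1 + q.2) = true := by
  induction l generalizing p with
  | nil =>
    intro q hq
    obtain rfl := List.mem_singleton.1 hq
    show (bt (ix p a)).testBit _ = true
    simp [test_bt, ix_eq]
  | cons x l ih =>
    intro q hq
    show (Nat.lor (bt (ix p x)) (wm a l x)).testBit _ = true
    rw [test_lor, Bool.or_eq_true]
    rcases List.mem_cons.1 hq with rfl | hq
    · left; simp [test_bt, ix_eq]
    · exact Or.inr (ih x q hq)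

theorem ol_le (a : ℕ) (l : List ℕ) : a ≤ ol a l ∧ ∀ x ∈ l, x ≤ ol a l := by
  induction l with
  | nil => exact ⟨le_rfl, by simp⟩
  | cons y l ih =>
    have h1 : y ≤ Nat.lor y (ol a l) := Nat.left_le_or
    have h2 : ol a l ≤ Nat.lor y (ol a l) := Nat.right_le_or
    refine ⟨ih.1.trans h2, fun x hx => ?_⟩
    rcases List.mem_cons.1 hx with rfl | hx
    · exact h1
    · exact (ih.2 x hx).trans h2

/-- `M` is inside the open edges and the labels are small -/
noncomputable def walkB (E ET M a : ℕ) (l : List ℕ) : Bool :=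
  cond (Nat.beq (Nat.land M (Nat.xor E (Nat.land E ET))) M) (Nat.blt (ol a l) 16) false

/-- row of excluded third vertices, `R` being the known edges off the walk -/
def badR (E ET R a b : ℕ) : ℕ :=
  Nat.lor (Nat.shiftRight E (Nat.shiftLeft a 4))
    (Nat.shiftRight (Nat.lor ET R) (Nat.shiftLeft b 4))

/-- `d` is excluded -/
def badB (B R a d : ℕ) : Bool := cond (tb B d) true (tb R (ix d a))

/-- Growth across the first edge of the walk `a :: b :: l`. -/
theorem Rep.grow (R : Rep n E ET D L) (h : IsCx T) (e : Emb T n L ι) {a b : ℕ} {l : List ℕ}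
    (w : walkB E ET (wm a (b :: l) a) a (b :: l) = true) :
    (n < Fintype.card V ∧ a < n ∧ b < n ∧ ∃ ι' : ℕ → V, (∀ i < n, ι' i = ι i) ∧
      Emb T (n + 1) ((b, a, n) :: L) ι' ∧
      (n < 16 → Rep (n + 1) (addE E b a n) (addE ET b n a) (addD D b a n) ((b, a, n) :: L))) ∨
    ∃ d ∈ l, badB (badR E ET (Nat.xor E (wm a (b :: l) a)) a b) (Nat.xor E (wm a (b :: l) a)) a d
        = false ∧ a < n ∧ b < n ∧ d < n ∧ Emb T n ((b, a, d) :: L) ι ∧
      Rep n (addE E b a d) (addE ET b d a) (addD D b a d) ((b, a, d) :: L) := by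
  unfold walkB at w
  rw [Bool.cond_false_right, Bool.and_eq_true, Nat.blt_eq] at w
  have w1 := Nat.eq_of_beq_eq_true w.1
  have la : a < 16 := (ol_le a (b :: l)).1.trans_lt w.2
  have ll : ∀ x ∈ b :: l, x < 16 := fun x hx => ((ol_le a (b :: l)).2 x hx).trans_lt w.2
  have sub : ∀ j, (wm a (b :: l) a).testBit j = true → E.testBit j = true ∧ ET.testBit j = false := by
    intro j hj
    have := congrArg (fun x => Nat.testBit x j) w1
    simp only [test_land, test_xor, hj, Bool.true_and] at this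
    revert this
    cases E.testBit j <;> cases ET.testBit j <;> simp
  have op : ∀ p ∈ prs a (b :: l) a, Kn L p.1 p.2 ∧ ¬Kn L p.2 p.1 := by
    intro p hp
    have l2 : p.2 < 16 := by
      have : p.2 ∈ (b :: l) ++ [a] := by rw [← prs_snd a (b :: l) a]; exact List.mem_map_of_mem hp
      rcases List.mem_append.1 this with q | q
      · exact ll _ q
      · rw [List.mem_singleton.1 q]; exact la
    obtain ⟨s1, s2⟩ := sub _ (wm_test _ _ _ p hp)
    exact ⟨(R.hE _ _ l2).1 s1, fun k => by rw [(R.hT _ _ l2).2 k] at s2; exact Bool.noConfusion s2⟩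
  have m : (a, b) ∈ prs a (b :: l) a := List.mem_cons_self
  obtain ⟨k1, k2⟩ := op _ m
  have ha := R.ok.lt1 k1
  have hb := R.ok.lt2 k1
  rcases e.grow h R.ok _ (by rw [prs_fst, prs_snd]; exact (List.perm_append_singleton _ _).symm)
    op m with ⟨hn, ι', ag, e'⟩ | ⟨d, hd, da, db, c1, c2, c3, c4, -, e'⟩
  · exact Or.inl ⟨hn, ha, hb, ι', ag, e', fun l16 => R.add k1 k2 (fun k => (R.ok.lt2 k).false)
      (fun k => (R.ok.lt1 k).false) n.le_succ n.lt_succ_self (fun i hi => by omega) l16⟩
  · rw [prs_fst] at hd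
    have hl : d ∈ l := by simpa [da, db] using hd
    have ld : d < 16 := ll _ (List.mem_cons_of_mem _ hl)
    have dn : d < n := by
      rw [← prs_fst a (b :: l) a] at hd
      obtain ⟨p, hp, rfl⟩ := List.mem_map.1 hd
      exact R.ok.lt1 (op p hp).1
    have off : ∀ u v, v < 16 → (Kn L u v → (u, v) ∈ prs a (b :: l) a) →
        (Nat.xor E (wm a (b :: l) a)).testBit (16 * u + v) = false := by
      intro u v hv k
      rw [test_xor]
      cases q : E.testBit (16 * u + v)
      · cases q' : (wm a (b :: l) a).testBit (16 * u + v)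
        · rfl
        · rw [(sub _ q').1] at q; exact Bool.noConfusion q
      · rw [wm_test _ _ _ _ (k ((R.hE _ _ hv).1 q))]; rfl
    refine Or.inr ⟨d, hl, ?_, ha, hb, dn, e',
      R.add k1 k2 c1 c2 le_rfl dn (fun i hi => Or.inl hi) R.le⟩
    simp only [badB, badR, tb_eq, test_lor, test_sr, sl4, ix_eq, off b d ld c4, off d a la c3,
      Bool.eq_false_iff.2 fun q => c1 ((R.hE _ _ ld).1 q),
      Bool.eq_false_iff.2 fun q => c2 ((R.hT _ _ ld).1 q)]
    rfl

end Pool.Agent.Lib.MP_f3b2fd_co.KEP.En
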