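import Mathlib
import Pool.Agent.Lib.MP_f3b2fd_co.KEP.B.EnumB

set_option autoImplicit false
set_option linter.unusedSectionVars false
set_option linter.unusedVariables false

namespace Pool.Agent.Lib.MP_f3b2fd_co.KEP.En

/-- the labels that occur -/
noncomputable def vm (L : List Tr) : ℕ :=
  List.rec 0 (fun t _ ih =>
    Nat.lor (Nat.lor (Nat.lor ih (bt t.1)) (bt t.2.1)) (bt t.2.2)) L

theorem vm_test (L : List Tr) (i : ℕ) :
    (vm L).testBit i = true ↔ ∃ b c, (i, b, c) ∈ darts L := by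
  induction L with
  | nil => simp [vm, darts]
  | cons t L ih =>
    obtain ⟨p, q, r⟩ := t
    show (Nat.lor (Nat.lor (Nat.lor (vm L) (bt p)) (bt q)) (bt r)).testBit i = true ↔ _
    simp only [test_lor, test_bt, Bool.or_eq_true, decide_eq_true_eq, ih, darts, List.mem_cons,
      Prod.mk.injEq, exists_or, exists_and_left, exists_eq, and_true, eq_comm (a := i)]
    generalize (∃ b c, (i, b, c) ∈ darts L) = A
    tauto

/-- the mask of directed edges with a sentinel; zero if an edge is repeated -/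
noncomputable def nd (L : List Tr) : ℕ :=
  List.rec (bt 256) (fun t _ ih => frc 0 ih fun E => cond (Nat.beq E 0) 0
    (cond (tb E (ix t.1 t.2.1)) 0 (cond (tb E (ix t.2.1 t.2.2)) 0 (cond (tb E (ix t.2.2 t.1)) 0
      (cond (Nat.beq t.1 t.2.1) 0 (addE E t.1 t.2.1 t.2.2)))))) L

theorem nd_spec (L : List Tr) (h : nd L ≠ 0) :
    (darts L).Nodup ∧ ∀ a b, Kn L a b → (nd L).testBit (16 * a + b) = true := by
  induction L with
  | nil => simp [darts, Kn]
  | cons t L ih =>
    obtain ⟨p, q, r⟩ := t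
    have e : nd ((p, q, r) :: L) = cond (Nat.beq (nd L) 0) 0
      (cond (tb (nd L) (ix p q)) 0 (cond (tb (nd L) (ix q r)) 0 (cond (tb (nd L) (ix r p)) 0
        (cond (Nat.beq p q) 0 (addE (nd L) p q r))))) := rfl
    rw [e] at h ⊢
    cases c0 : Nat.beq (nd L) 0 <;> cases c1 : tb (nd L) (ix p q) <;>
      cases c2 : tb (nd L) (ix q r) <;> cases c3 : tb (nd L) (ix r p) <;>
      cases c4 : Nat.beq p q <;> simp only [c0, c1, c2, c3, c4, cond_true, cond_false] at h ⊢ <;>
      try exact absurd rfl h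
    obtain ⟨i1, i2⟩ := ih (Nat.ne_of_beq_eq_false c0)
    have pq := Nat.ne_of_beq_eq_false c4
    rw [tb_eq, ix_eq] at c1 c2 c3
    have m : ∀ {a b c}, (nd L).testBit (16 * a + b) = false → (a, b, c) ∉ darts L :=
      fun f k => by rw [i2 _ _ ⟨_, k⟩] at f; exact Bool.noConfusion f
    constructor
    · simp only [darts, List.nodup_cons, List.mem_cons, Prod.mk.injEq, m c1, m c2, m c3, i1,
        or_false, not_false_eq_true, and_true]
      omega
    · intro a b k
      simp only [addE, test_lor, test_bt, ix_eq, Bool.or_eq_true, decide_eq_true_eq]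
      rcases kn_cons.1 k with ⟨rfl, rfl⟩ | ⟨rfl, rfl⟩ | ⟨rfl, rfl⟩ | k
      · simp
      · simp
      · simp
      · simp [i2 _ _ k]

/-- one pass of the search for the triangles that are reached across edges -/
noncomputable def pass (l : List Tr) : ℕ → ℕ :=
  List.rec (fun R => R) (fun t _ ih R => frc 0 (cond (cond (tb R (ix t.2.1 t.1)) true
    (cond (tb R (ix t.2.2 t.2.1)) true (tb R (ix t.1 t.2.2)))) (addE R t.1 t.2.1 t.2.2) R) ih) l

/-- all triangles are reached -/
noncomputable def allR (R : ℕ) (l : List Tr) : Bool :=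
  List.rec true (fun t _ ih => cond (tb R (ix t.1 t.2.1)) ih false) l

/-- the list is well formed; `k` is the number of passes -/
noncomputable def okB (k n : ℕ) (L : List Tr) : Bool :=
  cond (Nat.ble n 16) (cond (Nat.beq (Nat.succ (vm L)) (bt n)) (cond (Nat.beq (nd L) 0) false
    (List.rec true (fun t _ _ => frc false (Nat.rec (addE 0 t.1 t.2.1 t.2.2)
      (fun _ R => pass L R) k) fun R => allR R L) L)) false) false

theorem okB_sound {k n : ℕ} {L : List Tr} (c : okB k n L = true) : n ≤ 16 ∧ Ok n L := by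
  unfold okB at c
  simp only [Bool.cond_false_right, Bool.and_eq_true, Nat.ble_eq] at c
  obtain ⟨le, c1, c2⟩ := c
  have c1 : vm L = 2 ^ n - 1 := by
    have : vm L + 1 = 1 <<< n := Nat.eq_of_beq_eq_true c1
    rw [Nat.one_shiftLeft] at this
    omega
  have oc : ∀ i, i < n ↔ ∃ b c, (i, b, c) ∈ darts L := fun i => by
    rw [← vm_test, c1, Nat.testBit_two_pow_sub_one, decide_eq_true_eq]
  have lt : ∀ a b c, (a, b, c) ∈ darts L → a < 16 := fun a b c m =>
    ((oc a).2 ⟨b, c, m⟩).trans_le le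
  cases z : Nat.beq (nd L) 0
  swap
  · simp [z] at c2
  rw [z, cond_false] at c2
  refine ⟨le, fun a b c m => (oc a).2 ⟨b, c, m⟩, fun i hi => (oc i).1 hi,
    (nd_spec L (Nat.ne_of_beq_eq_false z)).1, fun s r e => ?_⟩
  rcases L with _ | ⟨t0, L0⟩
  · simp [Kn, darts]
  generalize hL : t0 :: L0 = L at *
  have m0 : t0 ∈ L := hL ▸ List.mem_cons_self
  let I : ℕ → Prop := fun R => ∀ a b, b < 16 → R.testBit (16 * a + b) = true →
    Kn L a b ∧ s a b = s t0.1 t0.2.1
  have ad : ∀ R p q w, I R → (p, q, w) ∈ darts L → s p q = s t0.1 t0.2.1 → I (addE R p q w) := by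
    intro R p q w i m h a b hb k
    have m1 := darts_rot m
    have m2 := darts_rot m1
    have := lt _ _ _ m
    have := lt _ _ _ m1
    have := lt _ _ _ m2
    simp only [addE, test_lor, test_bt, ix_eq, Bool.or_eq_true, decide_eq_true_eq] at k
    rcases k with ((k | k) | k) | k
    · exact i a b hb k
    · obtain ⟨rfl, rfl⟩ : p = a ∧ q = b := by omega
      exact ⟨⟨_, m⟩, h⟩
    · obtain ⟨rfl, rfl⟩ : q = a ∧ w = b := by omega
      exact ⟨⟨_, m1⟩, (r _ _ _ m).symm.trans h⟩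
    · obtain ⟨rfl, rfl⟩ : w = a ∧ p = b := by omega
      exact ⟨⟨_, m2⟩, (r _ _ _ m2).trans h⟩
  have ps : ∀ l : List Tr, (∀ t ∈ l, t ∈ L) → ∀ R, I R → I (pass l R) := by
    intro l
    induction l with
    | nil => exact fun _ _ i => i
    | cons t l ih =>
      intro sub R i
      obtain ⟨p, q, w⟩ := t
      refine ih (fun t ht => sub t (List.mem_cons_of_mem _ ht)) (cond (cond (tb R (ix q p)) true
        (cond (tb R (ix w q)) true (tb R (ix p w)))) (addE R p q w) R) ?_
      have m := mem_darts (sub _ List.mem_cons_self)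
      have m1 := darts_rot m
      have m2 := darts_rot m1
      simp only [tb_eq, ix_eq]
      cases c1 : R.testBit (16 * q + p)
      · cases c2 : R.testBit (16 * w + q)
        · cases c3 : R.testBit (16 * p + w)
          · exact i
          · obtain ⟨k, h⟩ := i _ _ (lt _ _ _ m2) c3
            exact ad _ _ _ _ i m ((r _ _ _ m2).symm.trans ((e _ _ ⟨_, m2⟩ k).trans h))
        · obtain ⟨k, h⟩ := i _ _ (lt _ _ _ m1) c2
          exact ad _ _ _ _ i m ((r _ _ _ m).trans ((e _ _ ⟨_, m1⟩ k).trans h))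
      · obtain ⟨k, h⟩ := i _ _ (lt _ _ _ m) c1
        exact ad _ _ _ _ i m ((e _ _ ⟨_, m⟩ k).trans h)
  have it : ∀ k : ℕ, I (Nat.rec (addE 0 t0.1 t0.2.1 t0.2.2) (fun _ R => pass L R) k) := by
    intro k
    induction k with
    | zero => exact ad 0 _ _ _ (fun a b _ k => by simp at k) (mem_darts m0) rfl
    | succ k ih => exact ps L (fun _ h => h) _ ih
  have c2 : allR (Nat.rec (addE 0 t0.1 t0.2.1 t0.2.2) (fun _ R => pass L R) k) L = true := by
    subst hL; exact c2
  have i := it k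
  generalize (Nat.rec (addE 0 t0.1 t0.2.1 t0.2.2) (fun _ R => pass L R) k : ℕ) = R at c2 i
  have al : ∀ l : List Tr, allR R l = true → ∀ t ∈ l, R.testBit (16 * t.1 + t.2.1) = true := by
    intro l
    induction l with
    | nil => simp
    | cons t l ih =>
      intro c u hu
      have c : cond (tb R (ix t.1 t.2.1)) (allR R l) false = true := c
      rw [Bool.cond_false_right, Bool.and_eq_true, tb_eq, ix_eq] at c
      rcases List.mem_cons.1 hu with rfl | hu
      · exact c.1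
      · exact ih c.2 u hu
  have fin : ∀ a b, Kn L a b → s a b = s t0.1 t0.2.1 := fun a b ⟨c, m⟩ =>
    (darts_ind (fun a b c => (a, b, c) ∈ darts L ∧ s a b = s t0.1 t0.2.1)
      (fun a b c h => ⟨darts_rot h.1, (r _ _ _ h.1).symm.trans h.2⟩)
      (fun t ht => ⟨mem_darts ht, (i _ _ (lt _ _ _ (darts_rot (mem_darts ht))) (al L c2 t ht)).2⟩)
      m).2
  intro a b a' b' h h'
  rw [fin _ _ h, fin _ _ h']

variable {V : Type} [Fintype V] [DecidableEq V] {T : Finset (V × V × V)}

/-- the triangles `(0, i, i + 1)` for `i = 1, ..., k` -/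
def fan : ℕ → List Tr
  | 0 => []
  | k + 1 => (0, k + 1, k + 2) :: fan k

/-- the closed star of degree `k + 1` -/
def wheel (d : ℕ) : List Tr := (0, d, 1) :: fan (d - 1)

theorem mem_fan {k a b c : ℕ} : (a, b, c) ∈ darts (fan k) ↔
    (a = 0 ∧ 1 ≤ b ∧ b ≤ k ∧ c = b + 1) ∨ (c = 0 ∧ 1 ≤ a ∧ a ≤ k ∧ b = a + 1) ∨
      (b = 0 ∧ 1 ≤ c ∧ c ≤ k ∧ a = c + 1) := by
  induction k with
  | zero => simp [fan, darts]; omega
  | succ k ih => simp only [fan, darts, List.mem_cons, Prod.mk.injEq, ih]; omega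

theorem kn_fan {k a b : ℕ} : Kn (fan k) a b ↔
    (a = 0 ∧ 1 ≤ b ∧ b ≤ k) ∨ (1 ≤ a ∧ a ≤ k ∧ b = a + 1) ∨ (b = 0 ∧ 2 ≤ a ∧ a ≤ k + 1) := by
  simp only [Kn, mem_fan]
  constructor
  · rintro ⟨c, h⟩; omega
  · rintro (h | h | h)
    · exact ⟨b + 1, by omega⟩
    · exact ⟨0, by omega⟩
    · exact ⟨a - 1, by omega⟩

theorem ok_fan (k : ℕ) : Ok (k + 3) (fan (k + 1)) := by
  induction k with
  | zero => exact ok_one
  | succ k ih =>
    exact ih.step (a := k + 2) (b := 0) (d := k + 3) (kn_fan.2 (by omega))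
      (by rw [kn_fan]; omega) (by rw [kn_fan]; omega) (by rw [kn_fan]; omega) (by omega) (by omega)
      fun i hi => by omega

theorem ok_wheel (k : ℕ) : Ok (k + 4) (wheel (k + 3)) :=
  (ok_fan (k + 1)).step (a := k + 3) (b := 0) (d := 1) (kn_fan.2 (by omega))
    (by rw [kn_fan]; omega) (by rw [kn_fan]; omega) (by rw [kn_fan]; omega) le_rfl (by omega)
    fun i hi => Or.inl hi

theorem fan_step (h : IsCx T) {k : ℕ} {ι : ℕ → V} (e : Emb T (k + 3) (fan (k + 1)) ι) :
    (∃ ι' : ℕ → V, ι' 0 = ι 0 ∧ Emb T (k + 4) (fan (k + 2)) ι') ∨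
      (1 ≤ k ∧ Emb T (k + 3) (wheel (k + 2)) ι) := by
  have o := ok_fan k
  let P : List (ℕ × ℕ) := (List.range (k + 3)).map fun i => (i, (i + 1) % (k + 3))
  have mP : ∀ p ∈ P, p.1 < k + 3 ∧ (p.1 < k + 2 ∧ p.2 = p.1 + 1 ∨ p.1 = k + 2 ∧ p.2 = 0) := by
    intro p hp
    obtain ⟨i, hi, rfl⟩ := List.mem_map.1 hp
    have hi := List.mem_range.1 hi
    refine ⟨hi, ?_⟩
    rcases Nat.lt_succ_iff_lt_or_eq.1 hi with hi | rfl
    · exact Or.inl ⟨hi, Nat.mod_eq_of_lt (by omega)⟩
    · exact Or.inr ⟨rfl, Nat.mod_self _⟩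
  have cyc : (P.map Prod.fst).Perm (P.map Prod.snd) := by
    have e1 : P.map Prod.fst = List.range (k + 3) := by simp [P, Function.comp_def]
    have e2 : P.map Prod.snd = (List.range (k + 3)).rotate 1 := by
      apply List.ext_getElem (by simp [P])
      intro i h1 h2
      simp [P, List.getElem_rotate]
    rw [e1, e2]
    exact (List.rotate_perm _ _).symm
  rcases e.grow h o P cyc (fun p hp => by have := mP p hp; rw [kn_fan, kn_fan]; omega)
    (a := k + 2) (b := 0) (List.mem_map.2 ⟨k + 2, by simp, by simp⟩) with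
    ⟨-, ι', ag, e'⟩ | ⟨d, hd, d1, d2, c1, c2, c3, c4, c5, e'⟩
  · exact Or.inl ⟨ι', ag 0 (by omega), e'⟩
  · obtain ⟨p, hp, rfl⟩ := List.mem_map.1 hd
    have := (mP p hp).1
    rw [kn_fan] at c2
    rw [mem_fan] at c5
    have q : p.1 = 1 := by omega
    rw [q] at e'
    exact Or.inr ⟨by omega, e'⟩

theorem deg_wheel (h : IsCx T) {k : ℕ} {ι : ℕ → V} (e : Emb T (k + 4) (wheel (k + 3)) ι) :
    deg T (ι 0) ≤ k + 3 := by
  have := e.deg_le h (ok_wheel k) (v := 0) (by omega) (fun c => by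
    rw [wheel, kn_cons, kn_cons, kn_fan, kn_fan]; omega) (Finset.Icc 1 (k + 3))
    fun b => by rw [wheel, kn_cons, kn_fan, Finset.mem_Icc]; omega
  simpa using this

theorem deg_fan (h : IsCx T) {k : ℕ} {ι : ℕ → V} (e : Emb T (k + 3) (fan (k + 1)) ι) :
    k + 2 ≤ deg T (ι 0) := by
  have := e.nb_le h (ok_fan k) 0 (Finset.Icc 1 (k + 2))
    fun b => by rw [kn_fan, kn_fan, Finset.mem_Icc]; omega
  simpa using this

/-- A vertex of degree more than `k + 1` carries a fan of `k + 1` triangles. -/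
theorem exists_fan (h : IsCx T) (v : V) (k : ℕ) (hd : k + 1 < deg T v) :
    ∃ ι : ℕ → V, ι 0 = v ∧ Emb T (k + 3) (fan (k + 1)) ι := by
  induction k with
  | zero => exact start h v
  | succ k ih =>
    obtain ⟨ι, i0, e⟩ := ih (by omega)
    rcases fan_step h e with ⟨ι', q, e'⟩ | ⟨hk, e'⟩
    · exact ⟨ι', q.trans i0, e'⟩
    · obtain ⟨j, rfl⟩ : ∃ j, k = j + 1 := ⟨k - 1, by omega⟩
      have := deg_wheel h e'
      rw [i0] at this
      omega

/-- A vertex of degree `k + 3` carries a wheel. -/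
theorem exists_wheel (h : IsCx T) (v : V) (k : ℕ) (hd : deg T v = k + 3) :
    ∃ ι : ℕ → V, ι 0 = v ∧ Emb T (k + 4) (wheel (k + 3)) ι := by
  obtain ⟨ι, i0, e⟩ := exists_fan h v (k + 1) (by omega)
  rcases fan_step h e with ⟨ι', q, e'⟩ | ⟨-, e'⟩
  · have := deg_fan h e'
    rw [q, i0] at this
    omega
  · exact ⟨ι, i0, e'⟩

end Pool.Agent.Lib.MP_f3b2fd_co.KEP.En
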