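import Mathlib
import Pool.Agent.Lib.MP_f3b2fd_co.KEP.B.EnumB

set_option autoImplicit false
set_option linter.unusedSectionVars false
set_option linter.unusedVariables false

namespace Pool.Agent.Lib.MP_f3b2fd_co.KEP.En

/-- the degree window at `v` is still possible -/
noncomputable def vok (HI LO S X v : ℕ) : Bool :=
  frc false (nbB S v) fun p => cond (Nat.ble p (fld HI v))
    (cond (closedB X v) (Nat.ble (fld LO v) p) true) false

/-- add the triangle `(b, a, d)` and hand the state to `f`, unless a degree window fails -/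
noncomputable def child {α : Type} (z : α) (HI LO : ℕ) (f : St → α → α) (n E ET D : ℕ)
    (L : List Tr) (b a d : ℕ) (H : List (List ℕ)) (acc : α) : α :=
  frc z (addE E b a d) fun E' => frc z (addE ET b d a) fun ET' => frc z (Nat.lor E' ET') fun S =>
    frc z (Nat.xor E' ET') fun X => cond (vok HI LO S X a) (cond (vok HI LO S X b)
      (cond (vok HI LO S X d) (frc z (addD D b a d) fun D' => frc z n fun n' =>
        f ⟨n', E', ET', D', (b, a, d) :: L, H⟩ acc) acc) acc) acc

/-- reverse and append -/
noncomputable def rv (l : List ℕ) : List ℕ → List ℕ :=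
  List.rec (fun r => r) (fun x _ ih r => ih (x :: r)) l

/-- the holes after a triangle whose third vertex lies on the hole -/
noncomputable def holes (a b d : ℕ) (pre post : List ℕ) (R : List (List ℕ)) : List (List ℕ) :=
  List.rec (List.rec R (fun _ _ _ => (d :: b :: rv pre []) :: R) pre)
    (fun _ _ _ => (a :: d :: post) :: List.rec R (fun _ _ _ => (d :: b :: rv pre []) :: R) pre) post

/-- the children with an old third vertex -/
noncomputable def olds {α : Type} (z : α) (HI LO : ℕ) (f : St → α → α) (n E ET D : ℕ)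
    (L : List Tr) (a b B M : ℕ) (R : List (List ℕ)) (acc : α) (l : List ℕ) : List ℕ → α :=
  List.rec (fun _ => acc) (fun d post ih pre => cond (badB B M a d) (ih (d :: pre))
    (child z HI LO f n E ET D L b a d (holes a b d pre post R) (ih (d :: pre)))) l

/-- the child with a new third vertex -/
noncomputable def news {α : Type} (z : α) (nmax HI LO : ℕ) (f : St → α → α) (n E ET D : ℕ)
    (L : List Tr) (a b : ℕ) (H : List (List ℕ)) (acc : α) : α :=
  cond (Nat.blt n nmax) (child z HI LO f (Nat.succ n) E ET D L b a n H acc) acc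

/-- One growth step across the first edge of the hole `a :: b :: l`, folded over the children. -/
noncomputable def grow {α : Type} (z : α) (nmax HI LO : ℕ) (f : St → α → α) (n E ET D : ℕ)
    (L : List Tr) (a b : ℕ) (l : List ℕ) (R : List (List ℕ)) (acc : α) : α :=
  frc z (wm a (b :: l) a) fun M => cond (walkB E ET M a (b :: l))
    (frc z (Nat.xor E M) fun M' => frc z (badR E ET M' a b) fun B =>
      news z nmax HI LO f n E ET D L a b ((a :: n :: b :: l) :: R)
        (olds z HI LO f n E ET D L a b B M' R acc l [])) z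

/-- Grow at the first hole, or call `lf` if there is none. -/
noncomputable def step {α : Type} (z : α) (nmax HI LO : ℕ) (lf f : St → α → α) (s : St)
    (acc : α) : α :=
  St.rec (fun n E ET D L H => List.rec (lf s acc) (fun w R _ => List.rec z (fun a l _ =>
    List.rec z (fun b l _ => grow z nmax HI LO f n E ET D L a b l R acc) l) w) H) s

theorem blt_iff {a b : ℕ} : Nat.blt a b = true ↔ a < b := by rw [Nat.blt_eq]

variable {V : Type} [Fintype V] [DecidableEq V]

/-- The state leads to the goal. -/
def Good (T : Finset (V × V × V)) (Ex : ℕ → (ℕ → V) → Prop) (G : Prop) (s : St) : Prop :=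
  ∀ ι, Rep s.n s.E s.ET s.D s.L → Emb T s.n s.L ι → Ex s.n ι → G

/-- What the step needs from the extra predicate. -/
structure ExOk (T : Finset (V × V × V)) (Ex : ℕ → (ℕ → V) → Prop) (nmax HI LO : ℕ) : Prop where
  cx : IsCx T
  card : Fintype.card V ≤ nmax
  le : nmax ≤ 16
  ext : ∀ n ι ι', Ex n ι → (∀ i < n, ι' i = ι i) → Ex (n + 1) ι'
  deg : ∀ n L ι, Ex n ι → Emb T n L ι → n ≤ 16 → ∀ v < n,
    fld LO v ≤ deg T (ι v) ∧ deg T (ι v) ≤ fld HI v

variable {T : Finset (V × V × V)} {Ex : ℕ → (ℕ → V) → Prop} {G : Prop} {nmax HI LO : ℕ}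
  {α : Type} {z : α} {Q : α → Prop} {lf f : St → α → α}

theorem vok_true (x : ExOk T Ex nmax HI LO) {n E ET D : ℕ} {L : List Tr} {ι : ℕ → V}
    (R : Rep n E ET D L) (e : Emb T n L ι) (hx : Ex n ι) {v : ℕ} (hv : v < n) :
    vok HI LO (Nat.lor E ET) (Nat.xor E ET) v = true := by
  obtain ⟨d1, d2⟩ := x.deg n L ι hx e R.le v hv
  rw [vok, frc_eq, Nat.ble_eq_true_of_le ((R.nb_le x.cx e v).trans d2), cond_true]
  cases c : closedB (Nat.xor E ET) v
  · rfl
  · exact Nat.ble_eq_true_of_le (d1.trans (R.deg_le x.cx e hv c))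

theorem child_sound (x : ExOk T Ex nmax HI LO)
    (hf : ∀ s a, Q (f s a) → Good T Ex G s ∧ Q a) {n E ET D : ℕ} {L : List Tr} {b a d : ℕ}
    {H : List (List ℕ)} {acc : α} (q : Q (child z HI LO f n E ET D L b a d H acc)) :
    Q acc ∧ ∀ ι, Rep n (addE E b a d) (addE ET b d a) (addD D b a d) ((b, a, d) :: L) →
      Emb T n ((b, a, d) :: L) ι → Ex n ι → a < n → b < n → d < n → G := by
  simp only [child, frc_eq] at q
  refine ⟨?_, fun ι R e hx ha hb hd => ?_⟩
  · revert q
    cases vok HI LO _ _ a <;> cases vok HI LO _ _ b <;> cases vok HI LO _ _ d <;>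
      first | exact id | exact fun q => (hf _ _ q).2
  · rw [vok_true x R e hx ha, vok_true x R e hx hb, vok_true x R e hx hd] at q
    exact (hf _ _ q).1 ι R e hx

theorem olds_sound (x : ExOk T Ex nmax HI LO)
    (hf : ∀ s a, Q (f s a) → Good T Ex G s ∧ Q a) {n E ET D : ℕ} {L : List Tr} {a b B M : ℕ}
    {R : List (List ℕ)} {acc : α} (l pre : List ℕ)
    (q : Q (olds z HI LO f n E ET D L a b B M R acc l pre)) :
    Q acc ∧ ∀ d ∈ l, badB B M a d = false →
      ∀ ι, Rep n (addE E b a d) (addE ET b d a) (addD D b a d) ((b, a, d) :: L) →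
      Emb T n ((b, a, d) :: L) ι → Ex n ι → a < n → b < n → d < n → G := by
  induction l generalizing pre with
  | nil => exact ⟨q, by simp⟩
  | cons d post ih =>
    have q : Q (cond (badB B M a d) (olds z HI LO f n E ET D L a b B M R acc post (d :: pre))
      (child z HI LO f n E ET D L b a d (holes a b d pre post R)
        (olds z HI LO f n E ET D L a b B M R acc post (d :: pre)))) := q
    cases c : badB B M a d
    · rw [c, cond_false] at q
      obtain ⟨q1, q2⟩ := child_sound x hf q
      refine ⟨(ih _ q1).1, fun d' hd => ?_⟩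
      rcases List.mem_cons.1 hd with rfl | hd
      · exact fun _ => q2
      · exact (ih _ q1).2 d' hd
    · rw [c, cond_true] at q
      refine ⟨(ih _ q).1, fun d' hd => ?_⟩
      rcases List.mem_cons.1 hd with rfl | hd
      · exact fun c' => absurd (c.symm.trans c') (by simp)
      · exact (ih _ q).2 d' hd

theorem grow_sound (x : ExOk T Ex nmax HI LO) (hz : ¬Q z)
    (hf : ∀ s a, Q (f s a) → Good T Ex G s ∧ Q a) {n E ET D : ℕ} {L : List Tr} {a b : ℕ}
    {l : List ℕ} {R : List (List ℕ)} {acc : α}
    (q : Q (grow z nmax HI LO f n E ET D L a b l R acc)) :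
    (∀ ι, Rep n E ET D L → Emb T n L ι → Ex n ι → G) ∧ Q acc := by
  simp only [grow, frc_eq] at q
  cases w : walkB E ET (wm a (b :: l) a) a (b :: l)
  · rw [w] at q; exact absurd q hz
  rw [w, cond_true, news] at q
  cases c : Nat.blt n nmax
  · rw [c, cond_false] at q
    obtain ⟨q1, q2⟩ := olds_sound x hf _ _ q
    refine ⟨fun ι Rp e hx => ?_, q1⟩
    rcases Rp.grow x.cx e w with ⟨hn, -⟩ | ⟨d, hd, bd, ha, hb, dn, e', R'⟩
    · rw [blt_iff.2 (hn.trans_le x.card)] at c
      exact Bool.noConfusion c
    · exact q2 d hd bd ι R' e' hx ha hb dn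
  · rw [c, cond_true] at q
    obtain ⟨q0, q3⟩ := child_sound x hf q
    obtain ⟨q1, q2⟩ := olds_sound x hf _ _ q0
    refine ⟨fun ι Rp e hx => ?_, q1⟩
    rcases Rp.grow x.cx e w with ⟨hn, ha, hb, ι', ag, e', R'⟩ | ⟨d, hd, bd, ha, hb, dn, e', R'⟩
    · exact q3 ι' (R' ((blt_iff.1 c).trans_le x.le)) e' (x.ext _ _ _ hx ag)
        (ha.trans n.lt_succ_self) (hb.trans n.lt_succ_self) n.lt_succ_self
    · exact q2 d hd bd ι R' e' hx ha hb dn

theorem step_sound (x : ExOk T Ex nmax HI LO) (hz : ¬Q z)
    (hl : ∀ s a, Q (lf s a) → Good T Ex G s ∧ Q a)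
    (hf : ∀ s a, Q (f s a) → Good T Ex G s ∧ Q a) (s : St) (acc : α)
    (q : Q (step z nmax HI LO lf f s acc)) : Good T Ex G s ∧ Q acc := by
  obtain ⟨n, E, ET, D, L, H⟩ := s
  rcases H with _ | ⟨_ | ⟨a, _ | ⟨b, l⟩⟩, R⟩
  · exact hl _ _ q
  · exact absurd q hz
  · exact absurd q hz
  · exact grow_sound x hz hf q

/-- drop -/
noncomputable def dr {β : Type} (i : ℕ) : List β → List β :=
  Nat.rec (fun l => l) (fun _ ih l => List.rec [] (fun _ t _ => ih t) l) i

/-- take -/
noncomputable def tk {β : Type} (i : ℕ) : List β → List β :=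
  Nat.rec (fun _ => []) (fun _ ih l => List.rec [] (fun x t _ => x :: ih t) l) i

theorem dr_eq {β : Type} (i : ℕ) (l : List β) : dr i l = l.drop i := by
  induction i generalizing l with
  | zero => rfl
  | succ i ih => cases l with
    | nil => rfl
    | cons x t => exact ih t

theorem tk_eq {β : Type} (i : ℕ) (l : List β) : tk i l = l.take i := by
  induction i generalizing l with
  | zero => rfl
  | succ i ih => cases l with
    | nil => rfl
    | cons x t => exact congrArg (x :: ·) (ih t)

/-- a table of labelled triangulations -/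
abbrev Tab := ℕ → ℕ × List Tr

/-- the complete state is the stored graph named by the hint `x` -/
noncomputable def goB (GG : Tab) (n D x : ℕ) : Bool :=
  Prod.rec (fun n' L' => cond (Nat.beq n' n) (frc false (Nat.shiftRight x 15) fun σ =>
      cond (tb x 14) (gotoB n D n' L' σ true) (gotoB n D n' L' σ false)) false)
    (GG (Nat.land x 16383))

/-- `T` or its mirror image is one of the stored graphs -/
def Goal (T : Finset (V × V × V)) (GG : Tab) : Prop :=
  ∃ k, ∃ ι : ℕ → V, (GG k).1 = Fintype.card V ∧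
    (Emb T (GG k).1 (GG k).2 ι ∨ Emb (mirT T) (GG k).1 (GG k).2 ι)

theorem goB_sound {GG : Tab} {n E ET D y : ℕ} {L : List Tr} {ι : ℕ → V} (h : IsCx T)
    (R : Rep n E ET D L) (e : Emb T n L ι) (hn : n = Fintype.card V)
    (c : goB GG n D y = true) : Goal T GG := by
  unfold goB at c
  refine ⟨Nat.land y 16383, ?_⟩
  generalize GG (Nat.land y 16383) = g at c ⊢
  obtain ⟨n', L'⟩ := g
  simp only [frc_eq, Bool.cond_false_right, Bool.and_eq_true] at c
  obtain rfl := Nat.eq_of_beq_eq_true c.1
  have c := c.2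
  cases t : tb y 14 <;> rw [t] at c
  · exact ⟨_, hn, Or.inl (R.goto h e c).1⟩
  · exact ⟨_, hn, Or.inr (R.goto h e c).1⟩

/-- the check at a state without holes; the counter names the next hint -/
noncomputable def lfN (nmin : ℕ) (GG : Tab) (HT : ℕ) (s : St) (c : ℕ) : ℕ :=
  Nat.rec 0 (fun m _ => St.rec (fun n E ET D _ _ => cond (Nat.beq E ET)
    (cond (Nat.blt n nmin) (Nat.succ m)
      (frc 0 (Nat.land (Nat.shiftRight HT (Nat.mul 80 m)) 1208925819614629174706175) fun y =>
        cond (goB GG n D y) (Nat.succ (Nat.succ m)) 0)) 0) s) c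

/-- the whole subtree -/
noncomputable def run (nmin nmax HI LO : ℕ) (GG : Tab) (HT k : ℕ) : St → ℕ → ℕ :=
  Nat.rec (fun _ _ => 0) (fun _ ih s c => Nat.rec 0
    (fun m _ => step 0 nmax HI LO (lfN nmin GG HT) ih s (Nat.succ m)) c) k

theorem run_sound {nmin HT : ℕ} {GG : Tab} (x : ExOk T Ex nmax HI LO)
    (hm : nmin ≤ Fintype.card V) (k : ℕ) (s : St) (c : ℕ)
    (q : run nmin nmax HI LO GG HT k s c ≠ 0) : Good T Ex (Goal T GG) s ∧ c ≠ 0 := by
  induction k generalizing s c with
  | zero => exact absurd rfl q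
  | succ k ih =>
    rcases c with _ | m
    · exact absurd rfl q
    refine step_sound (Q := fun c => c ≠ 0) x (by simp) ?_ ih s _ q
    rintro ⟨n, E, ET, D, L, H⟩ (_ | m) q
    · exact absurd rfl q
    refine ⟨fun ι R e _ => ?_, m.succ_ne_zero⟩
    simp only [lfN, frc_eq] at q
    cases c : Nat.beq E ET
    · simp [c] at q
    have hn := (R.card x.cx e c).2
    simp only at hn
    cases b : Nat.blt n nmin
    · rw [c, b, cond_true, cond_false] at q
      refine goB_sound x.cx R e hn (y := Nat.land (Nat.shiftRight HT (Nat.mul 80 m))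
        1208925819614629174706175) ?_
      by_contra g
      rw [Bool.eq_false_iff.2 g] at q
      exact q rfl
    · have := blt_iff.1 b
      omega

/-- the states at depth `k` -/
noncomputable def front (nmax HI LO k : ℕ) : St → Option (List St) → Option (List St) :=
  Nat.rec (fun s o => Option.rec none (fun l => some (s :: l)) o)
    (fun _ ih s o => Option.rec none (fun l => step none nmax HI LO
      (fun s o => Option.rec none (fun l => some (s :: l)) o) ih s (some l)) o) k

theorem front_sound (x : ExOk T Ex nmax HI LO) (k : ℕ) (s : St) (o : Option (List St))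
    (q : ∃ l, front nmax HI LO k s o = some l ∧ ∀ s ∈ l, Good T Ex G s) :
    Good T Ex G s ∧ ∃ l, o = some l ∧ ∀ s ∈ l, Good T Ex G s := by
  have base : ∀ (s : St) (o : Option (List St)), (∃ l, (Option.rec none (fun l => some (s :: l)) o :
      Option (List St)) = some l ∧ ∀ s ∈ l, Good T Ex G s) →
      Good T Ex G s ∧ ∃ l, o = some l ∧ ∀ s ∈ l, Good T Ex G s := by
    rintro s (_ | l) ⟨l', e, g⟩
    · exact absurd e (by simp)
    · obtain rfl := Option.some.inj e
      exact ⟨g _ List.mem_cons_self, l, rfl, fun s hs => g s (List.mem_cons_of_mem _ hs)⟩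
  induction k generalizing s o with
  | zero => exact base s o q
  | succ k ih =>
    rcases o with _ | l
    · obtain ⟨l, e, -⟩ := q
      exact absurd (show (none : Option (List St)) = some l from e) (by simp)
    exact step_sound (Q := fun o => ∃ l, o = some l ∧ ∀ s ∈ l, Good T Ex G s) x (by simp) base ih
      s _ q

/-- the first triangle -/
def root : St := ⟨3, addE 0 0 1 2, addE 0 0 2 1, addD 0 0 1 2, [(0, 1, 2)], [[0, 1, 2]]⟩

/-- the subtrees of the states number `i` to `i + m - 1` at depth `k` -/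
noncomputable def chk (nmin nmax HI LO : ℕ) (GG : Tab) (k i m HT : ℕ) : Bool :=
  Option.rec false (fun l => Nat.blt 0
    (List.rec 1 (fun s _ ih => run nmin nmax HI LO GG HT 40 s ih) (tk m (dr i l))))
    (front nmax HI LO k root (some []))

/-- there are at most `i` states at depth `k` -/
noncomputable def fin (nmax HI LO k i : ℕ) : Bool :=
  Option.rec false (fun l => List.rec true (fun _ _ _ => false) (dr i l))
    (front nmax HI LO k root (some []))

/-- all states from number `i` on lead to the goal -/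
def From (nmin nmax HI LO : ℕ) (GG : Tab) (k i : ℕ) : Prop :=
  ∀ (V : Type) [Fintype V] [DecidableEq V] (T : Finset (V × V × V)) (Ex : ℕ → (ℕ → V) → Prop),
    ExOk T Ex nmax HI LO → nmin ≤ Fintype.card V →
    ∃ l, front nmax HI LO k root (some []) = some l ∧ ∀ s ∈ l.drop i, Good T Ex (Goal T GG) s

theorem fin_sound {nmin k i : ℕ} {GG : Tab} (c : fin nmax HI LO k i = true) :
    From nmin nmax HI LO GG k i := by
  intro V _ _ T Ex _ _
  unfold fin at c
  rcases e : front nmax HI LO k root (some []) with _ | l <;> rw [e] at c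
  · exact Bool.noConfusion c
  refine ⟨l, rfl, ?_⟩
  simp only [dr_eq] at c
  rcases e' : l.drop i with _ | ⟨s, t⟩ <;> rw [e'] at c
  · simp
  · exact Bool.noConfusion c

theorem chk_sound {nmin k : ℕ} (i m : ℕ) {HT : ℕ} {GG : Tab}
    (c : chk nmin nmax HI LO GG k i m HT = true) (p : From nmin nmax HI LO GG k (i + m)) :
    From nmin nmax HI LO GG k i := by
  intro V _ _ T Ex x hm
  obtain ⟨l, e, g⟩ := p V T Ex x hm
  refine ⟨l, e, ?_⟩
  unfold chk at c
  rw [e] at c
  simp only [dr_eq, tk_eq, Nat.blt_eq] at c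
  have all : ∀ r : List St, (List.rec 1 (fun s _ ih => run nmin nmax HI LO GG HT 40 s ih) r : ℕ)
      ≠ 0 → ∀ s ∈ r, Good T Ex (Goal T GG) s := by
    intro r
    induction r with
    | nil => simp
    | cons s r ih =>
      intro q s' hs
      obtain ⟨q1, q2⟩ := run_sound x hm 40 s _ q
      rcases List.mem_cons.1 hs with rfl | hs
      · exact q1
      · exact ih q2 s' hs
  intro s hs
  rw [← List.take_append_drop m (l.drop i), List.mem_append, List.drop_drop] at hs
  exact hs.elim (all _ c.ne' s) (g s)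

/-- The enumeration from a vertex `v` whose degree window is field `0`; all other vertices have
the window of the fields `1` to `15`. -/
theorem From.goal {nmin k : ℕ} {GG : Tab} (p : From nmin nmax HI LO GG k 0) (le : nmax ≤ 16)
    (h : IsCx T) (h1 : nmin ≤ Fintype.card V) (h2 : Fintype.card V ≤ nmax) (v : V)
    (hv : fld LO 0 ≤ deg T v ∧ deg T v ≤ fld HI 0)
    (hw : ∀ w, ∀ j < 16, 0 < j → fld LO j ≤ deg T w ∧ deg T w ≤ fld HI j) : Goal T GG := by
  have x : ExOk T (fun n ι => 0 < n ∧ ι 0 = v) nmax HI LO := by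
    refine ⟨h, h2, le, fun n ι ι' e ag => ⟨n.succ_pos, (ag 0 e.1).trans e.2⟩,
      fun n L ι e _ hn i hi => ?_⟩
    rcases Nat.eq_zero_or_pos i with rfl | pos
    · rw [e.2]; exact hv
    · exact hw _ i (hi.trans_le hn) pos
  obtain ⟨l, e, g⟩ := p V T _ x h1
  obtain ⟨ι, i0, em⟩ := start h v
  exact (front_sound x k root _ ⟨l, e, g⟩).1 ι rep_one em ⟨by decide, i0⟩

/-- the degrees add up to the number of darts -/
theorem sum_deg (h : IsCx T) : ∑ v, deg T v + 12 = 6 * Fintype.card V := by
  rw [← h.card, Finset.card_eq_sum_card_fiberwise (f := fun t => t.1) (t := Finset.univ)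
    (fun _ _ => by simp)]
  rfl

theorem exists_six (h : IsCx T) (h1 : 13 ≤ Fintype.card V) : ∃ v, 6 ≤ deg T v := by
  by_contra c
  have : ∑ v, deg T v ≤ ∑ _v : V, 5 :=
    Finset.sum_le_sum fun v _ => by have := not_exists.1 c v; omega
  rw [Finset.sum_const, Finset.card_univ, smul_eq_mul] at this
  have := sum_deg h
  omega

end Pool.Agent.Lib.MP_f3b2fd_co.KEP.En
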