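import Mathlib
import Pool.Agent.Lib.MP_f3b2fd_co.KEP.B.Count

set_option autoImplicit false

open Real Filter Topology

namespace Pool.Agent.Lib.MP_f3b2fd_co.KEP

variable {V : Type}

theorem ev_pos {A : ℝ} (B : ℝ) (h : 0 < A) : ∀ᶠ ε in 𝓝[>] (0 : ℝ), 0 < A + ε * B := by
  have h1 : Tendsto (fun ε : ℝ => A + ε * B) (𝓝 0) (𝓝 (A + 0 * B)) :=
    (by fun_prop : Continuous fun ε : ℝ => A + ε * B).tendsto 0
  rw [zero_mul, add_zero] at h1
  exact (h1.eventually (lt_mem_nhds h)).filter_mono nhdsWithin_le_nhds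

theorem ev_ne (A : ℝ) {B : ℝ} (h : B ≠ 0) : ∀ᶠ ε in 𝓝[>] (0 : ℝ), A + ε * B ≠ 0 := by
  rcases lt_trichotomy A 0 with k | rfl | k
  · filter_upwards [ev_pos (-B) (neg_pos.2 k)] with ε hε
    linarith
  · filter_upwards [self_mem_nhdsWithin] with ε hε
    rw [zero_add]
    exact mul_ne_zero (ne_of_gt hε) h
  · filter_upwards [ev_pos B k] with ε hε
    exact hε.ne'

/-- The excess of the constraint `d` at the dual point of `a b e`. -/
def exc (u : V → E3) (c : V → ℝ) (a b e d : V) : ℝ :=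
  dt3 (u b) (u e) (u d) * c a + dt3 (u e) (u a) (u d) * c b + dt3 (u a) (u b) (u d) * c e -
    dt3 (u a) (u b) (u e) * c d

theorem exc_eq {u : V → E3} {c : V → ℝ} {y : E3} {a b e : V} (h : Act u c y a b e) (d : V) :
    dt3 (u a) (u b) (u e) * (inner ℝ y (u d) - c d) = exc u c a b e d := by
  rw [mul_sub, cramer, h.1, h.2.1, h.2.2, exc]

theorem exists_act (u : V → E3) (c : V → ℝ) {a b e : V} (h : 0 < dt3 (u a) (u b) (u e)) :
    ∃ y, Act u c y a b e := by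
  refine ⟨(dt3 (u a) (u b) (u e))⁻¹ • (c a • cx (u b) (u e) + c b • cx (u e) (u a) +
    c e • cx (u a) (u b)), ?_, ?_, ?_⟩ <;>
    simp only [real_inner_smul_left, inner_add_left, cx_ip, dt_aba, dt_abb]
  · rw [dt_rot (u a) (u b) (u e)]; field_simp; ring
  · rw [← dt_rot (u e) (u a) (u b)]; field_simp; ring
  · field_simp; ring

theorem exists_pert [Fintype V] (u : V → E3) (c : V → ℝ) (hu : ∀ v, ‖u v‖ = 1)
    (hc : ∀ v w, v ≠ w → c v * inner ℝ (u v) (u w) < c w)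
    (hb : ∀ x : E3, x ≠ 0 → ∃ v, 0 < inner ℝ x (u v)) :
    ∃ c', Gen u c' ∧ ∀ a b e, Dart u c' a b e → ∃ y, Feas u c y ∧ Act u c y a b e := by
  classical
  obtain ⟨w, hw⟩ := Module.Dual.exists_forall_ne_zero_of_forall_exists (K := ℝ) (M := V → ℝ)
    (ι := {t : V × V × V × V // 0 < dt3 (u t.1) (u t.2.1) (u t.2.2.1) ∧ t.1 ≠ t.2.2.2 ∧
      t.2.1 ≠ t.2.2.2 ∧ t.2.2.1 ≠ t.2.2.2})
    (fun t => ⟨⟨fun c => exc u c t.1.1 t.1.2.1 t.1.2.2.1 t.1.2.2.2, fun x y => by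
      simp only [exc, Pi.add_apply]; ring⟩, fun x y => by
      simp only [exc, Pi.smul_apply, smul_eq_mul, RingHom.id_apply]; ring⟩)
    (fun t => ⟨Pi.single t.1.2.2.2 1, by
      obtain ⟨h0, h1, h2, h3⟩ := t.2
      simp [exc, h1, h2, h3, h0.ne']⟩)
  have e0 : ∀ (ε : ℝ) a b e d, exc u (fun v => c v + ε * w v) a b e d =
      exc u c a b e d + ε * exc u w a b e d := fun ε a b e d => by
    simp only [exc]; ring
  have e1 : ∀ᶠ ε in 𝓝[>] (0 : ℝ), ∀ t : V × V × V × V,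
      0 < exc u c t.1 t.2.1 t.2.2.1 t.2.2.2 →
      0 < exc u c t.1 t.2.1 t.2.2.1 t.2.2.2 + ε * exc u w t.1 t.2.1 t.2.2.1 t.2.2.2 := by
    refine eventually_all.2 fun t => ?_
    by_cases h : 0 < exc u c t.1 t.2.1 t.2.2.1 t.2.2.2
    · exact (ev_pos _ h).mono fun _ k _ => k
    · exact Eventually.of_forall fun _ k => absurd k h
  have e2 : ∀ᶠ ε in 𝓝[>] (0 : ℝ), ∀ t : V × V × V × V,
      exc u w t.1 t.2.1 t.2.2.1 t.2.2.2 ≠ 0 →
      exc u c t.1 t.2.1 t.2.2.1 t.2.2.2 + ε * exc u w t.1 t.2.1 t.2.2.1 t.2.2.2 ≠ 0 := by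
    refine eventually_all.2 fun t => ?_
    by_cases h : exc u w t.1 t.2.1 t.2.2.1 t.2.2.2 ≠ 0
    · exact (ev_ne _ h).mono fun _ k _ => k
    · exact Eventually.of_forall fun _ k => absurd k h
  have e3 : ∀ᶠ ε in 𝓝[>] (0 : ℝ), ∀ t : V × V, t.1 ≠ t.2 →
      0 < c t.2 - c t.1 * inner ℝ (u t.1) (u t.2) +
        ε * (w t.2 - w t.1 * inner ℝ (u t.1) (u t.2)) := by
    refine eventually_all.2 fun t => ?_
    by_cases h : t.1 ≠ t.2
    · exact (ev_pos _ (sub_pos.2 (hc _ _ h))).mono fun _ k _ => k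
    · exact Eventually.of_forall fun _ k => absurd k h
  obtain ⟨ε, f1, f2, f3⟩ := (e1.and (e2.and e3)).exists
  refine ⟨fun v => c v + ε * w v, ⟨hb, fun v h => ?_, fun v => ⟨(c v + ε * w v) • u v,
    fun d => ?_, ?_⟩, fun a b e d y h ha hd => ?_⟩, ?_⟩
  · have := hu v
    rw [h, norm_zero] at this
    exact zero_ne_one this
  · rw [real_inner_smul_left]
    by_cases h : v = d
    · rw [← h, unit_ip (hu v), mul_one]
    · have := f3 (v, d) h
      simp only at this ⊢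
      linarith
  · rw [real_inner_smul_left, unit_ip (hu v), mul_one]
  · by_contra hn
    simp only [not_or] at hn
    have k := exc_eq ha d
    rw [hd, sub_self, mul_zero, e0] at k
    exact f2 (a, b, e, d) (hw ⟨(a, b, e, d), h, Ne.symm hn.1, Ne.symm hn.2.1, Ne.symm hn.2.2⟩)
      k.symm
  · rintro a b e ⟨h, y', hy', ha'⟩
    obtain ⟨y, hy⟩ := exists_act u c h
    refine ⟨y, fun d => ?_, hy⟩
    by_contra hn
    have k := exc_eq hy d
    have k' := exc_eq ha' d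
    rw [e0] at k'
    have k1 := f1 (a, b, e, d) (k ▸ mul_pos h (sub_pos.2 (not_le.1 hn)))
    have k2 := mul_nonpos_of_nonneg_of_nonpos h.le (sub_nonpos.2 (hy' d))
    simp only at k1
    linarith

theorem dt_dual {a b e y : E3} (ha : ‖a‖ = 1) (hb : ‖b‖ = 1) (h1 : inner ℝ y a = 1)
    (h2 : inner ℝ y b = 1) (h3 : inner ℝ y e = 1) : dt3 a b e * dt3 a b y =
      (1 - inner ℝ a b) * (1 + inner ℝ a b - inner ℝ b e - inner ℝ e a) := by
  have k : dt3 a b e * dt3 a b y =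
      (inner ℝ a b * inner ℝ b e - inner ℝ e a * inner ℝ b b) * inner ℝ y a +
      (inner ℝ e a * inner ℝ a b - inner ℝ a a * inner ℝ b e) * inner ℝ y b +
      (inner ℝ a a * inner ℝ b b - inner ℝ a b ^ 2) * inner ℝ y e := by
    simp only [ip3, dt3]
    ring
  rw [k, h1, h2, h3, unit_ip ha, unit_ip hb]
  ring

theorem cof_eq {a b e y : E3} (ha : ‖a‖ = 1) (hb : ‖b‖ = 1) (he : ‖e‖ = 1)
    (h1 : inner ℝ y a = 1) (h2 : inner ℝ y b = 1) (h3 : inner ℝ y e = 1) :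
    cof (inner ℝ a b) (inner ℝ b e) (inner ℝ e a) =
      gram (inner ℝ a b) (inner ℝ b e) (inner ℝ e a) * ‖y‖ ^ 2 := by
  have k := cramer a b e y y
  have k1 := dt_dual ha hb h1 h2 h3
  have k2 := dt_dual hb he h2 h3 h1
  have k3 := dt_dual he ha h3 h1 h2
  rw [h1, h2, h3, real_inner_self_eq_norm_sq] at k
  rw [dt_rot a b e] at k2
  rw [← dt_rot e a b] at k3
  rw [← dt_sq ha hb he, cof]
  linear_combination (-dt3 a b e) * k - k1 - k2 - k3

theorem del_of {a b e d y y' : E3} (ha : ‖a‖ = 1) (hb : ‖b‖ = 1) (he : ‖e‖ = 1) (hd : ‖d‖ = 1)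
    (h : 0 < dt3 a b e) (h' : 0 < dt3 b a d) (h1 : inner ℝ y a = 1) (h2 : inner ℝ y b = 1)
    (h3 : inner ℝ y e = 1) (g1 : inner ℝ y' b = 1) (g2 : inner ℝ y' a = 1)
    (g3 : inner ℝ y' d = 1) (g4 : inner ℝ y' e ≤ 1) :
    0 ≤ phi (inner ℝ a b) (inner ℝ b e) (inner ℝ e a) +
      phi (inner ℝ b a) (inner ℝ a d) (inner ℝ d b) := by
  have p := ip_sq_lt ha hb he h
  have p1 : 0 < 1 - inner ℝ a b := by nlinarith
  have k1 := dt_dual ha hb h1 h2 h3
  have k2 := dt_dual hb ha g1 g2 g3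
  have k3 : dt3 a b e * dt3 a b y' =
      (inner ℝ a b * inner ℝ b e - inner ℝ e a * inner ℝ b b) * inner ℝ y' a +
      (inner ℝ e a * inner ℝ a b - inner ℝ a a * inner ℝ b e) * inner ℝ y' b +
      (inner ℝ a a * inner ℝ b b - inner ℝ a b ^ 2) * inner ℝ y' e := by
    simp only [ip3, dt3]
    ring
  rw [g1, g2, unit_ip ha, unit_ip hb] at k3
  have k4 : dt3 a b y' ≤ dt3 a b y := by
    refine le_of_mul_le_mul_left ?_ h
    rw [k1, k3]
    nlinarith [mul_nonneg p.le (sub_nonneg.2 g4)]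
  rw [phi, phi, ← dt_sqrt ha hb he h, ← dt_sqrt hb ha hd h', ← neg_le_iff_add_nonneg,
    ← arctan_neg, arctan_le_arctan_iff]
  rw [real_inner_comm a b] at k2 ⊢
  have e1 : (1 + inner ℝ a b - inner ℝ b e - inner ℝ e a) / dt3 a b e =
      dt3 a b y / (1 - inner ℝ a b) := by
    field_simp
    linarith
  have e2 : -((1 + inner ℝ a b - inner ℝ a d - inner ℝ d b) / dt3 b a d) =
      dt3 a b y' / (1 - inner ℝ a b) := by
    rw [dt_swap a b y'] at k2
    field_simp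
    linarith
  rw [e1, e2]
  exact div_le_div_of_nonneg_right k4 p1.le

/-- A packing in the annulus is contained in a saturated one. -/
theorem exists_sat (R : ℝ) (S : Finset E3) (h1 : ∀ v ∈ S, 2 ≤ ‖v‖ ∧ ‖v‖ ≤ R)
    (h2 : ∀ v ∈ S, ∀ w ∈ S, v ≠ w → 2 ≤ ‖v - w‖) :
    ∃ M : Finset E3, S ⊆ M ∧ (∀ v ∈ M, 2 ≤ ‖v‖ ∧ ‖v‖ ≤ R) ∧
      (∀ v ∈ M, ∀ w ∈ M, v ≠ w → 2 ≤ ‖v - w‖) ∧
      ∀ q : E3, 2 ≤ ‖q‖ → ‖q‖ ≤ R → ∃ v ∈ M, ‖q - v‖ < 2 := by
  classical
  obtain ⟨t, ht, hc⟩ := Metric.totallyBounded_iff.1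
    (isCompact_closedBall (0 : E3) R).totallyBounded 1 one_pos
  set P : Set ℕ := {n | ∃ M : Finset E3, S ⊆ M ∧ (∀ v ∈ M, 2 ≤ ‖v‖ ∧ ‖v‖ ≤ R) ∧
    (∀ v ∈ M, ∀ w ∈ M, v ≠ w → 2 ≤ ‖v - w‖) ∧ M.card = n} with hP
  have hb : BddAbove P := by
    refine ⟨ht.toFinset.card, ?_⟩
    rintro n ⟨M, -, k1, k2, rfl⟩
    have k3 : ∀ v ∈ M, ∃ y ∈ ht.toFinset, v ∈ Metric.ball y 1 := fun v hv => by
      simpa using hc (mem_closedBall_zero_iff.2 (k1 v hv).2)
    choose! g hg using k3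
    refine Finset.card_le_card_of_injOn g (fun v hv => (hg v hv).1) fun v hv w hw e => ?_
    by_contra hne
    have a1 := Metric.mem_ball.1 (hg v hv).2
    have a2 := Metric.mem_ball.1 (hg w hw).2
    have a3 := k2 v hv w hw hne
    rw [← dist_eq_norm] at a3
    rw [e] at a1
    linarith [dist_triangle_right v w (g w)]
  obtain ⟨M, m1, m2, m3, m4⟩ := Nat.sSup_mem (s := P) ⟨_, S, subset_rfl, h1, h2, rfl⟩ hb
  refine ⟨M, m1, m2, m3, fun q q1 q2 => ?_⟩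
  by_contra hn
  push Not at hn
  have hq : q ∉ M := fun h => by
    have := hn q h
    rw [sub_self, norm_zero] at this
    linarith
  have : (insert q M).card ≤ sSup P := by
    refine le_csSup hb ⟨insert q M, m1.trans (Finset.subset_insert _ _), ?_, ?_, rfl⟩
    · intro v hv
      rcases Finset.mem_insert.1 hv with rfl | hv
      · exact ⟨q1, q2⟩
      · exact m2 v hv
    · intro v hv w hw hne
      rcases Finset.mem_insert.1 hv with rfl | hv' <;>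
        rcases Finset.mem_insert.1 hw with rfl | hw'
      · exact absurd rfl hne
      · exact hn w hw'
      · rw [norm_sub_rev]; exact hn v hv'
      · exact m3 v hv' w hw' hne
  rw [Finset.card_insert_of_notMem hq] at this
  omega

theorem dist_hu {p u : E3} (hp : ‖p‖ = 1) (hu : ‖u‖ = 1) (k h : ℝ) :
    ‖(2 * k) • p - (2 * h) • u‖ ^ 2 = 4 * (h ^ 2 + k ^ 2 - 2 * h * k * inner ℝ p u) := by
  rw [← real_inner_self_eq_norm_sq]
  simp only [inner_sub_left, inner_sub_right, real_inner_smul_left, real_inner_smul_right,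
    unit_ip hp, unit_ip hu, real_inner_comm p u]
  ring

/-- The triangulation from heights and directions. -/
theorem exists_tri {hs : ℝ} (h1 : 1 ≤ hs) (h2 : hs ^ 2 ≤ 2) [Fintype V] [DecidableEq V]
    (h : V → ℝ) (u : V → E3) (lo : ∀ v, 1 ≤ h v) (hi : ∀ v, h v ≤ hs) (hu : ∀ v, ‖u v‖ = 1)
    (sep : ∀ a b, a ≠ b → 2 * h a * h b * inner ℝ (u a) (u b) ≤ h a ^ 2 + h b ^ 2 - 1)
    (sat : ∀ p : E3, ‖p‖ = 1 → ∀ k : ℝ, 1 ≤ k → k ≤ hs →
      ∃ v, h v ^ 2 + k ^ 2 - 1 < 2 * h v * k * inner ℝ p (u v)) :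
    ∃ t : Tri hs V, t.h = h ∧ t.u = u := by
  classical
  have nrm : ∀ y : E3, y ≠ 0 → ∃ v, hs * ‖y‖ < 2 * inner ℝ y (u v) := by
    intro y hy
    have hn : 0 < ‖y‖ := norm_pos_iff.2 hy
    obtain ⟨v, hv⟩ := sat (‖y‖⁻¹ • y)
      (by rw [norm_smul, norm_inv, norm_norm, inv_mul_cancel₀ hn.ne']) hs h1 le_rfl
    refine ⟨v, ?_⟩
    rw [real_inner_smul_left, ← div_eq_inv_mul, ← mul_div_assoc, lt_div_iff₀ hn] at hv
    have k1 := lo v
    have k2 : h v * hs ^ 2 ≤ h v ^ 2 + hs ^ 2 - 1 := by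
      nlinarith [mul_nonneg (sub_nonneg.2 k1) (show 0 ≤ h v + 1 - hs ^ 2 by linarith)]
    have k3 : 0 < h v * hs := by positivity
    refine lt_of_mul_lt_mul_left ?_ k3.le
    nlinarith [mul_le_mul_of_nonneg_right k2 hn.le]
  obtain ⟨c, hG, hc⟩ := exists_pert u (fun _ => 1) hu (fun a b hab => by
      have k := sep a b hab
      have k1 := lo a
      have k2 := lo b
      have k3 := hi a
      have k4 := hi b
      have k5 : hs < 2 := by nlinarith
      by_contra hn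
      have k6 : 0 < 2 * h a * h b := by positivity
      nlinarith [mul_le_mul_of_nonneg_left (not_lt.1 hn) k6.le,
        mul_pos (show 0 < 1 - (h a - h b) by linarith) (show 0 < 1 + (h a - h b) by linarith)])
    (fun x hx => by
      obtain ⟨v, hv⟩ := nrm x hx
      exact ⟨v, by nlinarith [mul_nonneg (show 0 ≤ hs by linarith) (norm_nonneg x)]⟩)
  have hV : Nonempty V := by
    obtain ⟨v, -⟩ := hG.bdd !₂[1, 0, 0] fun h0 => by
      have := congrArg (fun z : E3 => z 0) h0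
      simp at this
    exact ⟨v⟩
  set T : Finset (V × V × V) := Finset.univ.filter fun t => Dart u c t.1 t.2.1 t.2.2 with hT0
  have hT : ∀ t, t ∈ T ↔ Dart u c t.1 t.2.1 t.2.2 := fun t => by simp [hT0]
  have gp : ∀ a b e, (a, b, e) ∈ T →
      0 < gram (inner ℝ (u a) (u b)) (inner ℝ (u b) (u e)) (inner ℝ (u e) (u a)) := by
    intro a b e ht
    rw [← dt_sq (hu a) (hu b) (hu e)]
    exact pow_pos ((hT _).1 ht).1 2
  refine ⟨⟨h, u, fun a b => inner ℝ (u a) (u b), T, lo, hi, hu, fun _ _ => rfl,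
    fun a b => real_inner_comm _ _, sep, sat, fun a b e ht => ((hT _).1 ht).1,
    fun a b e ht => dt_sqrt (hu a) (hu b) (hu e) ((hT _).1 ht).1, gp,
    fun a b e ht => ((hT _).1 ht).ne, fun a b e ht => ?_,
    fun a b e ht => (hT _).2 ((hT _).1 ht).rot,
    fun a b e e' ht ht' => hG.uniq ((hT _).1 ht) ((hT _).1 ht'), fun a b e ht => ?_,
    fun a b e ht => ?_, fun a b e d ht ht' => ?_, hG.ang_sum hu hT, hG.card hT,
    fun v D hne hD hn b e ht => hG.star v D hne (fun t k => ⟨(hT _).1 (hD t k).1, (hD t k).2⟩)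
      hn ((hT _).1 ht),
    fun D hne hD hr hn t ht => hG.conn D hne (fun t k => (hT _).1 (hD t k)) hr hn ((hT _).1 ht),
    fun v => ?_⟩, rfl, rfl⟩
  · obtain ⟨y, k1, k2⟩ := hc a b e ((hT _).1 ht)
    exact ⟨y, k2.1, k2.2.1, k2.2.2, k1⟩
  · obtain ⟨d, k1, k2⟩ := hG.nbr ((hT _).1 ht)
    exact ⟨d, k1, (hT _).2 k2⟩
  · obtain ⟨y, k1, k2⟩ := hc a b e ((hT _).1 ht)
    have hy : y ≠ 0 := fun h0 => by
      have := k2.1
      rw [h0, inner_zero_left] at this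
      exact zero_ne_one this
    obtain ⟨v, hv⟩ := nrm y hy
    have k3 : hs * ‖y‖ < 2 := by linarith [k1 v]
    have k4 : (hs * ‖y‖) ^ 2 < 4 := by
      nlinarith [mul_nonneg (show 0 ≤ hs by linarith) (norm_nonneg y)]
    rw [cof_eq (hu a) (hu b) (hu e) k2.1 k2.2.1 k2.2.2]
    nlinarith [mul_lt_mul_of_pos_left k4 (gp a b e ht)]
  · obtain ⟨y, -, k2⟩ := hc a b e ((hT _).1 ht)
    obtain ⟨y', k1', k2'⟩ := hc b a d ((hT _).1 ht')
    exact del_of (hu a) (hu b) (hu e) (hu d) ((hT _).1 ht).1 ((hT _).1 ht').1 k2.1 k2.2.1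
      k2.2.2 k2'.1 k2'.2.1 k2'.2.2 (k1' e)
  · obtain ⟨b, e, k⟩ := hG.cover v
    exact ⟨b, e, (hT _).2 k⟩

/-- Part B follows from the computation on triangulations. -/
theorem stB_of_numB {f : ℝ → ℝ} {hs δ : ℝ} (h1 : 1 ≤ hs) (h2 : hs ^ 2 ≤ 2)
    (hf : ∀ h, 0 ≤ f h) (hN : NumB f hs δ) : StB f hs δ := by
  classical
  intro S s1 s2 s3
  obtain ⟨M, m1, m2, m3, m4⟩ := exists_sat (2 * hs) S s1 s2
  have np : ∀ v : M, 0 < ‖(v : E3)‖ := fun v => by linarith [(m2 v v.2).1]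
  have hu : ∀ v : M, ‖‖(v : E3)‖⁻¹ • (v : E3)‖ = 1 := fun v => by
    rw [norm_smul, norm_inv, norm_norm, inv_mul_cancel₀ (np v).ne']
  have e : ∀ v : M, (2 * (‖(v : E3)‖ / 2)) • (‖(v : E3)‖⁻¹ • (v : E3)) = v := fun v => by
    rw [smul_smul, mul_div_cancel₀ _ two_ne_zero, mul_inv_cancel₀ (np v).ne', one_smul]
  obtain ⟨t, t1, -⟩ := exists_tri (V := M) h1 h2 (fun v => ‖(v : E3)‖ / 2)
    (fun v => ‖(v : E3)‖⁻¹ • (v : E3)) (fun v => by linarith [(m2 v v.2).1])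
    (fun v => by linarith [(m2 v v.2).2]) hu (fun a b hab => by
      have k := dist_hu (hu a) (hu b) (‖(a : E3)‖ / 2) (‖(b : E3)‖ / 2)
      rw [e, e] at k
      have k1 := m3 a a.2 b b.2 fun h => hab (Subtype.ext h)
      nlinarith)
    (fun p hp k k1 k2 => by
      have hn : ‖(2 * k) • p‖ = 2 * k := by
        rw [norm_smul, hp, mul_one, Real.norm_of_nonneg (by linarith)]
      obtain ⟨v, hv, hd⟩ := m4 ((2 * k) • p) (by linarith) (by linarith)
      have k3 := dist_hu hp (hu ⟨v, hv⟩) k (‖v‖ / 2)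
      rw [e ⟨v, hv⟩] at k3
      refine ⟨⟨v, hv⟩, ?_⟩
      nlinarith [norm_nonneg ((2 * k) • p - v)])
  have k := hN M t (by rw [Fintype.card_coe]; exact s3.trans (Finset.card_le_card m1))
  rw [t1, Finset.sum_coe_sort M fun v => f (‖v‖ / 2)] at k
  exact (Finset.sum_le_sum_of_subset_of_nonneg m1 fun v _ _ => hf _).trans k

end Pool.Agent.Lib.MP_f3b2fd_co.KEP
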